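import Pool.Agent.PZ.Ms

/-!
# From invertible matrices with prescribed zeros to products `z C w = 1`

The matrix with the blocks `0, z, 0`; `0, D, C`; `w, 0, D'` with diagonal invertible matrices
`D`, `D'` is invertible if and only if `z D⁻¹ C D'⁻¹ w` is.
-/

set_option autoImplicit false

open MvPolynomial
open Pool.Agent.Helper81.CP Pool.Agent.Helper81.HG Pool.Agent.Helper45.RM

namespace Pool.Agent.PZ

variable {G : ∀ (R : Type) [CommRing R], Prop}

/-- Schur complement of a diagonal block -/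
lemma det_schur {V W R : Type} [Fintype V] [DecidableEq V] [Fintype W] [DecidableEq W] [CommRing R]
    (A : Matrix V V R) (B : Matrix V W R) (C : Matrix W V R) (d : W → R) (hd : ∀ i, IsUnit (d i)) :
    (Matrix.fromBlocks A B C (Matrix.diagonal d)).det =
      (∏ i, d i) * (A - B * Matrix.diagonal (fun i => Ring.inverse (d i)) * C).det := by
  letI : Invertible (Matrix.diagonal d) :=
    ⟨Matrix.diagonal fun i => Ring.inverse (d i), by
      rw [Matrix.diagonal_mul_diagonal, ← Matrix.diagonal_one]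
      congr 1
      funext i
      exact Ring.inverse_mul_cancel _ (hd i), by
      rw [Matrix.diagonal_mul_diagonal, ← Matrix.diagonal_one]
      congr 1
      funext i
      exact Ring.mul_inverse_cancel _ (hd i)⟩
  rw [Matrix.det_fromBlocks₂₂, Matrix.det_diagonal]
  rfl

section
variable {A B : Type} [Fintype A] [Fintype B] [DecidableEq A] [DecidableEq B]

/-- the positions of the big matrix -/
def bigS (P : Set (A × B)) (j : ℕ) : Set (((Fin j ⊕ A) ⊕ B) × ((Fin j ⊕ A) ⊕ B)) :=
  {e | match e with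
    | (.inl (.inl _), .inl (.inr _)) => True
    | (.inl (.inr a), .inl (.inr a')) => a = a'
    | (.inl (.inr a), .inr b) => (a, b) ∈ P
    | (.inr _, .inl (.inl _)) => True
    | (.inr b, .inr b') => b = b'
    | _ => False}

/-- the position of a diagonal entry -/
def dgB (j : ℕ) : A ⊕ B → ((Fin j ⊕ A) ⊕ B) × ((Fin j ⊕ A) ⊕ B)
  | .inl a => (.inl (.inr a), .inl (.inr a))
  | .inr b => (.inr b, .inr b)

/-- the matrices of a family -/
def cM {j k : ℕ} {R : Type} (x : MV A B j k → R) : Matrix A B R := Matrix.of fun a b => x (Sum.inl (a, b))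

def zM {j k : ℕ} {R : Type} (x : MV A B j k → R) : Matrix (Fin j) A R :=
  Matrix.of fun i a => x (Sum.inr (Sum.inl (Sum.inl (i, a))))

def wM {j k : ℕ} {R : Type} (x : MV A B j k → R) : Matrix B (Fin j) R :=
  Matrix.of fun b i => x (Sum.inr (Sum.inl (Sum.inr (b, i))))

/-- the polynomial `det (z C w)` -/
noncomputable def dZ (A B : Type) [Fintype A] [Fintype B] (j : ℕ) : MvPolynomial (MV A B j 0) ℤ :=
  (Matrix.of fun i i' => ∑ a, ∑ b, X (Sum.inr (Sum.inl (Sum.inl (i, a)))) *
      (X (Sum.inl (a, b)) * X (Sum.inr (Sum.inl (Sum.inr (b, i'))))) :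
        Matrix (Fin j) (Fin j) (MvPolynomial (MV A B j 0) ℤ)).det

omit [DecidableEq A] [DecidableEq B] in
lemma zcw_apply {j k : ℕ} {R : Type} [CommRing R] (x : MV A B j k → R) (i i' : Fin j) :
    (zM x * (cM x * wM x)) i i' = ∑ a, ∑ b, x (Sum.inr (Sum.inl (Sum.inl (i, a)))) *
      (x (Sum.inl (a, b)) * x (Sum.inr (Sum.inl (Sum.inr (b, i'))))) := by
  simp only [Matrix.mul_apply, Finset.mul_sum]
  rfl

omit [DecidableEq A] [DecidableEq B] in
lemma ev_dZ {j : ℕ} {R : Type} [CommRing R] (x : MV A B j 0 → R) :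
    ev x (dZ A B j) = (zM x * (cM x * wM x)).det := by
  unfold dZ
  rw [ev_det]
  congr 1
  ext i i'
  rw [zcw_apply]
  simp only [Matrix.of_apply, map_sum, map_mul, ev_X]

/-- from the big matrix to `C`, `z`, `w` and the diagonal entries -/
noncomputable def bF {j : ℕ} {R : Type} [CommRing R]
    (x : ((Fin j ⊕ A) ⊕ B) × ((Fin j ⊕ A) ⊕ B) → R) : MV A B j 0 ⊕ (A ⊕ B) → R :=
  Sum.elim (Sum.elim (fun e => x (.inl (.inr e.1), .inr e.2))
    (Sum.elim (Sum.elim
      (fun p => x (.inl (.inl p.1), .inl (.inr p.2)) * Ring.inverse (x (dgB j (Sum.inl p.2))))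
      (fun p => Ring.inverse (x (dgB j (Sum.inr p.1))) * x (.inr p.1, .inl (.inl p.2))))
      (fun p => p.2.elim0)))
    (fun i => x (dgB j i))

open scoped Classical in
/-- the way back -/
noncomputable def bB {j : ℕ} {R : Type} [CommRing R] (y : MV A B j 0 ⊕ (A ⊕ B) → R) :
    ((Fin j ⊕ A) ⊕ B) × ((Fin j ⊕ A) ⊕ B) → R := fun e => match e with
    | (.inl (.inl i), .inl (.inr a)) =>
      y (.inl (.inr (.inl (.inl (i, a))))) * y (.inr (.inl a))
    | (.inl (.inr a), .inl (.inr a')) => if a = a' then y (.inr (.inl a)) else 0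
    | (.inl (.inr a), .inr b) => y (.inl (.inl (a, b)))
    | (.inr b, .inl (.inl i)) => y (.inr (.inr b)) * y (.inl (.inr (.inl (.inr (b, i)))))
    | (.inr b, .inr b') => if b = b' then y (.inr (.inr b)) else 0
    | _ => 0

/-- the determinant of the big matrix -/
lemma det_big {P : Set (A × B)} {j : ℕ} {R : Type} [CommRing R]
    {x : ((Fin j ⊕ A) ⊕ B) × ((Fin j ⊕ A) ⊕ B) → R} (hx : ∀ e, e ∉ bigS P j → x e = 0)
    (hd : ∀ i, IsUnit (x (dgB j i))) :
    (mx x).det = (∏ b, x (dgB j (Sum.inr b))) * ((∏ a, x (dgB j (Sum.inl a))) *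
      (zM (fun i => bF x (Sum.inl i)) * (cM (fun i => bF x (Sum.inl i)) *
        wM (fun i => bF x (Sum.inl i)))).det) := by
  let dA : A → R := fun a => x (dgB j (Sum.inl a))
  let dB : B → R := fun b => x (dgB j (Sum.inr b))
  let A11 : Matrix (Fin j ⊕ A) (Fin j ⊕ A) R := Matrix.of fun i i' => x (Sum.inl i, Sum.inl i')
  let A12 : Matrix (Fin j ⊕ A) B R := Matrix.of fun i b => x (Sum.inl i, Sum.inr b)
  let A21 : Matrix B (Fin j ⊕ A) R := Matrix.of fun b i => x (Sum.inr b, Sum.inl i)
  let Z : Matrix (Fin j) A R := Matrix.of fun i a => x (Sum.inl (Sum.inl i), Sum.inl (Sum.inr a))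
  let C : Matrix A B R := Matrix.of fun a b => x (Sum.inl (Sum.inr a), Sum.inr b)
  let w : Matrix B (Fin j) R := Matrix.of fun b i => x (Sum.inr b, Sum.inl (Sum.inl i))
  have h1 : mx x = Matrix.fromBlocks A11 A12 A21 (Matrix.diagonal dB) := by
    ext (i | i) (i' | i')
    · rfl
    · rfl
    · rfl
    · rw [Matrix.fromBlocks_apply₂₂, Matrix.diagonal_apply]
      split_ifs with h
      · subst h
        rfl
      · exact hx (Sum.inr i, Sum.inr i') h
  have h2 : A11 - A12 * Matrix.diagonal (fun b => Ring.inverse (dB b)) * A21 =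
      Matrix.fromBlocks 0 Z (-(C * Matrix.diagonal (fun b => Ring.inverse (dB b)) * w))
        (Matrix.diagonal dA) := by
    ext (i | i) (i' | i')
    · rw [Matrix.sub_apply, Matrix.mul_apply, Matrix.fromBlocks_apply₁₁, Matrix.zero_apply]
      rw [Finset.sum_eq_zero, sub_zero]
      · exact hx (Sum.inl (Sum.inl i), Sum.inl (Sum.inl i')) (fun h => h)
      · intro b _
        rw [Matrix.mul_diagonal]
        show x (Sum.inl (Sum.inl i), Sum.inr b) * _ * _ = 0
        rw [hx (Sum.inl (Sum.inl i), Sum.inr b) (fun h => h), zero_mul, zero_mul]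
    · rw [Matrix.sub_apply, Matrix.mul_apply, Matrix.fromBlocks_apply₁₂]
      rw [Finset.sum_eq_zero, sub_zero]
      · rfl
      · intro b _
        rw [Matrix.mul_diagonal]
        show x (Sum.inl (Sum.inl i), Sum.inr b) * _ * _ = 0
        rw [hx (Sum.inl (Sum.inl i), Sum.inr b) (fun h => h), zero_mul, zero_mul]
    · rw [Matrix.sub_apply, Matrix.mul_apply, Matrix.fromBlocks_apply₂₁, Matrix.neg_apply,
        Matrix.mul_apply]
      have h3 : A11 (Sum.inr i) (Sum.inl i') = 0 :=
        hx (Sum.inl (Sum.inr i), Sum.inl (Sum.inl i')) (fun h => h)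
      rw [h3, zero_sub]
      simp only [Matrix.mul_diagonal]
      rfl
    · rw [Matrix.sub_apply, Matrix.mul_apply, Matrix.fromBlocks_apply₂₂, Matrix.diagonal_apply]
      rw [Finset.sum_eq_zero, sub_zero]
      · split_ifs with h
        · subst h
          rfl
        · exact hx (Sum.inl (Sum.inr i), Sum.inl (Sum.inr i')) h
      · intro b _
        show _ * x (Sum.inr b, Sum.inl (Sum.inr i')) = 0
        rw [hx (Sum.inr b, Sum.inl (Sum.inr i')) (fun h => h), mul_zero]
  rw [h1, det_schur _ _ _ _ fun b => hd (Sum.inr b), h2, det_schur _ _ _ _ fun a => hd (Sum.inl a)]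
  refine congrArg _ (congrArg _ (congrArg _ ?_))
  ext i i'
  rw [zcw_apply, zero_sub, Matrix.mul_neg, neg_neg, Matrix.mul_apply]
  refine Finset.sum_congr rfl fun a _ => ?_
  rw [Matrix.mul_diagonal, Matrix.mul_apply, Finset.mul_sum]
  refine Finset.sum_congr rfl fun b _ => ?_
  rw [Matrix.mul_diagonal]
  show x (Sum.inl (Sum.inl i), Sum.inl (Sum.inr a)) * Ring.inverse (dA a) *
    (x (Sum.inl (Sum.inr a), Sum.inr b) * Ring.inverse (dB b) *
      x (Sum.inr b, Sum.inl (Sum.inl i'))) =
    x (Sum.inl (Sum.inl i), Sum.inl (Sum.inr a)) * Ring.inverse (dA a) *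
    (x (Sum.inl (Sum.inr a), Sum.inr b) * (Ring.inverse (dB b) *
      x (Sum.inr b, Sum.inl (Sum.inl i'))))
  ring

lemma bB_dg {j : ℕ} {R : Type} [CommRing R] (y : MV A B j 0 ⊕ (A ⊕ B) → R) (i : A ⊕ B) :
    bB y (dgB j i) = y (Sum.inr i) := by
  rcases i with a | b
  · show (if a = a then y (.inr (.inl a)) else 0) = _
    rw [if_pos rfl]
  · show (if b = b then y (.inr (.inr b)) else 0) = _
    rw [if_pos rfl]

lemma bF_bB {j : ℕ} {R : Type} [CommRing R] {y : MV A B j 0 ⊕ (A ⊕ B) → R}
    (hy : ∀ i, IsUnit (y (Sum.inr i))) : bF (bB y) = y := by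
  funext i
  rcases i with (i | (i | i) | i) | i
  · rfl
  · show y (.inl (.inr (.inl (.inl (i.1, i.2))))) * y (.inr (.inl i.2)) *
      Ring.inverse (bB y (dgB j (Sum.inl i.2))) = _
    rw [bB_dg, mul_assoc, Ring.mul_inverse_cancel _ (hy _), mul_one]
  · show Ring.inverse (bB y (dgB j (Sum.inr i.1))) *
      (y (.inr (.inr i.1)) * y (.inl (.inr (.inl (.inr (i.1, i.2)))))) = _
    rw [bB_dg, ← mul_assoc, Ring.inverse_mul_cancel _ (hy _), one_mul]
  · exact i.2.elim0
  · exact bB_dg y i

lemma bB_bF {P : Set (A × B)} {j : ℕ} {R : Type} [CommRing R]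
    {x : ((Fin j ⊕ A) ⊕ B) × ((Fin j ⊕ A) ⊕ B) → R} (hx : ∀ e, e ∉ bigS P j → x e = 0)
    (hd : ∀ i, IsUnit (x (dgB j i))) : bB (bF x) = x := by
  funext e
  rcases e with ⟨(i | i) | i, (i' | i') | i'⟩
  · exact (hx (.inl (.inl i), .inl (.inl i')) (fun h => h)).symm
  · show x (.inl (.inl i), .inl (.inr i')) * Ring.inverse (x (dgB j (Sum.inl i'))) *
      x (dgB j (Sum.inl i')) = _
    rw [mul_assoc, Ring.inverse_mul_cancel _ (hd _), mul_one]
  · exact (hx (.inl (.inl i), .inr i') (fun h => h)).symm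
  · exact (hx (.inl (.inr i), .inl (.inl i')) (fun h => h)).symm
  · show (if i = i' then x (dgB j (Sum.inl i)) else 0) = _
    split_ifs with h
    · subst h
      rfl
    · exact (hx (.inl (.inr i), .inl (.inr i')) h).symm
  · rfl
  · show x (dgB j (Sum.inr i)) * (Ring.inverse (x (dgB j (Sum.inr i))) *
      x (.inr i, .inl (.inl i'))) = _
    rw [← mul_assoc, Ring.mul_inverse_cancel _ (hd _), one_mul]
  · exact (hx (.inr i, .inl (.inr i')) (fun h => h)).symm
  · show (if i = i' then x (dgB j (Sum.inr i)) else 0) = _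
    split_ifs with h
    · subst h
      rfl
    · exact (hx (.inr i, .inr i') h).symm

/-- the products `z C w` which are invertible -/
lemma go_zcw (hG : RG G)
    (h : ∀ (V : Type) [Fintype V] [DecidableEq V] (S : Set (V × V)), UG G S) (P : Set (A × B))
    (j : ℕ) : GO G (rename Sum.inl '' zS P : Set (MvPolynomial (MV A B j 0) ℤ)) (dZ A B j) := by
  have h1 : GO G (zS (bigS P j)) (dP ((Fin j ⊕ A) ⊕ B) *
      ∏ e ∈ Finset.univ.image (dgB (A := A) (B := B) j), X e) :=
    go_del hG _ _ fun T _ => h _ T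
  have hinj : Function.Injective (dgB (A := A) (B := B) j) := by
    rintro (a | a) (b | b) hab
    · have := congrArg Prod.fst hab
      exact congrArg Sum.inl (Sum.inr_injective (Sum.inl_injective this))
    · exact absurd (congrArg Prod.fst hab) (fun h => Sum.inl_ne_inr h)
    · exact absurd (congrArg Prod.fst hab) (fun h => Sum.inr_ne_inl h)
    · have := congrArg Prod.fst hab
      exact congrArg Sum.inr (Sum.inr_injective this)
  rw [Finset.prod_image fun a _ b _ hab => hinj hab] at h1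
  rw [← go_times hG (τ := A ⊕ B)]
  have hl : ∀ {R : Type} [CommRing R] {x : ((Fin j ⊕ A) ⊕ B) × ((Fin j ⊕ A) ⊕ B) → R},
      Lc (zS (bigS P j)) (dP ((Fin j ⊕ A) ⊕ B) * ∏ i, X (dgB (A := A) (B := B) j i)) x ↔
        (∀ e, e ∉ bigS P j → x e = 0) ∧ IsUnit (mx x).det ∧ ∀ i, IsUnit (x (dgB j i)) := by
    intro R _ x
    unfold Lc
    rw [pt_zs, map_mul, map_prod, ev_dP, IsUnit.mul_iff, isUnit_prod_iff]
    simp only [ev_X, Finset.mem_univ, true_imp_iff]
  have hl' : ∀ {R : Type} [CommRing R] {y : MV A B j 0 ⊕ (A ⊕ B) → R},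
      Lc (rename (Sum.inl : MV A B j 0 → MV A B j 0 ⊕ (A ⊕ B)) '' (rename Sum.inl '' zS P))
        (rename Sum.inl (dZ A B j) * ∏ a : A ⊕ B, X (Sum.inr a)) y ↔
        (∀ e, e ∉ P → y (Sum.inl (Sum.inl e)) = 0) ∧
          IsUnit (zM (fun i => y (Sum.inl i)) * (cM (fun i => y (Sum.inl i)) *
            wM (fun i => y (Sum.inl i)))).det ∧ ∀ i, IsUnit (y (Sum.inr i)) := by
    intro R _ y
    rw [lc_times]
    unfold Lc
    rw [ev_dZ]
    have h3 : Pt (rename Sum.inl '' zS P : Set (MvPolynomial (MV A B j 0) ℤ))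
        (fun i => y (Sum.inl i)) ↔ Pt (zS P) fun e => y (Sum.inl (Sum.inl e)) := by
      simp only [Pt, Set.forall_mem_image, ev_rename]
    rw [h3, pt_zs]
    tauto
  refine (hG.gl_iso (fun R _ x => bF x) (fun R _ y => bB y) ?_ ?_ ?_ ?_ ?_ ?_).1 h1
  · intro R R' _ _ φ x hx i
    rw [hl] at hx
    rcases i with (i | (i | i) | i) | i
    · rfl
    · show φ (x _ * Ring.inverse (x _)) = φ (x _) * Ring.inverse (φ (x _))
      rw [map_mul, map_inv_of_unit φ (hx.2.2 (Sum.inl i.2))]
    · show φ (Ring.inverse (x _) * x _) = Ring.inverse (φ (x _)) * φ (x _)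
      rw [map_mul, map_inv_of_unit φ (hx.2.2 (Sum.inr i.1))]
    · exact i.2.elim0
    · rfl
  · intro R R' _ _ φ y _ e
    rcases e with ⟨(i | i) | i, (i' | i') | i'⟩
    · exact map_zero φ
    · exact map_mul φ _ _
    · exact map_zero φ
    · exact map_zero φ
    · show φ (if i = i' then _ else 0) = if i = i' then _ else 0
      split_ifs
      · rfl
      · exact map_zero φ
    · rfl
    · exact map_mul φ _ _
    · exact map_zero φ
    · show φ (if i = i' then _ else 0) = if i = i' then _ else 0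
      split_ifs
      · rfl
      · exact map_zero φ
  · intro R _ x hx
    rw [hl] at hx
    rw [hl']
    refine ⟨fun e he => hx.1 (.inl (.inr e.1), .inr e.2) he, ?_, hx.2.2⟩
    have h4 := hx.2.1
    rw [det_big hx.1 hx.2.2, IsUnit.mul_iff, IsUnit.mul_iff] at h4
    exact h4.2.2
  · intro R _ y hy
    rw [hl'] at hy
    rw [hl]
    have h5 : ∀ e, e ∉ bigS P j → bB y e = 0 := by
      rintro ⟨(i | i) | i, (i' | i') | i'⟩ he
      · rfl
      · exact absurd trivial he
      · rfl
      · rfl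
      · exact if_neg he
      · exact hy.1 (i, i') he
      · exact absurd trivial he
      · rfl
      · exact if_neg he
    have h6 : ∀ i, IsUnit (bB y (dgB j i)) := fun i => by
      rw [bB_dg]
      exact hy.2.2 i
    refine ⟨h5, ?_, h6⟩
    rw [det_big h5 h6, bF_bB hy.2.2, IsUnit.mul_iff, IsUnit.mul_iff, isUnit_prod_iff,
      isUnit_prod_iff]
    exact ⟨fun b _ => h6 (Sum.inr b), fun a _ => h6 (Sum.inl a), hy.2.1⟩
  · intro R _ x hx
    rw [hl] at hx
    exact bB_bF hx.1 hx.2.2
  · intro R _ y hy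
    rw [hl'] at hy
    exact bF_bB hy.2.2

/-- the inverse matrix as a function of the matrix -/
noncomputable def iM {n : ℕ} {R : Type} [CommRing R] (M : Matrix (Fin n) (Fin n) R) :
    Matrix (Fin n) (Fin n) R := Ring.inverse M.det • M.adjugate

lemma mul_iM {n : ℕ} {R : Type} [CommRing R] {M : Matrix (Fin n) (Fin n) R} (h : IsUnit M.det) :
    M * iM M = 1 := by
  unfold iM
  rw [Matrix.mul_smul, Matrix.mul_adjugate, smul_smul, Ring.inverse_mul_cancel _ h, one_smul]

lemma iM_map {n : ℕ} {R R' : Type} [CommRing R] [CommRing R'] (φ : R →+* R')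
    {M : Matrix (Fin n) (Fin n) R} (h : IsUnit M.det) : (iM M).map φ = iM (M.map φ) := by
  unfold iM
  ext i i'
  have h1 : (M.map φ).det = φ M.det := (RingHom.map_det φ M).symm
  have h2 : (M.map φ).adjugate = M.adjugate.map φ := (RingHom.map_adjugate φ M).symm
  rw [Matrix.map_apply, Matrix.smul_apply, Matrix.smul_apply, h1, h2, Matrix.map_apply,
    smul_eq_mul, smul_eq_mul, map_mul, map_inv_of_unit φ h]

/-- from `C, z, w` to `C, (z C w)⁻¹ z, w` and the matrix `z C w` with its inverse -/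
noncomputable def gFk {j : ℕ} {R : Type} [CommRing R] (x : MV A B j 0 → R) :
    GV j (MV A B j 0) → R :=
  Sum.elim (Sum.elim (fun e => x (Sum.inl e)) (Sum.elim (Sum.elim
    (fun p => (iM (zM x * (cM x * wM x)) * zM x) p.1 p.2) (fun p => x (Sum.inr (Sum.inl (Sum.inr p)))))
      (fun p => p.2.elim0)))
    (Sum.elim (fun p => (zM x * (cM x * wM x)) p.1 p.2)
      (fun p => iM (zM x * (cM x * wM x)) p.2 p.1))

/-- the way back -/
def gBk {j : ℕ} {R : Type} [CommRing R] (y : GV j (MV A B j 0) → R) : MV A B j 0 → R :=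
  Sum.elim (fun e => y (Sum.inl (Sum.inl e))) (Sum.elim (Sum.elim
    (fun p => ∑ i, y (Sum.inr (Sum.inl (p.1, i))) *
      y (Sum.inl (Sum.inr (Sum.inl (Sum.inl (i, p.2))))))
    (fun p => y (Sum.inl (Sum.inr (Sum.inl (Sum.inr p)))))) (fun p => p.2.elim0))

/-- **From invertible matrices to `z C w = 1`.** -/
theorem gs_ms_zero (hG : RG G) (hS : Sem G)
    (h : ∀ (V : Type) [Fintype V] [DecidableEq V] (S : Set (V × V)), UG G S) (P : Set (A × B))
    (j : ℕ) : GS G (mS P j 0) := by
  have h1 := go_zcw hG h P j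
  have h2 : GS G (glS j (mS P j 0)) := by
    rw [← hG.gl_one]
    have hl : ∀ {R : Type} [CommRing R] {x : MV A B j 0 → R},
        Lc (rename Sum.inl '' zS P : Set (MvPolynomial (MV A B j 0) ℤ)) (dZ A B j) x ↔
          (∀ e, e ∉ P → x (Sum.inl e) = 0) ∧ IsUnit (zM x * (cM x * wM x)).det := by
      intro R _ x
      unfold Lc
      rw [ev_dZ]
      have h3 : Pt (rename Sum.inl '' zS P : Set (MvPolynomial (MV A B j 0) ℤ)) x ↔
          Pt (zS P) fun e => x (Sum.inl e) := by
        simp only [Pt, Set.forall_mem_image, ev_rename]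
      rw [h3, pt_zs]
    have hl' : ∀ {R : Type} [CommRing R] {y : GV j (MV A B j 0) → R},
        Lc (glS j (mS P j 0)) 1 y ↔ (∀ e, e ∉ P → y (Sum.inl (Sum.inl e)) = 0) ∧
          zM (fun i => y (Sum.inl i)) * (cM (fun i => y (Sum.inl i)) *
            wM (fun i => y (Sum.inl i))) = 1 ∧
          (Matrix.of fun i a => y (Sum.inr (Sum.inl (i, a)))) *
            (Matrix.of fun a i => y (Sum.inr (Sum.inr (i, a)))) = 1 := by
      intro R _ y
      unfold Lc
      rw [pt_gls, pt_mS, map_one]
      have h3 : (zM (fun i => y (Sum.inl i)) * (cM (fun i => y (Sum.inl i)) *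
            wM (fun i => y (Sum.inl i))) = 1) ↔ ∀ i i', ∑ a, ∑ b,
          y (Sum.inl (Sum.inr (Sum.inl (Sum.inl (i, a))))) *
          (y (Sum.inl (Sum.inl (a, b))) * y (Sum.inl (Sum.inr (Sum.inl (Sum.inr (b, i')))))) =
          if i = i' then 1 else 0 := by
        rw [← Matrix.ext_iff]
        simp only [zcw_apply, Matrix.one_apply]
      have h4 : ((Matrix.of fun i a => y (Sum.inr (Sum.inl (i, a)))) *
            (Matrix.of fun a i => y (Sum.inr (Sum.inr (i, a)))) = 1) ↔
          ∀ i i', ∑ a, y (Sum.inr (Sum.inl (i, a))) * y (Sum.inr (Sum.inr (i', a))) =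
            if i = i' then 1 else 0 := by
        rw [← Matrix.ext_iff]
        simp only [Matrix.mul_apply, Matrix.of_apply, Matrix.one_apply]
      rw [h3, h4]
      constructor
      · rintro ⟨⟨⟨a, b, _⟩, c⟩, _⟩
        exact ⟨a, b, c⟩
      · rintro ⟨a, b, c⟩
        exact ⟨⟨⟨a, b, fun _ l => l.elim0⟩, c⟩, isUnit_one⟩
    refine (hG.gl_iso (fun R _ x => gFk x) (fun R _ y => gBk y) ?_ ?_ ?_ ?_ ?_ ?_).1 h1
    · intro R R' _ _ φ x hx i
      rw [hl] at hx
      have h5 : (zM x * (cM x * wM x)).map φ = zM (fun i => φ (x i)) *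
          (cM (fun i => φ (x i)) * wM (fun i => φ (x i))) := by
        rw [Matrix.map_mul, Matrix.map_mul]
        rfl
      have h6 := iM_map φ hx.2
      rw [h5] at h6
      rcases i with (i | (i | i) | i) | i | i
      · rfl
      · show φ ((iM (zM x * (cM x * wM x)) * zM x : Matrix (Fin j) A R) i.1 i.2) =
          (iM (zM (fun i => φ (x i)) * (cM (fun i => φ (x i)) * wM (fun i => φ (x i)))) *
            zM (fun i => φ (x i)) : Matrix (Fin j) A R') i.1 i.2
        rw [← h6]
        have h7 : ((iM (zM x * (cM x * wM x))).map φ * zM fun i => φ (x i)) =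
            (iM (zM x * (cM x * wM x)) * zM x).map φ := by
          rw [Matrix.map_mul]
          rfl
        rw [h7]
        rfl
      · rfl
      · exact i.2.elim0
      · show φ ((zM x * (cM x * wM x)) i.1 i.2) = _
        exact congrFun (congrFun h5 i.1) i.2
      · show φ (iM _ i.2 i.1) = _
        exact congrFun (congrFun h6 i.2) i.1
    · intro R R' _ _ φ y _ i
      rcases i with i | (i | i) | i
      · rfl
      · simp only [gBk, Sum.elim_inr, Sum.elim_inl, map_sum, map_mul]
      · rfl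
      · exact i.2.elim0
    · intro R _ x hx
      rw [hl] at hx
      rw [hl']
      have h8 := mul_iM hx.2
      have h9 : iM (zM x * (cM x * wM x)) * (zM x * (cM x * wM x)) = 1 := mul_eq_one_comm.1 h8
      refine ⟨hx.1, ?_, h8⟩
      have h10 : zM (fun i => gFk x (Sum.inl i)) = iM (zM x * (cM x * wM x)) * zM x := rfl
      have h11 : cM (fun i => gFk x (Sum.inl i)) = cM x := rfl
      have h12 : wM (fun i => gFk x (Sum.inl i)) = wM x := rfl
      rw [h10, h11, h12, Matrix.mul_assoc, h9]
    · intro R _ y hy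
      rw [hl'] at hy
      rw [hl]
      have h10 : zM (gBk y) = (Matrix.of fun i a => y (Sum.inr (Sum.inl (i, a)))) *
          zM (fun i => y (Sum.inl i)) := by
        ext i a
        rw [Matrix.mul_apply]
        rfl
      have h11 : cM (gBk y) = cM (fun i => y (Sum.inl i)) := rfl
      have h12 : wM (gBk y) = wM (fun i => y (Sum.inl i)) := rfl
      refine ⟨hy.1, ?_⟩
      rw [h10, h11, h12, Matrix.mul_assoc, hy.2.1, Matrix.mul_one]
      exact IsUnit.of_mul_eq_one _ (by rw [← Matrix.det_mul, hy.2.2, Matrix.det_one])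
    · intro R _ x hx
      rw [hl] at hx
      have h8 := mul_iM hx.2
      funext i
      rcases i with i | (i | i) | i
      · rfl
      · have h13 : (zM x * (cM x * wM x)) * (iM (zM x * (cM x * wM x)) * zM x) = zM x := by
          rw [← Matrix.mul_assoc, h8, Matrix.one_mul]
        have h14 := congrFun (congrFun h13 i.1) i.2
        rw [Matrix.mul_apply] at h14
        exact h14
      · rfl
      · exact i.2.elim0
    · intro R _ y hy
      rw [hl'] at hy
      have h10 : zM (gBk y) = (Matrix.of fun i a => y (Sum.inr (Sum.inl (i, a)))) *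
          zM (fun i => y (Sum.inl i)) := by
        ext i a
        rw [Matrix.mul_apply]
        rfl
      have h11 : cM (gBk y) = cM (fun i => y (Sum.inl i)) := rfl
      have h12 : wM (gBk y) = wM (fun i => y (Sum.inl i)) := rfl
      have h15 : zM (gBk y) * (cM (gBk y) * wM (gBk y)) =
          Matrix.of fun i a => y (Sum.inr (Sum.inl (i, a))) := by
        rw [h10, h11, h12, Matrix.mul_assoc, hy.2.1, Matrix.mul_one]
      have h16 : IsUnit (zM (gBk y) * (cM (gBk y) * wM (gBk y))).det := by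
        rw [h15]
        exact IsUnit.of_mul_eq_one _ (by rw [← Matrix.det_mul, hy.2.2, Matrix.det_one])
      have h17 : iM (zM (gBk y) * (cM (gBk y) * wM (gBk y))) =
          Matrix.of fun a i => y (Sum.inr (Sum.inr (i, a))) := by
        have h18 := mul_iM h16
        have h19 := mul_eq_one_comm.1 h18
        rw [h15] at h19 ⊢
        calc iM (Matrix.of fun i a => y (Sum.inr (Sum.inl (i, a)))) =
            iM (Matrix.of fun i a => y (Sum.inr (Sum.inl (i, a)))) *
              ((Matrix.of fun i a => y (Sum.inr (Sum.inl (i, a)))) *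
                (Matrix.of fun a i => y (Sum.inr (Sum.inr (i, a))))) := by
              rw [hy.2.2, Matrix.mul_one]
          _ = _ := by rw [← Matrix.mul_assoc, h19, Matrix.one_mul]
      funext i
      rcases i with (i | (i | i) | i) | i | i
      · rfl
      · show (iM (zM (gBk y) * (cM (gBk y) * wM (gBk y))) * zM (gBk y)) i.1 i.2 = _
        rw [h17, h10, ← Matrix.mul_assoc, mul_eq_one_comm.1 hy.2.2, Matrix.one_mul]
        rfl
      · rfl
      · exact i.2.elim0
      · show (zM (gBk y) * (cM (gBk y) * wM (gBk y))) i.1 i.2 = _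
        rw [h15]
        rfl
      · show iM (zM (gBk y) * (cM (gBk y) * wM (gBk y))) i.2 i.1 = _
        rw [h17]
        rfl
  exact hS _ _ _ _ _ _ (fun Q hQ g _ => good_gln hQ j _ (mS P j 0) g) h2 h2

end

end Pool.Agent.PZ
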