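import Pool.Agent.PZ.Ms

/-!
# The other classes: bounded rank, idempotents, square zero, symmetric and alternating matrices
-/

set_option autoImplicit false

open MvPolynomial
open Pool.Agent.Helper81.CP Pool.Agent.Helper81.HG Pool.Agent.Helper45.RM

namespace Pool.Agent.PZ.Cl

variable {G : ∀ (R : Type) [CommRing R], Prop}

lemma pt_union {σ R : Type} [CommRing R] {E₁ E₂ : Set (MvPolynomial σ ℤ)} {x : σ → R} :
    Pt (E₁ ∪ E₂) x ↔ Pt E₁ x ∧ Pt E₂ x := by
  unfold Pt
  simp only [Set.mem_union, or_imp, forall_and]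

/-! ### Minors -/

/-- a product through rank `r` has no minors of order `r + 1` -/
lemma det_low {r : ℕ} {R : Type} [CommRing R] (U : Fin (r + 1) → Fin r → R)
    (W : Fin r → Fin (r + 1) → R) :
    (Matrix.of fun s t => ∑ c, U s c * W c t).det = 0 := by
  have h1 : (Matrix.of fun s t => ∑ c, U s c * W c t) =
      (Matrix.of fun (s : Fin (r + 1)) (k : Fin (r + 1)) => Fin.snoc (α := fun _ => R) (U s) 0 k) *
      (Matrix.of fun (k : Fin (r + 1)) (t : Fin (r + 1)) =>
        Fin.snoc (α := fun _ => R) (fun c => W c t) 0 k) := by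
    ext s t
    rw [Matrix.mul_apply, Fin.sum_univ_castSucc]
    simp
  rw [h1, Matrix.det_mul, Matrix.det_eq_zero_of_column_eq_zero (Fin.last r), zero_mul]
  intro s
  simp

/-- a bordered diagonal matrix -/
lemma det_border {r : ℕ} {R V : Type} [CommRing R] (M : V → V → R) (k : Fin r → V)
    (hd : ∀ c c', c ≠ c' → M (k c) (k c') = 0) (hu : ∀ c, IsUnit (M (k c) (k c))) (i j : V)
    (h : (Matrix.of fun s t => M (Sum.elim k (fun _ : Fin 1 => i) (finSumFinEquiv.symm s))
      (Sum.elim k (fun _ : Fin 1 => j) (finSumFinEquiv.symm t))).det = 0) :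
    M i j = ∑ c, M i (k c) * Ring.inverse (M (k c) (k c)) * M (k c) j := by
  classical
  have h1 : (Matrix.of fun s t => M (Sum.elim k (fun _ : Fin 1 => i) (finSumFinEquiv.symm s))
      (Sum.elim k (fun _ : Fin 1 => j) (finSumFinEquiv.symm t))) =
      (Matrix.fromBlocks (Matrix.diagonal fun c => M (k c) (k c))
        (Matrix.of fun c (_ : Fin 1) => M (k c) j) (Matrix.of fun (_ : Fin 1) c => M i (k c))
        (Matrix.of fun (_ _ : Fin 1) => M i j)).submatrix finSumFinEquiv.symm
          finSumFinEquiv.symm := by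
    ext s t
    rw [Matrix.submatrix_apply, Matrix.of_apply]
    rcases finSumFinEquiv.symm s with s | s <;> rcases finSumFinEquiv.symm t with t | t
    · by_cases hst : s = t
      · subst hst
        simp
      · simp [hst, hd _ _ hst]
    · rfl
    · rfl
    · rfl
  rw [h1, Matrix.det_submatrix_equiv_self] at h
  have hD : IsUnit (Matrix.diagonal fun c => M (k c) (k c)).det := by
    rw [Matrix.det_diagonal]
    exact isUnit_prod_iff.2 fun c _ => hu c
  let _ : Invertible (Matrix.diagonal fun c => M (k c) (k c)) :=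
    Matrix.invertibleOfIsUnitDet _ hD
  rw [Matrix.det_fromBlocks₁₁, hD.mul_right_eq_zero, Matrix.det_fin_one] at h
  have hinv : ⅟(Matrix.diagonal fun c => M (k c) (k c)) =
      Matrix.diagonal fun c => Ring.inverse (M (k c) (k c)) := by
    apply invOf_eq_right_inv
    rw [Matrix.diagonal_mul_diagonal, ← Matrix.diagonal_one]
    congr 1
    funext c
    exact Ring.mul_inverse_cancel _ (hu c)
  rw [hinv, Matrix.sub_apply, sub_eq_zero, Matrix.of_apply] at h
  rw [h, Matrix.mul_apply]
  refine Finset.sum_congr rfl fun c _ => ?_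
  rw [Matrix.mul_diagonal]
  rfl

/-- rank at most `r` for a family with an invertible diagonal block of order `r` -/
lemma minors_iff {r : ℕ} {R V : Type} [CommRing R] (x : V × V → R) (k : Fin r → V)
    (hd : ∀ c c', c ≠ c' → x (k c, k c') = 0) (hu : ∀ c, IsUnit (x (k c, k c))) :
    (∀ p : (Fin (r + 1) → V) × (Fin (r + 1) → V),
      (Matrix.of fun s t => x (p.1 s, p.2 t)).det = 0) ↔
      ∀ i j, x (i, j) = ∑ c, x (i, k c) * Ring.inverse (x (k c, k c)) * x (k c, j) := by
  constructor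
  · intro h i j
    exact det_border (fun i j => x (i, j)) k hd hu i j
      (h (fun s => Sum.elim k (fun _ : Fin 1 => i) (finSumFinEquiv.symm s),
        fun s => Sum.elim k (fun _ : Fin 1 => j) (finSumFinEquiv.symm s)))
  · intro h p
    have h1 : (Matrix.of fun s t => x (p.1 s, p.2 t)) =
        (Matrix.of fun s t => ∑ c, x (p.1 s, k c) * Ring.inverse (x (k c, k c)) *
          x (k c, p.2 t)) := by
      ext s t
      exact h _ _
    rw [h1]
    exact det_low _ _

/-! ### The positions for the classes (4) and (5) -/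

/-- the variables -/
abbrev VR (r : ℕ) (A B : Type) : Type := Fin r ⊕ (A ⊕ B)

/-- a diagonal block of order `r`, blocks `A × 3` and `3 × B`, and the pairs outside `E` -/
def posR {r : ℕ} {A B : Type} (E : Set (A × B)) : VR r A B → VR r A B → Prop
  | .inl c, .inl c' => c = c'
  | .inl c, .inr (.inr _) => c.1 < 3
  | .inr (.inl _), .inl c => c.1 < 3
  | .inr (.inl a), .inr (.inr b) => (a, b) ∉ E
  | _, _ => False

/-- the same as a set -/
def posS (r : ℕ) {A B : Type} (E : Set (A × B)) : Set (VR r A B × VR r A B) :=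
  {p | posR E p.1 p.2}

/-- sums over the first three indices -/
lemma sum_three {r : ℕ} (hr : 3 ≤ r) {R : Type} [CommRing R] (F : Fin r → R)
    (h : ∀ c : Fin r, ¬ c.1 < 3 → F c = 0) : ∑ c, F c = ∑ i : Fin 3, F (Fin.castLE hr i) := by
  symm
  refine Fintype.sum_of_injective (Fin.castLE hr) (Fin.castLE_injective hr) _ _ ?_
    fun _ => rfl
  intro c hc
  refine h c fun h3 => hc ⟨⟨c.1, h3⟩, ?_⟩
  ext
  rfl

/-- the family of a solution of the orthogonality relations -/
noncomputable def ofR {r : ℕ} {A B R : Type} [CommRing R] (y : OV 3 A B ⊕ Fin r → R) :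
    VR r A B × VR r A B → R
  | (.inl c, .inl c') => if c = c' then y (.inr c) else 0
  | (.inl c, .inr (.inr b)) => if h : c.1 < 3 then y (.inl (.inr (b, ⟨c.1, h⟩))) else 0
  | (.inr (.inl a), .inl c) =>
    if h : c.1 < 3 then y (.inl (.inl (a, ⟨c.1, h⟩))) * y (.inr c) else 0
  | (.inr (.inl a), .inr (.inr b)) => dt (fun i => y (.inl i)) a b
  | _ => 0

lemma dt_map {d : ℕ} {A B R R' : Type} [CommRing R] [CommRing R'] (φ : R →+* R')
    (x : OV d A B → R) (a : A) (b : B) : φ (dt x a b) = dt (fun i => φ (x i)) a b := by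
  unfold Helper45.RM.dt
  simp only [map_sum, map_mul]

lemma ofR_map {r : ℕ} {A B R R' : Type} [CommRing R] [CommRing R'] (φ : R →+* R')
    (y : OV 3 A B ⊕ Fin r → R) (p : VR r A B × VR r A B) :
    φ (ofR y p) = ofR (fun i => φ (y i)) p := by
  obtain ⟨c | a | b, c' | a' | b'⟩ := p
  · simp only [ofR]
    split_ifs <;> simp
  · exact map_zero φ
  · simp only [ofR]
    split_ifs <;> simp
  · simp only [ofR]
    split_ifs <;> simp
  · exact map_zero φ
  · exact dt_map φ (fun i => y (.inl i)) a b'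
  · exact map_zero φ
  · exact map_zero φ
  · exact map_zero φ

lemma ofR_zero {r : ℕ} {A B R : Type} [CommRing R] {E : Set (A × B)}
    {y : OV 3 A B ⊕ Fin r → R} (hy : ∀ e ∈ E, dt (fun i => y (.inl i)) e.1 e.2 = 0)
    (p : VR r A B × VR r A B) (hp : p ∉ posS r E) : ofR y p = 0 := by
  obtain ⟨c | a | b, c' | a' | b'⟩ := p
  · exact if_neg hp
  · rfl
  · exact dif_neg hp
  · exact dif_neg hp
  · rfl
  · exact hy (a, b') (by
      by_contra h
      exact hp h)
  · rfl
  · rfl
  · rfl

/-- the Schur equations -/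
lemma ofR_schur {r : ℕ} (hr : 3 ≤ r) {A B R : Type} [CommRing R]
    {y : OV 3 A B ⊕ Fin r → R} (hu : ∀ c, IsUnit (y (.inr c))) (i j : VR r A B) :
    ofR y (i, j) = ∑ c, ofR y (i, .inl c) * Ring.inverse (ofR y (.inl c, .inl c)) *
      ofR y (.inl c, j) := by
  have hi : ∀ c, ofR y (.inl c, .inl c) = y (.inr c) := fun c => if_pos rfl
  simp only [hi]
  rcases i with c | a | b
  · rw [Finset.sum_eq_single c]
    · rw [hi, Ring.mul_inverse_cancel _ (hu c), one_mul]
    · intro c' _ hc'
      have h0 : ofR y ((.inl c, .inl c') : VR r A B × VR r A B) = 0 := if_neg (Ne.symm hc')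
      rw [h0, zero_mul, zero_mul]
    · intro h
      exact absurd (Finset.mem_univ c) h
  · have ha : ∀ c, ofR y ((.inr (.inl a), .inl c) : VR r A B × VR r A B) *
        Ring.inverse (y (.inr c)) = if h : c.1 < 3 then y (.inl (.inl (a, ⟨c.1, h⟩))) else 0 := by
      intro c
      simp only [ofR]
      split_ifs
      · rw [mul_assoc, Ring.mul_inverse_cancel _ (hu c), mul_one]
      · rw [zero_mul]
    simp only [ha]
    rcases j with c' | a' | b'
    · rw [Finset.sum_eq_single c']
      · rw [hi]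
        simp only [ofR]
        split_ifs
        · rfl
        · rw [zero_mul]
      · intro c _ hc
        have h0 : ofR y ((.inl c, .inl c') : VR r A B × VR r A B) = 0 := if_neg hc
        rw [h0, mul_zero]
      · intro h
        exact absurd (Finset.mem_univ c') h
    · simp only [ofR, mul_zero, Finset.sum_const_zero]
    · rw [sum_three hr]
      · simp only [ofR, Helper45.RM.dt]
        refine Finset.sum_congr rfl fun i _ => ?_
        have h3 : (Fin.castLE hr i).1 < 3 := i.2
        rw [dif_pos h3, dif_pos h3]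
        rfl
      · intro c hc
        rw [dif_neg hc, zero_mul]
  · rcases j with c' | a' | b' <;> simp [ofR]

/-- the solution of the orthogonality relations of a family -/
noncomputable def toR {r : ℕ} (hr : 3 ≤ r) {A B R : Type} [CommRing R]
    (x : VR r A B × VR r A B → R) : OV 3 A B ⊕ Fin r → R
  | .inl (.inl (a, i)) => x (.inr (.inl a), .inl (Fin.castLE hr i)) *
      Ring.inverse (x (.inl (Fin.castLE hr i), .inl (Fin.castLE hr i)))
  | .inl (.inr (b, i)) => x (.inl (Fin.castLE hr i), .inr (.inr b))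
  | .inr c => x (.inl c, .inl c)

lemma toR_dt {r : ℕ} (hr : 3 ≤ r) {A B R : Type} [CommRing R] {E : Set (A × B)}
    {x : VR r A B × VR r A B → R} (hx : ∀ p, p ∉ posS r E → x p = 0)
    (hs : ∀ i j, x (i, j) = ∑ c, x (i, .inl c) * Ring.inverse (x (.inl c, .inl c)) *
      x (.inl c, j)) (a : A) (b : B) :
    dt (fun i => toR hr x (.inl i)) a b = x (.inr (.inl a), .inr (.inr b)) := by
  rw [hs, sum_three hr]
  · rfl
  · intro c hc
    rw [hx (.inr (.inl a), .inl c) hc, zero_mul, zero_mul]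

lemma ofR_toR {r : ℕ} (hr : 3 ≤ r) {A B R : Type} [CommRing R] {E : Set (A × B)}
    {x : VR r A B × VR r A B → R} (hx : ∀ p, p ∉ posS r E → x p = 0)
    (hu : ∀ c, IsUnit (x (.inl c, .inl c)))
    (hs : ∀ i j, x (i, j) = ∑ c, x (i, .inl c) * Ring.inverse (x (.inl c, .inl c)) *
      x (.inl c, j)) : ofR (toR hr x) = x := by
  funext p
  obtain ⟨c | a | b, c' | a' | b'⟩ := p
  · show (if c = c' then x (.inl c, .inl c) else 0) = _
    split_ifs with h
    · rw [h]
    · exact (hx (.inl c, .inl c') h).symm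
  · exact (hx (.inl c, .inr (.inl a')) fun h => h).symm
  · show (if h : c.1 < 3 then x (.inl (Fin.castLE hr ⟨c.1, h⟩), .inr (.inr b')) else 0) = _
    split_ifs with h
    · rfl
    · exact (hx (.inl c, .inr (.inr b')) h).symm
  · show (if h : c'.1 < 3 then (x (.inr (.inl a), .inl (Fin.castLE hr ⟨c'.1, h⟩)) *
      Ring.inverse (x (.inl (Fin.castLE hr ⟨c'.1, h⟩), .inl (Fin.castLE hr ⟨c'.1, h⟩)))) *
      x (.inl c', .inl c') else 0) = _
    split_ifs with h
    · show x (.inr (.inl a), .inl c') * Ring.inverse (x (.inl c', .inl c')) *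
        x (.inl c', .inl c') = _
      rw [mul_assoc, Ring.inverse_mul_cancel _ (hu c'), mul_one]
    · exact (hx (.inr (.inl a), .inl c') h).symm
  · exact (hx (.inr (.inl a), .inr (.inl a')) fun h => h).symm
  · exact toR_dt hr hx hs a b'
  · exact (hx (.inr (.inr b), .inl c') fun h => h).symm
  · exact (hx (.inr (.inr b), .inr (.inl a')) fun h => h).symm
  · exact (hx (.inr (.inr b), .inr (.inr b')) fun h => h).symm

lemma toR_ofR {r : ℕ} (hr : 3 ≤ r) {A B R : Type} [CommRing R]
    {y : OV 3 A B ⊕ Fin r → R} (hu : ∀ c, IsUnit (y (.inr c))) : toR hr (ofR y) = y := by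
  funext p
  rcases p with (⟨a, i⟩ | ⟨b, i⟩) | c
  · show (if h : (Fin.castLE hr i).1 < 3 then y (.inl (.inl (a, ⟨(Fin.castLE hr i).1, h⟩))) *
      y (.inr (Fin.castLE hr i)) else 0) * Ring.inverse (if Fin.castLE hr i = Fin.castLE hr i then
        y (.inr (Fin.castLE hr i)) else 0) = _
    have h3 : (Fin.castLE hr i).1 < 3 := i.2
    rw [dif_pos h3, if_pos rfl, mul_assoc, Ring.mul_inverse_cancel _ (hu _), mul_one]
    rfl
  · show (if h : (Fin.castLE hr i).1 < 3 then y (.inl (.inr (b, ⟨(Fin.castLE hr i).1, h⟩)))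
      else 0) = _
    have h3 : (Fin.castLE hr i).1 < 3 := i.2
    rw [dif_pos h3]
    rfl
  · exact if_pos rfl

/-- **bounded rank**: the class (4) contains the orthogonality relations -/
theorem _root_.Pool.Agent.PZ.ohyp_of_rk (hG : RG G) (r : ℕ) (hr : 3 ≤ r)
    (h : ∀ (V : Type) [Fintype V] (S : Set (V × V)), GS G (rkS r S)) : OHyp G 3 := by
  classical
  intro A B _ _ E
  obtain ⟨_⟩ := nonempty_fintype A
  obtain ⟨_⟩ := nonempty_fintype B
  have h1 := go_del' hG (p := 1) (Set.range fun p : (Fin (r + 1) → VR r A B) ×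
    (Fin (r + 1) → VR r A B) => (Matrix.of fun i j => X (p.1 i, p.2 j)).det)
    (Finset.univ.image fun c : Fin r => ((Sum.inl c, Sum.inl c) : VR r A B × VR r A B))
    (posS r E) fun T _ => (hG.gl_one _).2 (h (VR r A B) T)
  rw [← hG.gl_one, ← go_times hG (τ := Fin r)]
  have hl : ∀ (R : Type) [CommRing R] (x : VR r A B × VR r A B → R),
      Lc (zS (posS r E) ∪ Set.range fun p : (Fin (r + 1) → VR r A B) ×
        (Fin (r + 1) → VR r A B) => (Matrix.of fun i j => X (p.1 i, p.2 j)).det)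
        (1 * ∏ e ∈ Finset.univ.image fun c : Fin r =>
          ((Sum.inl c, Sum.inl c) : VR r A B × VR r A B), X e) x ↔
        (∀ p, p ∉ posS r E → x p = 0) ∧ (∀ c, IsUnit (x (.inl c, .inl c))) ∧
          ∀ i j, x (i, j) = ∑ c, x (i, .inl c) * Ring.inverse (x (.inl c, .inl c)) *
            x (.inl c, j) := by
    intro R _ x
    have h2 : (∀ f ∈ Set.range fun p : (Fin (r + 1) → VR r A B) ×
        (Fin (r + 1) → VR r A B) => (Matrix.of fun i j =>
          (X (p.1 i, p.2 j) : MvPolynomial (VR r A B × VR r A B) ℤ)).det, ev x f = 0) ↔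
        ∀ p : (Fin (r + 1) → VR r A B) × (Fin (r + 1) → VR r A B),
          (Matrix.of fun s t => x (p.1 s, p.2 t)).det = 0 := by
      simp only [Set.forall_mem_range, ev_det, Matrix.of_apply, ev_X]
    have h3 : (∏ e ∈ Finset.univ.image fun c : Fin r =>
          ((Sum.inl c, Sum.inl c) : VR r A B × VR r A B), X e :
          MvPolynomial (VR r A B × VR r A B) ℤ) = ∏ c : Fin r, X (Sum.inl c, Sum.inl c) := by
      rw [Finset.prod_image]
      intro c _ c' _ hc
      exact Sum.inl_injective (congrArg Prod.fst hc)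
    unfold Lc
    rw [pt_union, pt_zs, one_mul, h3, map_prod]
    simp only [ev_X, isUnit_prod_iff, Finset.mem_univ, true_imp_iff]
    constructor
    · rintro ⟨⟨h4, h5⟩, h6⟩
      exact ⟨h4, h6, (minors_iff x Sum.inl (fun c c' hc => h4 _ hc) h6).1 (h2.1 h5)⟩
    · rintro ⟨h4, h6, h5⟩
      exact ⟨⟨h4, h2.2 ((minors_iff x Sum.inl (fun c c' hc => h4 _ hc) h6).2 h5)⟩, h6⟩
  refine (hG.gl_iso (fun R _ y => ofR y) (fun R _ x => toR hr x) ?_ ?_ ?_ ?_ ?_ ?_).2 h1
  · intro R R' _ _ φ y _ p
    exact ofR_map φ y p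
  · intro R R' _ _ φ x hx p
    rw [hl] at hx
    rcases p with (⟨a, i⟩ | ⟨b, i⟩) | c
    · show φ (x _ * Ring.inverse (x _)) = φ (x _) * Ring.inverse (φ (x _))
      rw [map_mul, map_inv_of_unit φ (hx.2.1 _)]
    · rfl
    · rfl
  · intro R _ y hy
    rw [lc_times] at hy
    rw [hl]
    have hy1 := pt_ors.1 hy.1.1
    refine ⟨ofR_zero hy1, ?_, ofR_schur hr hy.2⟩
    intro c
    show IsUnit (if c = c then y (.inr c) else 0)
    rw [if_pos rfl]
    exact hy.2 c
  · intro R _ x hx
    rw [hl] at hx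
    rw [lc_times]
    refine ⟨⟨pt_ors.2 fun e he => ?_, by rw [map_one]; exact isUnit_one⟩, hx.2.1⟩
    rw [toR_dt hr hx.1 hx.2.2]
    exact hx.1 _ fun h => h he
  · intro R _ y hy
    rw [lc_times] at hy
    exact toR_ofR hr hy.2
  · intro R _ x hx
    rw [hl] at hx
    exact ofR_toR hr hx.1 hx.2.1 hx.2.2

/-! ### Idempotents -/

/-- idempotents with zeros outside the positions, the diagonal block invertible -/
lemma idem_iff {A B R : Type} [Fintype A] [Fintype B] [CommRing R] {E : Set (A × B)}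
    {x : VR 3 A B × VR 3 A B → R} (hx : ∀ p, p ∉ posS 3 E → x p = 0) :
    ((∀ p : VR 3 A B × VR 3 A B, ∑ k, x (p.1, k) * x (k, p.2) - x p = 0) ∧
      ∀ c, IsUnit (x (.inl c, .inl c))) ↔
      (∀ c, x (.inl c, .inl c) = 1) ∧ ∀ a b, x (.inr (.inl a), .inr (.inr b)) =
        ∑ c, x (.inr (.inl a), .inl c) * x (.inl c, .inr (.inr b)) := by
  have h0 : ∀ c c' : Fin 3, c ≠ c' → x (.inl c, .inl c') = 0 := fun c c' h => hx _ h
  have h1 : ∀ (c : Fin 3) (a : A), x (.inl c, .inr (.inl a)) = 0 := fun c a => hx _ fun h => h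
  have h2 : ∀ (a a' : A), x (.inr (.inl a), .inr (.inl a')) = 0 := fun a a' => hx _ fun h => h
  have h3 : ∀ (b : B) j, x (.inr (.inr b), j) = 0 := by
    rintro b (c | a | b') <;> exact hx _ fun h => h
  have hsum : ∀ i j, ∑ k, x (i, k) * x (k, j) = ∑ c : Fin 3, x (i, .inl c) * x (.inl c, j) +
      ∑ a : A, x (i, .inr (.inl a)) * x (.inr (.inl a), j) := by
    intro i j
    rw [Fintype.sum_sum_type, Fintype.sum_sum_type]
    simp only [h3, mul_zero, Finset.sum_const_zero, add_zero]
  constructor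
  · rintro ⟨h4, h5⟩
    have h6 : ∀ c, x (.inl c, .inl c) = 1 := by
      intro c
      have h7 := h4 (.inl c, .inl c)
      rw [hsum, Finset.sum_eq_single c (fun c' _ hc' => by rw [h0 c c' (Ne.symm hc'), zero_mul])
        (fun h => absurd (Finset.mem_univ c) h)] at h7
      simp only [h1, zero_mul, Finset.sum_const_zero, add_zero] at h7
      refine (h5 c).mul_left_cancel ?_
      linear_combination h7
    refine ⟨h6, fun a b => ?_⟩
    have h7 := h4 (.inr (.inl a), .inr (.inr b))
    rw [hsum] at h7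
    simp only [h2, zero_mul, Finset.sum_const_zero, add_zero] at h7
    exact (sub_eq_zero.1 h7).symm
  · rintro ⟨h4, h5⟩
    refine ⟨?_, fun c => by rw [h4 c]; exact isUnit_one⟩
    rintro ⟨i, j⟩
    rw [hsum, sub_eq_zero]
    rcases i with c | a | b
    · rw [Finset.sum_eq_single c (fun c' _ hc' => by rw [h0 c c' (Ne.symm hc'), zero_mul])
        (fun h => absurd (Finset.mem_univ c) h), h4]
      simp only [h1, zero_mul, Finset.sum_const_zero, add_zero, one_mul]
    · simp only [h2, zero_mul, Finset.sum_const_zero, add_zero]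
      rcases j with c | a' | b
      · rw [Finset.sum_eq_single c (fun c' _ hc' => by rw [h0 c' c hc', mul_zero])
          (fun h => absurd (Finset.mem_univ c) h), h4, mul_one]
      · simp only [h1, h2, mul_zero, Finset.sum_const_zero]
      · exact (h5 a b).symm
    · simp only [h3, zero_mul, Finset.sum_const_zero, add_zero]

/-- the Schur equations for idempotents -/
lemma idem_schur {A B R : Type} [CommRing R] {E : Set (A × B)}
    {x : VR 3 A B × VR 3 A B → R} (hx : ∀ p, p ∉ posS 3 E → x p = 0)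
    (h4 : ∀ c, x (.inl c, .inl c) = 1) (h5 : ∀ a b, x (.inr (.inl a), .inr (.inr b)) =
      ∑ c, x (.inr (.inl a), .inl c) * x (.inl c, .inr (.inr b))) (i j : VR 3 A B) :
    x (i, j) = ∑ c, x (i, .inl c) * Ring.inverse (x (.inl c, .inl c)) * x (.inl c, j) := by
  have h0 : ∀ c c' : Fin 3, c ≠ c' → x (.inl c, .inl c') = 0 := fun c c' h => hx _ h
  have h1 : ∀ (c : Fin 3) (a : A), x (.inl c, .inr (.inl a)) = 0 := fun c a => hx _ fun h => h
  have h2 : ∀ (a a' : A), x (.inr (.inl a), .inr (.inl a')) = 0 := fun a a' => hx _ fun h => h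
  have h3 : ∀ (b : B) j, x (.inr (.inr b), j) = 0 := by
    rintro b (c | a | b') <;> exact hx _ fun h => h
  simp only [h4, Ring.inverse_one, mul_one]
  rcases i with c | a | b
  · rw [Finset.sum_eq_single c (fun c' _ hc' => by rw [h0 c c' (Ne.symm hc'), zero_mul])
      (fun h => absurd (Finset.mem_univ c) h), h4, one_mul]
  · rcases j with c | a' | b
    · rw [Finset.sum_eq_single c (fun c' _ hc' => by rw [h0 c' c hc', mul_zero])
        (fun h => absurd (Finset.mem_univ c) h), h4, mul_one]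
    · simp only [h1, h2, mul_zero, Finset.sum_const_zero]
    · exact h5 a b
  · simp only [h3, zero_mul, Finset.sum_const_zero]

/-- **idempotents**: the class (5) contains the orthogonality relations -/
theorem _root_.Pool.Agent.PZ.ohyp_of_id (hG : RG G)
    (h : ∀ (V : Type) [Fintype V] (S : Set (V × V)), GS G (idS S)) : OHyp G 3 := by
  classical
  intro A B _ _ E
  obtain ⟨_⟩ := nonempty_fintype A
  obtain ⟨_⟩ := nonempty_fintype B
  have h1 := go_del' hG (p := 1) (Set.range fun p : VR 3 A B × VR 3 A B =>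
    ∑ k, X (p.1, k) * X (k, p.2) - X p)
    (Finset.univ.image fun c : Fin 3 => ((Sum.inl c, Sum.inl c) : VR 3 A B × VR 3 A B))
    (posS 3 E) fun T _ => (hG.gl_one _).2 (h (VR 3 A B) T)
  rw [← hG.gl_one]
  have hl : ∀ (R : Type) [CommRing R] (x : VR 3 A B × VR 3 A B → R),
      Lc (zS (posS 3 E) ∪ Set.range fun p : VR 3 A B × VR 3 A B =>
        ∑ k, X (p.1, k) * X (k, p.2) - X p)
        (1 * ∏ e ∈ Finset.univ.image fun c : Fin 3 =>
          ((Sum.inl c, Sum.inl c) : VR 3 A B × VR 3 A B), X e) x ↔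
        (∀ p, p ∉ posS 3 E → x p = 0) ∧ (∀ c, x (.inl c, .inl c) = 1) ∧
        ∀ a b, x (.inr (.inl a), .inr (.inr b)) =
          ∑ c, x (.inr (.inl a), .inl c) * x (.inl c, .inr (.inr b)) := by
    intro R _ x
    have h2 : (∀ f ∈ Set.range fun p : VR 3 A B × VR 3 A B =>
        (∑ k, X (p.1, k) * X (k, p.2) - X p : MvPolynomial (VR 3 A B × VR 3 A B) ℤ),
          ev x f = 0) ↔
        ∀ p : VR 3 A B × VR 3 A B, ∑ k, x (p.1, k) * x (k, p.2) - x p = 0 := by
      simp only [Set.forall_mem_range, map_sub, map_sum, map_mul, ev_X]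
    have h3 : (∏ e ∈ Finset.univ.image fun c : Fin 3 =>
          ((Sum.inl c, Sum.inl c) : VR 3 A B × VR 3 A B), X e :
          MvPolynomial (VR 3 A B × VR 3 A B) ℤ) = ∏ c : Fin 3, X (Sum.inl c, Sum.inl c) := by
      rw [Finset.prod_image]
      intro c _ c' _ hc
      exact Sum.inl_injective (congrArg Prod.fst hc)
    unfold Lc
    rw [pt_union, pt_zs, one_mul, h3, map_prod, and_assoc]
    simp only [ev_X, isUnit_prod_iff, Finset.mem_univ, true_imp_iff]
    refine and_congr_right fun h4 => ?_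
    rw [← idem_iff h4]
    exact and_congr_left fun _ => h2
  have hone : ∀ {R : Type} [CommRing R] (y : OV 3 A B → R) (c : Fin 3),
      Sum.elim y (fun _ : Fin 3 => (1 : R)) (Sum.inr c) = 1 := fun y c => rfl
  refine (hG.gl_iso (fun R _ y => ofR (r := 3) (Sum.elim y fun _ => 1))
    (fun R _ x => fun i => toR (le_refl 3) x (.inl i)) ?_ ?_ ?_ ?_ ?_ ?_).2 h1
  · intro R R' _ _ φ y _ p
    rw [ofR_map]
    congr 1
    funext i
    rcases i with i | i
    · rfl
    · exact map_one φ
  · intro R R' _ _ φ x hx i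
    rw [hl] at hx
    rcases i with ⟨a, i⟩ | ⟨b, i⟩
    · show φ (x _ * Ring.inverse (x _)) = φ (x _) * Ring.inverse (φ (x _))
      rw [map_mul, map_inv_of_unit φ (by rw [hx.2.1]; exact isUnit_one)]
    · rfl
  · intro R _ y hy
    have hy1 := pt_ors.1 hy.1
    rw [hl]
    refine ⟨ofR_zero hy1, fun c => if_pos rfl, fun a b => ?_⟩
    show Helper45.RM.dt y a b = _
    unfold Helper45.RM.dt
    refine Finset.sum_congr rfl fun c _ => ?_
    simp only [ofR]
    rw [dif_pos c.2, dif_pos c.2]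
    simp
  · intro R _ x hx
    rw [hl] at hx
    refine ⟨pt_ors.2 fun e he => ?_, by rw [map_one]; exact isUnit_one⟩
    rw [← hx.1 (.inr (.inl e.1), .inr (.inr e.2)) fun h => h he, hx.2.2]
    unfold Helper45.RM.dt
    refine Finset.sum_congr rfl fun c _ => ?_
    show (x (.inr (.inl e.1), .inl c) * Ring.inverse (x (.inl c, .inl c))) * _ = _
    rw [hx.2.1, Ring.inverse_one, mul_one]
    rfl
  · intro R _ y _
    have h5 := toR_ofR (le_refl 3) (y := Sum.elim y fun _ : Fin 3 => (1 : R))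
      fun c => isUnit_one
    funext i
    exact congrFun h5 (.inl i)
  · intro R _ x hx
    rw [hl] at hx
    have h5 : (Sum.elim (fun i => toR (le_refl 3) x (.inl i)) fun _ : Fin 3 => (1 : R)) =
        toR (le_refl 3) x := by
      funext i
      rcases i with i | c
      · rfl
      · exact (hx.2.1 c).symm
    have hu : ∀ c, IsUnit (x (.inl c, .inl c)) := fun c => by rw [hx.2.1]; exact isUnit_one
    show ofR (Sum.elim (fun i => toR (le_refl 3) x (.inl i)) fun _ : Fin 3 => (1 : R)) = x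
    rw [h5]
    exact ofR_toR (le_refl 3) hx.1 hu (idem_schur hx.1 hx.2.1 hx.2.2)

/-! ### Square zero -/

/-- bottom elements `a`, middle elements `b`, three top elements -/
abbrev VQ (A B : Type) : Type := A ⊕ (B ⊕ Fin 3)

/-- the order -/
def ltQ {A B : Type} (P : Set (A × B)) : VQ A B → VQ A B → Prop
  | .inl a, .inr (.inl b) => (a, b) ∈ P
  | .inl _, .inr (.inr _) => True
  | .inr (.inl _), .inr (.inr _) => True
  | _, _ => False

/-- the partial order on `VQ A B` -/
@[reducible] def ordQ {A B : Type} (P : Set (A × B)) : PartialOrder (VQ A B) where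
  le x y := x = y ∨ ltQ P x y
  lt x y := ltQ P x y
  le_refl x := Or.inl rfl
  le_trans x y z := by
    rintro (rfl | h1) (rfl | h2)
    · exact Or.inl rfl
    · exact Or.inr h2
    · exact Or.inr h1
    · right
      rcases x with a | b | c <;> rcases y with a' | b' | c' <;>
        rcases z with a'' | b'' | c'' <;> first | exact h1.elim | exact h2.elim | trivial
  le_antisymm x y := by
    rintro (rfl | h1) (h2 | h2)
    · rfl
    · rfl
    · exact h2.symm
    · exfalso
      rcases x with a | b | c <;> rcases y with a' | b' | c' <;>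
        first | exact h1.elim | exact h2.elim
  lt_iff_le_not_ge x y := by
    constructor
    · intro h1
      refine ⟨Or.inr h1, ?_⟩
      rintro (h3 | h2)
      · rw [h3] at h1
        rcases x with a | b | c <;> exact h1.elim
      · rcases x with a | b | c <;> rcases y with a' | b' | c' <;>
          first | exact h1.elim | exact h2.elim
    · rintro ⟨rfl | h1, h2⟩
      · exact absurd (Or.inl rfl) h2
      · exact h1

lemma short_ordQ {A B : Type} (P : Set (A × B)) : @Short (VQ A B) (ordQ P) := by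
  intro x y z w h1 h2 h3
  rcases x with a | b | c <;> rcases y with a' | b' | c' <;> rcases z with a'' | b'' | c'' <;>
    first | exact h1.elim | exact h2.elim | exact h3.elim

/-- the positions -/
def ltsQ {A B : Type} (P : Set (A × B)) : Set (VQ A B × VQ A B) := {e | ltQ P e.1 e.2}

lemma lts_eq {A B : Type} (P : Set (A × B)) : @lts (VQ A B) (ordQ P) = ltsQ P := rfl

/-- the matrix of a pair `C`, `u` -/
noncomputable def ofQ {A B R : Type} [CommRing R]
    (y : MV A B 0 3 ⊕ (A × Fin 3) → R) : VQ A B × VQ A B → R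
  | (.inl a, .inr (.inl b)) => y (.inl (.inl (a, b)))
  | (.inl a, .inr (.inr c)) => y (.inr (a, c))
  | (.inr (.inl b), .inr (.inr c)) => y (.inl (.inr (.inr (b, c))))
  | _ => 0

/-- the pair `C`, `u` of a matrix -/
noncomputable def toQ {A B R : Type} (x : VQ A B × VQ A B → R) : MV A B 0 3 ⊕ (A × Fin 3) → R
  | .inl (.inl (a, b)) => x (.inl a, .inr (.inl b))
  | .inl (.inr (.inl (.inl p))) => p.1.elim0
  | .inl (.inr (.inl (.inr p))) => p.2.elim0
  | .inl (.inr (.inr (b, c))) => x (.inr (.inl b), .inr (.inr c))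
  | .inr (a, c) => x (.inl a, .inr (.inr c))

lemma pt_sq {A B R : Type} [Fintype A] [Fintype B] [CommRing R] {P : Set (A × B)}
    {x : VQ A B × VQ A B → R} : Pt (sqS (ltsQ P)) x ↔
      (∀ i j, ¬ ltQ P i j → x (i, j) = 0) ∧
        ∀ a c, ∑ b, x (.inl a, .inr (.inl b)) * x (.inr (.inl b), .inr (.inr c)) = 0 := by
  have h1 : Pt (sqS (ltsQ P)) x ↔ (∀ e : VQ A B × VQ A B, e ∉ ltsQ P →
      x e = 0) ∧ ∀ p : VQ A B × VQ A B, ∑ k, x (p.1, k) * x (k, p.2) = 0 := by
    unfold sqS
    rw [pt_union, pt_zs]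
    refine and_congr_right fun _ => ?_
    unfold Pt
    simp only [Set.forall_mem_range, map_sum, map_mul, ev_X]
  rw [h1]
  have h2 : (∀ e : VQ A B × VQ A B, e ∉ ltsQ P → x e = 0) ↔
      ∀ i j, ¬ ltQ P i j → x (i, j) = 0 :=
    ⟨fun h i j hij => h (i, j) hij, fun h e he => h e.1 e.2 he⟩
  rw [h2]
  refine and_congr_right fun h3 => ?_
  have hsum : ∀ i j : VQ A B, ∑ k : VQ A B, x (i, k) * x (k, j) =
      ∑ a : A, x (i, .inl a) * x (.inl a, j) +
        (∑ b : B, x (i, .inr (.inl b)) * x (.inr (.inl b), j) +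
          ∑ c : Fin 3, x (i, .inr (.inr c)) * x (.inr (.inr c), j)) := by
    intro i j
    exact (Fintype.sum_sum_type _).trans (congrArg _ (Fintype.sum_sum_type _))
  have h4 : ∀ i a, x (i, .inl a) = 0 := by
    rintro (a' | b | c) a <;> exact h3 _ _ fun h => h
  have h5 : ∀ c j, x (.inr (.inr c), j) = 0 := by
    rintro c (a' | b | c') <;> exact h3 _ _ fun h => h
  have h6 : ∀ b b', x (.inr (.inl b), .inr (.inl b')) = 0 := fun b b' => h3 _ _ fun h => h
  constructor
  · intro h a c
    have h7 := h (.inl a, .inr (.inr c))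
    rw [hsum] at h7
    simpa only [h4, h5, zero_mul, mul_zero, Finset.sum_const_zero, zero_add, add_zero] using h7
  · rintro h ⟨i, j⟩
    rw [hsum]
    simp only [h4, h5, zero_mul, mul_zero, Finset.sum_const_zero, zero_add, add_zero]
    rcases i with a | b | c
    · rcases j with a' | b' | c'
      · simp only [h4, mul_zero, Finset.sum_const_zero]
      · simp only [h6, mul_zero, Finset.sum_const_zero]
      · exact h a c'
    · simp only [h6, zero_mul, Finset.sum_const_zero]
    · simp only [h5, zero_mul, Finset.sum_const_zero]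

/-- **square zero**: the class (6) contains the products of a matrix with prescribed zeros -/
theorem _root_.Pool.Agent.PZ.ms_of_sq (hG : RG G)
    (h : ∀ (V : Type) [Fintype V] [PartialOrder V], Short V → GS G (sqS (lts V)))
    {A B : Type} [Fintype A] [Fintype B] (P : Set (A × B)) : GS G (mS P 0 3) := by
  classical
  rw [← hG.gs_emb (Sum.inl : MV A B 0 3 → MV A B 0 3 ⊕ (A × Fin 3)) Sum.inl_injective]
  have hy : ∀ (R : Type) [CommRing R] (y : MV A B 0 3 ⊕ (A × Fin 3) → R),
      Pt (rename (Sum.inl : MV A B 0 3 → MV A B 0 3 ⊕ (A × Fin 3)) '' mS P 0 3) y ↔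
        (∀ e, e ∉ P → y (.inl (.inl e)) = 0) ∧
        ∀ a l, ∑ b, y (.inl (.inl (a, b))) * y (.inl (.inr (.inr (b, l)))) = 0 := by
    intro R _ y
    have h1 : Pt (rename (Sum.inl : MV A B 0 3 → MV A B 0 3 ⊕ (A × Fin 3)) '' mS P 0 3) y ↔
        Pt (mS P 0 3) fun i => y (.inl i) := by
      simp only [Pt, Set.forall_mem_image, ev_rename]
    rw [h1, pt_mS]
    constructor
    · rintro ⟨h2, _, h3⟩
      exact ⟨h2, h3⟩
    · rintro ⟨h2, h3⟩
      exact ⟨h2, fun i => i.elim0, h3⟩
  refine (hG.gs_iso (fun R _ y => ofQ y) (fun R _ x => toQ x) ?_ ?_ ?_ ?_ ?_ ?_).2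
    (@h (VQ A B) _ (ordQ P) (short_ordQ P))
  · intro R R' _ _ φ y _ p
    obtain ⟨a | b | c, a' | b' | c'⟩ := p <;> first | rfl | exact map_zero φ
  · intro R R' _ _ φ x _ i
    rcases i with (⟨a, b⟩ | (p | p) | ⟨b, c⟩) | ⟨a, c⟩
    · rfl
    · exact p.1.elim0
    · exact p.2.elim0
    · rfl
    · rfl
  · intro R _ y h1
    rw [hy] at h1
    rw [lts_eq, pt_sq]
    refine ⟨?_, fun a c => h1.2 a c⟩
    rintro (a | b | c) (a' | b' | c') hij
    · rfl
    · exact h1.1 (a, b') hij
    · exact absurd trivial hij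
    · rfl
    · rfl
    · exact absurd trivial hij
    · rfl
    · rfl
    · rfl
  · intro R _ x h1
    rw [lts_eq, pt_sq] at h1
    rw [hy]
    exact ⟨fun e he => h1.1 (.inl e.1) (.inr (.inl e.2)) he, fun a c => h1.2 a c⟩
  · intro R _ y _
    funext i
    rcases i with (⟨a, b⟩ | (p | p) | ⟨b, c⟩) | ⟨a, c⟩
    · rfl
    · exact p.1.elim0
    · exact p.2.elim0
    · rfl
    · rfl
  · intro R _ x h1
    rw [lts_eq, pt_sq] at h1
    funext p
    obtain ⟨a | b | c, a' | b' | c'⟩ := p
    · exact (h1.1 (.inl a) (.inl a') fun h => h).symm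
    · rfl
    · rfl
    · exact (h1.1 (.inr (.inl b)) (.inl a') fun h => h).symm
    · exact (h1.1 (.inr (.inl b)) (.inr (.inl b')) fun h => h).symm
    · rfl
    · exact (h1.1 (.inr (.inr c)) (.inl a') fun h => h).symm
    · exact (h1.1 (.inr (.inr c)) (.inr (.inl b')) fun h => h).symm
    · exact (h1.1 (.inr (.inr c)) (.inr (.inr c')) fun h => h).symm


/-! ### Symmetric and alternating matrices -/

section
variable {V : Type} [Fintype V] [DecidableEq V]

omit [Fintype V] [DecidableEq V] in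
lemma bg_adj {S : Set (V × V)} (x y : V ⊕ V) : (bg S).Adj x y ↔
    (∃ i j, (i, j) ∈ S ∧ x = .inl i ∧ y = .inr j) ∨
      ∃ i j, (i, j) ∈ S ∧ y = .inl i ∧ x = .inr j := by
  show ((∃ e ∈ S, x = Sum.inl e.1 ∧ y = Sum.inr e.2) ∨
    ∃ e ∈ S, y = Sum.inl e.1 ∧ x = Sum.inr e.2) ↔ _
  simp only [Prod.exists]

omit [Fintype V] [DecidableEq V] in
lemma mem_ps {S : Set (V × V)} (p : (V ⊕ V) × (V ⊕ V)) : p ∈ ps (bg S) ↔
    (match p with
      | (.inl i, .inr j) => (i, j) ∈ S
      | (.inr j, .inl i) => (i, j) ∈ S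
      | _ => False) := by
  show (bg S).Adj p.1 p.2 ↔ _
  rw [bg_adj]
  obtain ⟨i | i, j | j⟩ := p <;> simp

omit [Fintype V] [DecidableEq V] in
/-- the degrees of the graph of `S` -/
lemma bg_deg {d : ℕ} {S : Set (V × V)} (hS : Sp d S) (v : V ⊕ V) :
    ((bg S).neighborSet v).ncard ≤ d := by
  rcases v with i | j
  · have h1 : (bg S).neighborSet (.inl i) = Sum.inr '' {j | (i, j) ∈ S} := by
      ext y
      rw [SimpleGraph.mem_neighborSet, bg_adj]
      rcases y with y | y <;> simp
    rw [h1, Set.ncard_image_of_injective _ Sum.inr_injective]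
    exact hS.1 i
  · have h1 : (bg S).neighborSet (.inr j) = Sum.inl '' {i | (i, j) ∈ S} := by
      ext y
      rw [SimpleGraph.mem_neighborSet, bg_adj]
      rcases y with y | y <;> simp
    rw [h1, Set.ncard_image_of_injective _ Sum.inl_injective]
    exact hS.2 j

/-- the block matrix with the blocks `X` and `ε Xᵀ` -/
def ofY {R : Type} [CommRing R] (ε : R) (x : V × V → R) : (V ⊕ V) × (V ⊕ V) → R
  | (.inl i, .inr j) => x (i, j)
  | (.inr j, .inl i) => ε * x (i, j)
  | _ => 0

/-- its determinant -/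
lemma det_ofY {R : Type} [CommRing R] {ε : R} (hε : IsUnit ε) (x : V × V → R) :
    IsUnit (mx (ofY ε x)).det ↔ IsUnit (mx x).det := by
  rw [← isUnit_det_sub (Equiv.refl (V ⊕ V)) (Equiv.sumComm V V)]
  have h1 : (mx (ofY ε x)).submatrix (Equiv.refl (V ⊕ V)) (Equiv.sumComm V V) =
      Matrix.fromBlocks (mx x) 0 0 (ε • (mx x).transpose) := by
    ext i j
    rcases i with i | i <;> rcases j with j | j <;> rfl
  rw [h1, Matrix.det_fromBlocks_zero₂₁, Matrix.det_smul, Matrix.det_transpose, IsUnit.mul_iff,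
    IsUnit.mul_iff]
  have h2 : IsUnit (ε ^ Fintype.card V) := hε.pow _
  tauto

omit [Fintype V] [DecidableEq V] in
/-- families with the symmetry `y (q, p) = ε y (p, q)` -/
lemma ofY_iff {R : Type} [CommRing R] {S : Set (V × V)} {ε : R} (hε : ε * ε = 1)
    {y : (V ⊕ V) × (V ⊕ V) → R} :
    ((∀ p, p ∉ ps (bg S) → y p = 0) ∧ ∀ p, y p.swap = ε * y p) ↔
      (∀ e, e ∉ S → y (.inl e.1, .inr e.2) = 0) ∧
        y = ofY ε fun e => y (.inl e.1, .inr e.2) := by
  constructor
  · rintro ⟨h1, h2⟩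
    refine ⟨fun e he => h1 _ fun h => he ((mem_ps _).1 h), ?_⟩
    funext p
    obtain ⟨i | i, j | j⟩ := p
    · exact h1 _ fun h => (mem_ps _).1 h
    · rfl
    · exact h2 (.inl j, .inr i)
    · exact h1 _ fun h => (mem_ps _).1 h
  · rintro ⟨h1, h2⟩
    constructor
    · intro p hp
      rw [mem_ps] at hp
      rw [h2]
      obtain ⟨i | i, j | j⟩ := p
      · rfl
      · exact h1 (i, j) hp
      · exact (congrArg (ε * ·) (h1 (j, i) hp)).trans (mul_zero ε)
      · rfl
    · intro p
      rw [h2]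
      obtain ⟨i | i, j | j⟩ := p
      · exact (mul_zero ε).symm
      · rfl
      · show _ = ε * (ε * _)
        rw [← mul_assoc, hε, one_mul]
        rfl
      · exact (mul_zero ε).symm

omit [Fintype V] [DecidableEq V] in
lemma ofY_map {R R' : Type} [CommRing R] [CommRing R'] (φ : R →+* R') (ε : ℤ) (x : V × V → R)
    (p : (V ⊕ V) × (V ⊕ V)) : φ (ofY (ε : R) x p) = ofY (ε : R') (fun e => φ (x e)) p := by
  obtain ⟨i | i, j | j⟩ := p
  · exact map_zero φ
  · rfl
  · show φ ((ε : R) * _) = _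
    rw [map_mul, map_intCast]
    rfl
  · exact map_zero φ

/-- from block matrices with `Y (q, p) = ε Y (p, q)` to arbitrary matrices -/
lemma ug_of_ep (hG : RG G) (h0 : GS G (∅ : Set (MvPolynomial Empty ℤ))) {S : Set (V × V)}
    (ε : ℤ) (hε : ε * ε = 1) (E : Set (MvPolynomial ((V ⊕ V) × (V ⊕ V)) ℤ))
    (hE : ∀ (R : Type) [CommRing R] (y : (V ⊕ V) × (V ⊕ V) → R),
      Pt (zS (ps (bg S)) ∪ E) y ↔
        (∀ p, p ∉ ps (bg S) → y p = 0) ∧ ∀ p, y p.swap = (ε : R) * y p)
    (h : GS G (insert (dP (V ⊕ V)) (zS (ps (bg S)) ∪ E))) : UG G S := by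
  have hε' : ∀ (R : Type) [CommRing R], (ε : R) * (ε : R) = 1 := by
    intro R _
    exact_mod_cast congrArg (Int.cast : ℤ → R) hε
  have hu : ∀ (R : Type) [CommRing R], IsUnit (ε : R) := fun R _ =>
    IsUnit.of_mul_eq_one _ (hε' R)
  have hi : ∀ (R : Type) [CommRing R] (y : (V ⊕ V) × (V ⊕ V) → R),
      Pt (zS (ps (bg S)) ∪ E) y ↔ (∀ e, e ∉ S → y (.inl e.1, .inr e.2) = 0) ∧
        y = ofY (ε : R) fun e => y (.inl e.1, .inr e.2) := fun R _ y =>
    (hE R y).trans (ofY_iff (hε' R))
  have h1 : GS G (zS (ps (bg S)) ∪ E) := by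
    refine (hG.gs_iso (fun R _ x => ofY (ε : R) x) (fun R _ y e => y (.inl e.1, .inr e.2))
      ?_ ?_ ?_ ?_ ?_ ?_).1 (gs_zs hG h0 S)
    · intro R R' _ _ φ x _ p
      exact ofY_map φ ε x p
    · intro R R' _ _ φ y _ e
      rfl
    · intro R _ x hx
      rw [pt_zs] at hx
      rw [hi]
      exact ⟨hx, rfl⟩
    · intro R _ y hy
      rw [hi] at hy
      rw [pt_zs]
      exact hy.1
    · intro R _ x _
      rfl
    · intro R _ y hy
      rw [hi] at hy
      exact hy.2.symm
  have h2 : GO G (zS (ps (bg S)) ∪ E) (dP (V ⊕ V)) := hG.gs_opn h1 h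
  refine (hG.gl_iso (fun R _ x => ofY (ε : R) x) (fun R _ y e => y (.inl e.1, .inr e.2))
    ?_ ?_ ?_ ?_ ?_ ?_).2 h2
  · intro R R' _ _ φ x _ p
    exact ofY_map φ ε x p
  · intro R R' _ _ φ y _ e
    rfl
  · intro R _ x hx
    rw [lc_u] at hx
    refine ⟨(hi R _).2 ⟨hx.1, rfl⟩, ?_⟩
    rw [ev_dP, det_ofY (hu R)]
    exact hx.2
  · intro R _ y hy
    have h3 := (hi R y).1 hy.1
    have h4 := hy.2
    rw [ev_dP, h3.2, det_ofY (hu R)] at h4
    rw [lc_u]
    exact ⟨h3.1, h4⟩
  · intro R _ x _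
    rfl
  · intro R _ y hy
    exact ((hi R y).1 hy.1).2.symm

end

/-- **symmetric matrices**: the class (2) contains the open schemes of the class (1) -/
theorem _root_.Pool.Agent.PZ.ug_of_sy (hG : RG G) (h0 : GS G (∅ : Set (MvPolynomial Empty ℤ))) (g : ℕ)
    (h : ∀ (V : Type) [Fintype V] [DecidableEq V] (Γ : SimpleGraph V),
      (∀ v, (Γ.neighborSet v).ncard ≤ 3) → (g : ℕ∞) ≤ Γ.egirth → GS G (syS (ps Γ)))
    (V : Type) [Fintype V] [DecidableEq V] (S : Set (V × V)) (hS : Sp 3 S)
    (hg : (g : ℕ∞) ≤ (bg S).egirth) : UG G S := by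
  refine ug_of_ep hG h0 1 (by norm_num)
    (Set.range fun p : (V ⊕ V) × (V ⊕ V) => X p - X p.swap) ?_ (h (V ⊕ V) (bg S) (bg_deg hS) hg)
  intro R _ y
  rw [pt_union, pt_zs]
  refine and_congr_right fun _ => ?_
  unfold Pt
  simp only [Set.forall_mem_range, map_sub, ev_X, Int.cast_one, one_mul, sub_eq_zero]
  exact ⟨fun h p => (h p).symm, fun h p => (h p).symm⟩

/-- **alternating matrices**: the class (3) contains the open schemes of the class (1) -/
theorem _root_.Pool.Agent.PZ.ug_of_al (hG : RG G) (h0 : GS G (∅ : Set (MvPolynomial Empty ℤ))) (g : ℕ)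
    (h : ∀ (V : Type) [Fintype V] [DecidableEq V] (Γ : SimpleGraph V),
      (∀ v, (Γ.neighborSet v).ncard ≤ 3) → (g : ℕ∞) ≤ Γ.egirth → GS G (alS (ps Γ)))
    (V : Type) [Fintype V] [DecidableEq V] (S : Set (V × V)) (hS : Sp 3 S)
    (hg : (g : ℕ∞) ≤ (bg S).egirth) : UG G S := by
  refine ug_of_ep hG h0 (-1) (by norm_num)
    (Set.range (fun p : (V ⊕ V) × (V ⊕ V) => X p + X p.swap) ∪
      Set.range fun i : V ⊕ V => X (i, i)) ?_ (h (V ⊕ V) (bg S) (bg_deg hS) hg)
  intro R _ y
  rw [pt_union, pt_union, pt_zs]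
  refine and_congr_right fun h1 => ?_
  unfold Pt
  simp only [Set.forall_mem_range, map_add, ev_X, Int.cast_neg, Int.cast_one, neg_mul, one_mul]
  constructor
  · rintro ⟨h2, _⟩ p
    exact eq_neg_of_add_eq_zero_right (h2 p)
  · intro h2
    refine ⟨fun p => by rw [h2, add_neg_cancel], fun i => h1 _ fun h3 => ?_⟩
    exact SimpleGraph.irrefl (bg S) h3

end Pool.Agent.PZ.Cl
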