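import Pool.Agent.PZ.Defs
import Pool.Agent.Helper45.RM.Main
import Pool.Agent.Helper45.RM.Min
import Pool.Agent.TM.Hyp2
import Pool.Agent.TM.Cup

/-!
# Matrices with prescribed zeros: basic lemmas
-/

set_option autoImplicit false

open MvPolynomial
open Pool.Agent.Helper81.CP Pool.Agent.Helper81.HG Pool.Agent.Helper45.RM

namespace Pool.Agent.PZ

variable {G : ∀ (R : Type) [CommRing R], Prop}

lemma pt_zs {A B : Type} {S : Set (A × B)} {R : Type} [CommRing R] {x : A × B → R} :
    Pt (zS S) x ↔ ∀ e, e ∉ S → x e = 0 := by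
  constructor
  · intro h e he
    have := h _ ⟨e, he, rfl⟩
    rwa [ev_X] at this
  · rintro h _ ⟨e, he, rfl⟩
    rw [ev_X]
    exact h e he

/-- the matrix of a family -/
def mx {A B R : Type} (x : A × B → R) : Matrix A B R := Matrix.of fun i j => x (i, j)

@[simp] lemma mx_apply {A B R : Type} (x : A × B → R) (i : A) (j : B) : mx x i j = x (i, j) := rfl

lemma mx_map {A B R R' : Type} [CommRing R] [CommRing R'] (φ : R →+* R') (x : A × B → R) :
    (mx x).map φ = mx fun e => φ (x e) := rfl

lemma ev_det {V σ R : Type} [Fintype V] [DecidableEq V] [CommRing R] (x : σ → R)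
    (M : Matrix V V (MvPolynomial σ ℤ)) : ev x M.det = (Matrix.of fun i j => ev x (M i j)).det := by
  rw [RingHom.map_det]
  rfl

lemma ev_dP {V R : Type} [Fintype V] [DecidableEq V] [CommRing R] (x : V × V → R) :
    ev x (dP V) = (mx x).det := by
  unfold dP mx
  rw [ev_det]
  simp only [Matrix.of_apply, ev_X]

/-- the scheme of invertible matrices with zeros outside `S` belongs to the class -/
def UG (G : ∀ (R : Type) [CommRing R], Prop) {V : Type} [Fintype V] [DecidableEq V]
    (S : Set (V × V)) : Prop := GO G (zS S) (dP V)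

lemma lc_u {V : Type} [Fintype V] [DecidableEq V] {S : Set (V × V)} {R : Type} [CommRing R]
    {x : V × V → R} : Lc (zS S) (dP V) x ↔ (∀ e, e ∉ S → x e = 0) ∧ IsUnit (mx x).det := by
  unfold Lc
  rw [pt_zs, ev_dP]

/-! ### Removing positions -/

lemma insert_zs {A B : Type} {S : Set (A × B)} {e : A × B} {R : Type} [CommRing R]
    {x : A × B → R} : Pt (insert (X e) (zS S)) x ↔ Pt (zS (S \ {e})) x := by
  rw [Pt.insert_iff, pt_zs, pt_zs, ev_X]
  constructor
  · rintro ⟨h1, h2⟩ e' he'
    by_cases h : e' = e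
    · rw [h, h1]
    · exact h2 e' fun hs => he' ⟨hs, h⟩
  · intro h
    exact ⟨h e fun hs => hs.2 rfl, fun e' he' => h e' fun hs => he' hs.1⟩

/-- some of the entries are invertible -/
lemma go_del (hG : RG G) {A B : Type} [Finite A] [Finite B] {p : MvPolynomial (A × B) ℤ}
    (D : Finset (A × B)) : ∀ S : Set (A × B), (∀ T, T ⊆ S → GO G (zS T) p) →
      GO G (zS S) (p * ∏ e ∈ D, X e) := by
  classical
  induction D using Finset.induction_on with
  | empty =>
    intro S h
    rw [Finset.prod_empty, mul_one]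
    exact h S subset_rfl
  | insert a D ha ih =>
    intro S h
    have h1 := hG.gl_opn (X a) (ih S h) ((hG.gl_congr fun R _ x => by
      unfold Lc
      rw [insert_zs]).2 (ih (S \ {a}) fun T hT => h T (hT.trans Set.sdiff_subset)))
    rwa [mul_assoc, mul_comm _ (X a), ← Finset.prod_insert ha] at h1

/-- the same for a system with additional equations -/
lemma go_del' (hG : RG G) {A B : Type} [Finite A] [Finite B] {p : MvPolynomial (A × B) ℤ}
    (E : Set (MvPolynomial (A × B) ℤ)) (D : Finset (A × B)) :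
    ∀ S : Set (A × B), (∀ T, T ⊆ S → GO G (zS T ∪ E) p) →
      GO G (zS S ∪ E) (p * ∏ e ∈ D, X e) := by
  classical
  induction D using Finset.induction_on with
  | empty =>
    intro S h
    rw [Finset.prod_empty, mul_one]
    exact h S subset_rfl
  | insert a D ha ih =>
    intro S h
    have h1 := hG.gl_opn (X a) (ih S h) ((hG.gl_congr fun R _ x => by
      have hu : ∀ (E₁ E₂ : Set (MvPolynomial (A × B) ℤ)), Pt (E₁ ∪ E₂) x ↔ Pt E₁ x ∧ Pt E₂ x := by
        intro E₁ E₂
        unfold Pt
        simp only [Set.mem_union, or_imp, forall_and]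
      unfold Lc
      rw [Pt.insert_iff, hu, hu, ← insert_zs, Pt.insert_iff]
      tauto).2 (ih (S \ {a}) fun T hT => h T (hT.trans Set.sdiff_subset)))
    rwa [mul_assoc, mul_comm _ (X a), ← Finset.prod_insert ha] at h1

/-! ### The point and affine spaces -/

lemma gs_zs (hG : RG G) (h0 : GS G (∅ : Set (MvPolynomial Empty ℤ))) {A B : Type} [Finite A]
    [Finite B] (S : Set (A × B)) : GS G (zS S) := by
  rw [← hG.gs_emb (fun e : Empty => (e.elim : ↥S)) (fun e => e.elim), Set.image_empty] at h0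
  refine (hG.gs_iso (fun R _ y e => by
    classical exact if h : e ∈ S then y ⟨e, h⟩ else 0) (fun R _ x e => x e.1)
    ?_ ?_ ?_ ?_ ?_ ?_).1 h0
  · intro R R' _ _ φ y _ e
    by_cases h : e ∈ S
    · simp only [dif_pos h]
    · simp only [dif_neg h, map_zero]
  · intro R R' _ _ φ x _ e
    rfl
  · intro R _ y _
    rw [pt_zs]
    intro e he
    simp only [dif_neg he]
  · intro R _ x _ f hf
    exact absurd hf (Set.notMem_empty f)
  · intro R _ y _
    funext e
    simp only [dif_pos e.2]
  · intro R _ x hx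
    rw [pt_zs] at hx
    funext e
    by_cases h : e ∈ S
    · simp only [dif_pos h]
    · simp only [dif_neg h]
      exact (hx e h).symm

/-- singular and invertible matrices -/
lemma ug_iff (hG : RG G) (h0 : GS G (∅ : Set (MvPolynomial Empty ℤ))) {V : Type} [Fintype V]
    [DecidableEq V] (S : Set (V × V)) : UG G S ↔ GS G (sgS S) := by
  constructor
  · intro h
    exact hG.gs_closed (gs_zs hG h0 S) h
  · intro h
    exact hG.gs_opn (gs_zs hG h0 S) h

/-! ### Permutations of rows and columns, transposition -/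

lemma isUnit_det_sub {V W : Type} [Fintype V] [DecidableEq V] [Fintype W] [DecidableEq W]
    (e f : W ≃ V) {R : Type} [CommRing R] (M : Matrix V V R) :
    IsUnit (M.submatrix e f).det ↔ IsUnit M.det := by
  have h1 : M.submatrix e f = (M.submatrix id (e.symm.trans f : Equiv.Perm V)).submatrix e e := by
    ext i j
    simp
  rw [h1, Matrix.det_submatrix_equiv_self, Matrix.det_permute', IsUnit.mul_iff]
  have h2 : IsUnit (((Equiv.Perm.sign (e.symm.trans f : Equiv.Perm V) : ℤˣ) : ℤ) : R) :=
    (Units.isUnit _).map (Int.castRingHom R)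
  exact and_iff_right h2

lemma ug_equiv (hG : RG G) {V W : Type} [Fintype V] [DecidableEq V] [Fintype W] [DecidableEq W]
    (e f : W ≃ V) (S : Set (V × V)) : UG G {p : W × W | (e p.1, f p.2) ∈ S} ↔ UG G S := by
  refine hG.gl_iso (fun R _ y p => y (e.symm p.1, f.symm p.2)) (fun R _ x p => x (e p.1, f p.2))
    (fun _ _ _ _ _ _ _ _ => rfl) (fun _ _ _ _ _ _ _ _ => rfl) ?_ ?_ ?_ ?_
  · intro R _ y hy
    rw [lc_u] at hy ⊢
    refine ⟨fun p hp => hy.1 _ fun h => hp ?_, ?_⟩
    · simpa using h
    · exact (isUnit_det_sub e.symm f.symm (mx y)).2 hy.2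
  · intro R _ x hx
    rw [lc_u] at hx ⊢
    exact ⟨fun p hp => hx.1 _ hp, (isUnit_det_sub e f (mx x)).2 hx.2⟩
  · intro R _ y _
    funext p
    simp
  · intro R _ x _
    funext p
    simp

/-- transposition -/
lemma ug_swap (hG : RG G) {V : Type} [Fintype V] [DecidableEq V] (S : Set (V × V)) :
    UG G {p : V × V | p.swap ∈ S} ↔ UG G S := by
  have hdet : ∀ {R : Type} [CommRing R] (x : V × V → R),
      (mx fun p => x p.swap).det = (mx x).det := fun x => Matrix.det_transpose (mx x)
  refine hG.gl_iso (fun R _ y p => y p.swap) (fun R _ x p => x p.swap)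
    (fun _ _ _ _ _ _ _ _ => rfl) (fun _ _ _ _ _ _ _ _ => rfl) ?_ ?_ ?_ ?_
  · intro R _ y hy
    rw [lc_u] at hy ⊢
    refine ⟨fun p hp => hy.1 _ fun h => hp ?_, ?_⟩
    · simpa using h
    · rw [hdet]
      exact hy.2
  · intro R _ x hx
    rw [lc_u] at hx ⊢
    refine ⟨fun p hp => hx.1 _ hp, ?_⟩
    rw [hdet]
    exact hx.2
  · intro R _ y _
    rfl
  · intro R _ x _
    rfl

/-! ### Additional invertible coordinates -/

/-- descent along a torus: the coordinates in `D` do not occur -/
lemma go_torus (hG : RG G) {σ : Type} [Finite σ] {E : Set (MvPolynomial σ ℤ)}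
    {p : MvPolynomial σ ℤ} (D : Finset σ)
    (hfree : ∀ (A : Type) [CommRing A] (x y : σ → A), (∀ i, i ∉ D → y i = x i) →
      Lc E p x → Lc E p y) : GO G E (p * ∏ a ∈ D, X a) ↔ GO G E p := by
  classical
  revert hfree
  induction D using Finset.induction_on with
  | empty =>
    intro _
    rw [Finset.prod_empty, mul_one]
  | insert a D ha ih =>
    intro hfree
    rw [Finset.prod_insert ha, mul_comm (X a), ← mul_assoc]
    rw [hG.gl_gm a]
    · exact ih fun A _ x y hxy => hfree A x y fun i hi => hxy i fun h =>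
        hi (Finset.mem_insert_of_mem h)
    · intro A _ x y hxy hx
      unfold Lc at hx ⊢
      rw [map_mul, IsUnit.mul_iff, map_prod] at hx ⊢
      have h1 : Lc E p y := hfree A x y (fun i hi => hxy i fun h =>
        hi (h ▸ Finset.mem_insert_self a D)) ⟨hx.1, hx.2.1⟩
      refine ⟨h1.1, h1.2, ?_⟩
      have h2 : (∏ i ∈ D, ev y (X i)) = ∏ i ∈ D, ev x (X i) := by
        refine Finset.prod_congr rfl fun i hi => ?_
        rw [ev_X, ev_X]
        exact hxy i fun h => ha (h ▸ hi)
      rw [h2]
      exact hx.2.2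

/-- the system `U × 𝔾_m^D` in the variables `σ ⊕ τ` -/
lemma go_times (hG : RG G) {σ τ : Type} [Finite σ] [Fintype τ] (E : Set (MvPolynomial σ ℤ))
    (p : MvPolynomial σ ℤ) :
    GO G (rename (Sum.inl : σ → σ ⊕ τ) '' E) (rename Sum.inl p * ∏ a : τ, X (Sum.inr a)) ↔
      GO G E p := by
  classical
  rw [← hG.gl_sum (τ := τ) E p]
  have h1 : (∏ a : τ, X (Sum.inr a) : MvPolynomial (σ ⊕ τ) ℤ) =
      ∏ a ∈ Finset.univ.image (Sum.inr : τ → σ ⊕ τ), X a := by
    rw [Finset.prod_image fun a _ b _ h => Sum.inr_injective h]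
  rw [h1]
  refine go_torus hG _ fun A _ x y hxy hx => ?_
  have h2 : (fun i => y (Sum.inl i)) = fun i => x (Sum.inl i) :=
    funext fun i => hxy _ (by simp)
  unfold Lc Pt at hx ⊢
  simp only [Set.forall_mem_image, ev_rename] at hx ⊢
  rw [h2]
  exact hx

/-- solutions of `U × 𝔾_m^D` -/
lemma lc_times {σ τ : Type} [Fintype τ] {E : Set (MvPolynomial σ ℤ)}
    {p : MvPolynomial σ ℤ} {A : Type} [CommRing A] {x : σ ⊕ τ → A} :
    Lc (rename (Sum.inl : σ → σ ⊕ τ) '' E) (rename Sum.inl p * ∏ a : τ, X (Sum.inr a)) x ↔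
      Lc E p (fun i => x (Sum.inl i)) ∧ ∀ a, IsUnit (x (Sum.inr a)) := by
  unfold Lc Pt
  simp only [Set.forall_mem_image, ev_rename, map_mul, map_prod, ev_X, IsUnit.mul_iff]
  rw [isUnit_prod_iff]
  simp only [Finset.mem_univ, true_imp_iff]
  tauto

end Pool.Agent.PZ
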