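import Pool.Agent.PZ.Ms

/-!
# Commuting pairs in incidence algebras

For each element `b` of the middle level there is an element `a_b` of the lowest level which is
only below `b` (and below the highest level).  If the pair of the entries at `(a_b, b)` is not
zero then it can be normalized by an action of `GL₂` on the entries of the row and the column `b`
alone, and commutativity means that the entries in the row `b` of the second matrix are zero.
-/

set_option autoImplicit false

open MvPolynomial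
open Pool.Agent.Helper81.CP Pool.Agent.Helper81.HG Pool.Agent.Helper45.RM

namespace Pool.Agent.PZ

variable {G : ∀ (R : Type) [CommRing R], Prop}

/-! ### The systems -/

/-- the entries: `C`, `w` and `u` -/
abbrev CT (A B : Type) : Type := (A × B) ⊕ (B ⊕ (B × Fin 3))

/-- the middle element of an entry -/
def bpt {A B : Type} : CT A B → B
  | .inl e => e.2
  | .inr (.inl b) => b
  | .inr (.inr p) => p.1

/-- the cross product of two pairs -/
noncomputable def cq {T : Type} (p q : T) : MvPolynomial (T × Fin 2) ℤ :=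
  X (p, 0) * X (q, 1) - X (p, 1) * X (q, 0)

/-- the values -/
def cv {T R : Type} [CommRing R] (x : T × Fin 2 → R) (p q : T) : R :=
  x (p, 0) * x (q, 1) - x (p, 1) * x (q, 0)

lemma ev_cq {T R : Type} [CommRing R] (x : T × Fin 2 → R) (p q : T) :
    ev x (cq p q) = cv x p q := by
  unfold cq cv
  simp only [map_sub, map_mul, ev_X]

section
variable {A B : Type} [Fintype B]

/-- pairs of commuting matrices, with the pairs `w_b`, `b ∈ N`, normalized -/
noncomputable def hS (P : Set (A × B)) (B' N : Set B) : Set (MvPolynomial (CT A B × Fin 2) ℤ) :=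
  {f | (∃ e i, e ∉ P ∧ f = X (Sum.inl e, i)) ∨ (∃ b i, b ∉ B' ∧ f = X (Sum.inr (Sum.inl b), i)) ∨
    (∃ b ∈ N, f = X (Sum.inr (Sum.inl b), 0) - 1 ∨ f = X (Sum.inr (Sum.inl b), 1)) ∨
    (∃ b l, f = cq (Sum.inr (Sum.inl b)) (Sum.inr (Sum.inr (b, l)))) ∨
    ∃ a l, f = ∑ b, cq (Sum.inl (a, b)) (Sum.inr (Sum.inr (b, l)))}

lemma pt_hS {P : Set (A × B)} {B' N : Set B} {R : Type} [CommRing R]
    {x : CT A B × Fin 2 → R} : Pt (hS P B' N) x ↔
      (∀ e, e ∉ P → ∀ i, x (Sum.inl e, i) = 0) ∧
      (∀ b, b ∉ B' → ∀ i, x (Sum.inr (Sum.inl b), i) = 0) ∧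
      (∀ b ∈ N, x (Sum.inr (Sum.inl b), 0) = 1 ∧ x (Sum.inr (Sum.inl b), 1) = 0) ∧
      (∀ b l, cv x (Sum.inr (Sum.inl b)) (Sum.inr (Sum.inr (b, l))) = 0) ∧
      ∀ a l, ∑ b, cv x (Sum.inl (a, b)) (Sum.inr (Sum.inr (b, l))) = 0 := by
  constructor
  · intro h
    refine ⟨fun e he i => ?_, fun b hb i => ?_, fun b hb => ⟨?_, ?_⟩, fun b l => ?_, fun a l => ?_⟩
    · have := h _ (Or.inl ⟨e, i, he, rfl⟩)
      rwa [ev_X] at this
    · have := h _ (Or.inr (Or.inl ⟨b, i, hb, rfl⟩))
      rwa [ev_X] at this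
    · have := h _ (Or.inr (Or.inr (Or.inl ⟨b, hb, Or.inl rfl⟩)))
      rwa [map_sub, ev_X, map_one, sub_eq_zero] at this
    · have := h _ (Or.inr (Or.inr (Or.inl ⟨b, hb, Or.inr rfl⟩)))
      rwa [ev_X] at this
    · have := h _ (Or.inr (Or.inr (Or.inr (Or.inl ⟨b, l, rfl⟩))))
      rwa [ev_cq] at this
    · have := h _ (Or.inr (Or.inr (Or.inr (Or.inr ⟨a, l, rfl⟩))))
      simpa only [map_sum, ev_cq] using this
  · rintro ⟨h1, h2, h3, h4, h5⟩ _ (⟨e, i, he, rfl⟩ | ⟨b, i, hb, rfl⟩ | ⟨b, hb, rfl | rfl⟩ |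
      ⟨b, l, rfl⟩ | ⟨a, l, rfl⟩)
    · rw [ev_X]
      exact h1 e he i
    · rw [ev_X]
      exact h2 b hb i
    · rw [map_sub, ev_X, map_one, (h3 b hb).1, sub_self]
    · rw [ev_X]
      exact (h3 b hb).2
    · rw [ev_cq]
      exact h4 b l
    · simp only [map_sum, ev_cq]
      exact h5 a l

/-! ### The action -/

/-- the factor -/
def fac {R : Type} [CommRing R] (d : R) : CT A B → R
  | .inl _ => 1
  | .inr (.inl _) => 1
  | .inr (.inr _) => d

open scoped Classical in
/-- the action of `GL₂` on the part of `b0` -/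
noncomputable def ac (b0 : B) {R : Type} [CommRing R] (g g' : Matrix (Fin (1 + 1)) (Fin (1 + 1)) R)
    (x : CT A B × Fin 2 → R) : CT A B × Fin 2 → R := fun p =>
  if bpt p.1 = b0 then fac g'.det p.1 * (g p.2 0 * x (p.1, 0) + g p.2 1 * x (p.1, 1)) else x p

omit [Fintype B] in
lemma ac_ne {b0 : B} {R : Type} [CommRing R] {g g' : Matrix (Fin (1 + 1)) (Fin (1 + 1)) R}
    {x : CT A B × Fin 2 → R} {t : CT A B} (h : bpt t ≠ b0) (i : Fin 2) :
    ac b0 g g' x (t, i) = x (t, i) := if_neg h

omit [Fintype B] in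
lemma ac_eq {b0 : B} {R : Type} [CommRing R] {g g' : Matrix (Fin (1 + 1)) (Fin (1 + 1)) R}
    {x : CT A B × Fin 2 → R} {t : CT A B} (h : bpt t = b0) (i : Fin 2) :
    ac b0 g g' x (t, i) = fac g'.det t * (g i 0 * x (t, 0) + g i 1 * x (t, 1)) := if_pos h

omit [Fintype B] in
/-- the cross products are invariant -/
lemma cv_ac {b0 : B} {R : Type} [CommRing R] {g g' : Matrix (Fin (1 + 1)) (Fin (1 + 1)) R}
    (hg : g.det * g'.det = 1) (x : CT A B × Fin 2 → R) {t : CT A B} {b : B} {l : Fin 3}
    (ht : bpt t = b) (h1 : ∀ d : R, fac d t = 1) :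
    cv (ac b0 g g' x) t (Sum.inr (Sum.inr (b, l))) = cv x t (Sum.inr (Sum.inr (b, l))) := by
  unfold cv
  by_cases h : b = b0
  · have h2 : bpt (Sum.inr (Sum.inr (b, l)) : CT A B) = b0 := h
    rw [ac_eq (ht.trans h), ac_eq (ht.trans h), ac_eq h2, ac_eq h2, h1]
    rw [Matrix.det_fin_two] at hg
    show 1 * (g 0 0 * x (t, 0) + g 0 1 * x (t, 1)) *
        (g'.det * (g 1 0 * x (Sum.inr (Sum.inr (b, l)), 0) + g 1 1 * x (Sum.inr (Sum.inr (b, l)), 1))) -
      1 * (g 1 0 * x (t, 0) + g 1 1 * x (t, 1)) *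
        (g'.det * (g 0 0 * x (Sum.inr (Sum.inr (b, l)), 0) + g 0 1 * x (Sum.inr (Sum.inr (b, l)), 1))) = _
    linear_combination (x (t, 0) * x (Sum.inr (Sum.inr (b, l)), 1) -
      x (t, 1) * x (Sum.inr (Sum.inr (b, l)), 0)) * hg
  · have h2 : bpt (Sum.inr (Sum.inr (b, l)) : CT A B) ≠ b0 := h
    rw [ac_ne (fun h3 => h (ht.symm.trans h3)), ac_ne (fun h3 => h (ht.symm.trans h3)), ac_ne h2,
      ac_ne h2]

/-- the vector `w_b` -/
noncomputable def wC (A : Type) {B : Type} (b : B) :
    Fin (1 + 1) → MvPolynomial (CT A B × Fin 2) ℤ := fun i => X (Sum.inr (Sum.inl b), i)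

lemma map_fac {R R' : Type} [CommRing R] [CommRing R'] (φ : R →+* R') (d : R) (t : CT A B) :
    φ (fac d t) = fac (φ d) t := by
  rcases t with t | t | t
  · exact map_one φ
  · exact map_one φ
  · rfl

/-- the action on the solutions -/
noncomputable def actC (P : Set (A × B)) (B' N : Set B) {b0 : B} (hb : b0 ∉ N) :
    Act (hS P B' N) (wC A b0) where
  act := fun R _ g g' x => ac b0 g g' x
  nat := by
    intro R R' _ _ φ g g' x p
    obtain ⟨t, i⟩ := p
    by_cases h : bpt t = b0
    · rw [ac_eq h, ac_eq h, map_mul, map_add, map_mul, map_mul, Matrix.map_apply,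
        Matrix.map_apply, map_fac, RingHom.map_det]
      rfl
    · rw [ac_ne h, ac_ne h]
  pres := by
    intro R _ g g' x hg _ hx
    have hd : g.det * g'.det = 1 := by rw [← Matrix.det_mul, hg, Matrix.det_one]
    rw [pt_hS] at hx ⊢
    obtain ⟨h1, h2, h3, h4, h5⟩ := hx
    have h0 : ∀ t : CT A B, (∀ i, x (t, i) = 0) → ∀ i, ac b0 g g' x (t, i) = 0 := by
      intro t ht i
      by_cases h : bpt t = b0
      · rw [ac_eq h, ht, ht, mul_zero, mul_zero, add_zero, mul_zero]
      · rw [ac_ne h, ht]
    refine ⟨fun e he => h0 _ (h1 e he), fun b hb' => h0 _ (h2 b hb'), fun b hb' => ?_,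
      fun b l => ?_, fun a l => ?_⟩
    · have h : bpt (Sum.inr (Sum.inl b) : CT A B) ≠ b0 := fun h => hb (h ▸ hb')
      rw [ac_ne h, ac_ne h]
      exact h3 b hb'
    · rw [cv_ac hd x (t := Sum.inr (Sum.inl b)) (b := b) (l := l) rfl fun d => rfl]
      exact h4 b l
    · rw [← h5 a l]
      exact Finset.sum_congr rfl fun b _ =>
        cv_ac hd x (t := Sum.inl (a, b)) (b := b) (l := l) rfl fun d => rfl
  inv := by
    intro R _ g g' x hg hg'
    have hd : g'.det * g.det = 1 := by rw [← Matrix.det_mul, hg', Matrix.det_one]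
    funext p
    obtain ⟨t, i⟩ := p
    by_cases h : bpt t = b0
    · rw [ac_eq h, ac_eq h, ac_eq h]
      have h1 : fac g.det t * fac g'.det t = 1 := by
        rcases t with t | t | t
        · exact mul_one _
        · exact mul_one _
        · exact (mul_comm _ _).trans hd
      have h2 : ∀ k : Fin 2, g' i 0 * g 0 k + g' i 1 * g 1 k = if i = k then 1 else 0 := by
        intro k
        have h3 := congrFun (congrFun hg' i) k
        rw [Matrix.mul_apply, Fin.sum_univ_two, Matrix.one_apply] at h3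
        exact h3
      have h3 : x (t, i) = (if i = 0 then (1 : R) else 0) * x (t, 0) +
          (if i = 1 then (1 : R) else 0) * x (t, 1) := by
        fin_cases i <;> simp
      rw [h3, ← h2 0, ← h2 1]
      linear_combination ((g' i 0 * g 0 0 + g' i 1 * g 1 0) * x (t, 0) +
        (g' i 0 * g 0 1 + g' i 1 * g 1 1) * x (t, 1)) * h1
    · rw [ac_ne h, ac_ne h]
  equiv := by
    intro R _ g g' x
    funext i
    unfold wC
    have h := ac_eq (b0 := b0) (g := g) (g' := g') (x := x) (t := Sum.inr (Sum.inl b0)) rfl i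
    rw [ev_X]
    refine h.trans ?_
    show 1 * _ = _
    rw [one_mul, Matrix.mulVec, dotProduct, Fin.sum_univ_two]
    simp only [ev_X]

/-- one more pair is normalized -/
lemma good_hS_step {Q : ∀ (R : Type) [CommRing R], ℤ → Prop} (hQ : RingCP Q) [Finite A]
    (P : Set (A × B)) (B' N : Set B) {b0 : B} (hb : b0 ∉ N) (h1 : Good Q (hS P B' N))
    (h2 : Good Q (hS P (B' \ {b0}) N)) : Good Q (hS P B' (insert b0 N)) := by
  have h3 : Good Q (UW (hS P B' N) (wC A b0)) := by
    refine good_reduce hQ _ (actC P B' N hb) h1 ((hQ.good_congr fun R _ x => ?_).1 h2)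
    rw [pt_fw, pt_hS, pt_hS]
    unfold wC
    simp only [ev_X]
    constructor
    · rintro ⟨a, b, c, d⟩
      refine ⟨⟨a, fun b' hb' => b b' fun h => hb' h.1, c, d⟩, fun i _ => b b0 (fun h => h.2 rfl) i⟩
    · rintro ⟨⟨a, b, c, d⟩, e⟩
      refine ⟨a, fun b' hb' i => ?_, c, d⟩
      by_cases h : b' = b0
      · subst h
        exact e i i.2
      · exact b b' (fun h' => hb' ⟨h', h⟩) i
  refine (hQ.good_congr fun R _ x => ?_).1 h3
  rw [pt_uw, pt_hS, pt_hS]
  unfold wC
  simp only [ev_X]
  constructor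
  · rintro ⟨⟨a, b, c, d⟩, e⟩
    refine ⟨a, b, ?_, d⟩
    rintro b' (rfl | hb')
    · exact ⟨(congrFun e 0).trans rfl, (congrFun e 1).trans rfl⟩
    · exact c b' hb'
  · rintro ⟨a, b, c, d⟩
    refine ⟨⟨a, b, fun b' hb' => c b' (Set.mem_insert_of_mem _ hb'), d⟩, ?_⟩
    obtain ⟨c1, c2⟩ := c b0 (Set.mem_insert _ _)
    funext i
    fin_cases i
    · exact c1
    · exact c2

/-- all pairs are normalized: the kernel -/
lemma good_ms_of_hS {Q : ∀ (R : Type) [CommRing R], ℤ → Prop} (hQ : RingCP Q) [Fintype A]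
    (P : Set (A × B)) (h : Good Q (hS P Set.univ Set.univ)) : Good Q (mS P 0 3) := by
  classical
  have hU : ∀ (R : Type) [CommRing R] (z : MV A B 0 3 ⊕ ↥P → R),
      Pt (rename (Sum.inl : MV A B 0 3 → MV A B 0 3 ⊕ ↥P) '' mS P 0 3) z ↔
        Pt (mS P 0 3) fun i => z (Sum.inl i) := by
    intro R _ z
    simp only [Pt, Set.forall_mem_image, ev_rename]
  refine (hQ.good_sum (τ := ↥P) (mS P 0 3)).1 fun s => ?_
  refine (hQ.qs_iso
    (fun R _ x => Sum.elim (Sum.elim (fun e => x (Sum.inl e, 1)) (Sum.elim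
      (Sum.elim (fun p => p.1.elim0) (fun p => p.2.elim0))
      (fun p => x (Sum.inr (Sum.inr p), 0)))) (fun e => x (Sum.inl e.1, 0)))
    (fun R _ y => fun p => match p with
      | (.inl e, i) => if i = 0 then (if h : e ∈ P then y (.inr ⟨e, h⟩) else 0)
          else y (.inl (.inl e))
      | (.inr (.inl _), i) => if i = 0 then 1 else 0
      | (.inr (.inr p), i) => if i = 0 then y (.inl (.inr (.inr p))) else 0)
    ?_ ?_ ?_ ?_ ?_ ?_ s).1 (h s)
  · intro R R' _ _ φ x _ j
    rcases j with (j | (j | j) | j) | j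
    · rfl
    · exact j.1.elim0
    · exact j.2.elim0
    · rfl
    · rfl
  · intro R R' _ _ φ y _ p
    rcases p with ⟨e | b | p, i⟩
    · dsimp only
      split_ifs
      · rfl
      · exact map_zero φ
      · rfl
    · dsimp only
      split_ifs
      · exact map_one φ
      · exact map_zero φ
    · dsimp only
      split_ifs
      · rfl
      · exact map_zero φ
  · intro R _ x hx
    rw [pt_hS] at hx
    obtain ⟨h1, _, h3, h4, h5⟩ := hx
    rw [hU, pt_mS]
    refine ⟨fun e he => h1 e he 1, fun i => i.elim0, fun a l => ?_⟩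
    have h6 : ∀ b l, x (Sum.inr (Sum.inr (b, l)), 1) = 0 := by
      intro b l
      have h7 := h4 b l
      obtain ⟨h8, h9⟩ := h3 b (Set.mem_univ b)
      rw [cv, h8, h9, one_mul, zero_mul, sub_zero] at h7
      exact h7
    have h7 := h5 a l
    simp only [cv, h6, mul_zero, zero_sub, Finset.sum_neg_distrib, neg_eq_zero] at h7
    exact h7
  · intro R _ y hy
    rw [hU, pt_mS] at hy
    obtain ⟨h1, _, h3⟩ := hy
    rw [pt_hS]
    refine ⟨fun e he i => ?_, fun b hb => absurd (Set.mem_univ b) hb, fun b _ => ⟨rfl, rfl⟩,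
      fun b l => ?_, fun a l => ?_⟩
    · fin_cases i
      · exact dif_neg he
      · exact h1 e he
    · show (1 : R) * 0 - 0 * _ = 0
      rw [mul_zero, zero_mul, sub_zero]
    · have h4 : ∀ b, cv (fun p : CT A B × Fin 2 => match p with
          | (.inl e, i) => if i = 0 then (if h : e ∈ P then y (.inr ⟨e, h⟩) else 0)
              else y (.inl (.inl e))
          | (.inr (.inl _), i) => if i = 0 then 1 else 0
          | (.inr (.inr p), i) => if i = 0 then y (.inl (.inr (.inr p))) else 0)
          (Sum.inl (a, b)) (Sum.inr (Sum.inr (b, l))) =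
          -(y (Sum.inl (Sum.inl (a, b))) * y (Sum.inl (Sum.inr (Sum.inr (b, l))))) := by
        intro b
        show _ * (0 : R) - y (Sum.inl (Sum.inl (a, b))) * y (Sum.inl (Sum.inr (Sum.inr (b, l)))) = _
        rw [mul_zero, zero_sub]
      refine (Finset.sum_congr rfl fun b _ => h4 b).trans ?_
      rw [Finset.sum_neg_distrib, h3 a l, neg_zero]
  · intro R _ x hx
    rw [pt_hS] at hx
    obtain ⟨h1, _, h3, h4, h5⟩ := hx
    have h6 : ∀ b l, x (Sum.inr (Sum.inr (b, l)), 1) = 0 := by
      intro b l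
      have h7 := h4 b l
      obtain ⟨h8, h9⟩ := h3 b (Set.mem_univ b)
      rw [cv, h8, h9, one_mul, zero_mul, sub_zero] at h7
      exact h7
    funext p
    rcases p with ⟨e | b | p, i⟩
    · fin_cases i
      · show (if h : e ∈ P then x (Sum.inl e, 0) else 0) = _
        split_ifs with h
        · rfl
        · exact (h1 e h 0).symm
      · rfl
    · fin_cases i
      · exact (h3 b (Set.mem_univ b)).1.symm
      · exact (h3 b (Set.mem_univ b)).2.symm
    · fin_cases i
      · rfl
      · exact (h6 p.1 p.2).symm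
  · intro R _ y _
    funext j
    rcases j with (j | (j | j) | j) | j
    · rfl
    · exact j.1.elim0
    · exact j.2.elim0
    · rfl
    · show (if h : j.1 ∈ P then y (.inr ⟨j.1, h⟩) else 0) = _
      rw [dif_pos j.2]

/-- the kernels from the systems without normalization -/
lemma gs_ms_of_hS (hS : Sem G) [Fintype A] (P : Set (A × B))
    (h : ∀ B' : Set B, GS G (PZ.hS P B' ∅)) : GS G (mS P 0 3) := by
  classical
  have key : ∀ N : Finset B, ∀ B' : Set B, ↑N ⊆ B' → GS G (PZ.hS P B' ↑N) := by
    intro N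
    induction N using Finset.induction_on with
    | empty =>
      intro B' _
      rw [Finset.coe_empty]
      exact h B'
    | insert b N hb ih =>
      intro B' hB
      rw [Finset.coe_insert] at hB ⊢
      have h1 := ih B' fun x hx => hB (Set.mem_insert_of_mem _ hx)
      have h2 := ih (B' \ {b}) fun x hx => ⟨hB (Set.mem_insert_of_mem _ hx), fun h => hb (h ▸ hx)⟩
      exact hS _ _ _ _ _ _ (fun Q hQ g1 g2 => good_hS_step hQ P B' ↑N hb g1 g2) h1 h2
  have h1 := key Finset.univ Set.univ (Set.subset_univ _)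
  rw [Finset.coe_univ] at h1
  exact hS _ _ _ _ _ _ (fun Q hQ g _ => good_ms_of_hS hQ P g) h1 h1

end

/-! ### The partially ordered set -/

section
variable {A B : Type}

/-- the elements: `a` and `a_b`, `b`, and three elements above them -/
abbrev PV (A B : Type) : Type := (A ⊕ B) ⊕ (B ⊕ Fin 3)

/-- the order -/
def plt (P : Set (A × B)) (B' : Set B) : PV A B → PV A B → Prop
  | .inl (.inl a), .inr (.inl b) => (a, b) ∈ P
  | .inl (.inr b), .inr (.inl b') => b = b' ∧ b ∈ B'
  | .inr (.inl _), .inr (.inr _) => True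
  | .inl _, .inr (.inr _) => True
  | _, _ => False

lemma plt_irrefl (P : Set (A × B)) (B' : Set B) (x : PV A B) : ¬ plt P B' x x := by
  rcases x with (x | x) | x | x <;> exact fun h => h

lemma plt_trans (P : Set (A × B)) (B' : Set B) {x y z : PV A B} (h1 : plt P B' x y)
    (h2 : plt P B' y z) : plt P B' x z := by
  rcases x with (x | x) | x | x <;> rcases y with (y | y) | y | y <;>
    rcases z with (z | z) | z | z <;> first | exact trivial | exact h1.elim | exact h2.elim

/-- the partially ordered set -/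
@[reducible] def pord (P : Set (A × B)) (B' : Set B) : PartialOrder (PV A B) where
  le x y := x = y ∨ plt P B' x y
  lt := plt P B'
  le_refl x := Or.inl rfl
  le_trans x y z h1 h2 := by
    rcases h1 with rfl | h1
    · exact h2
    · rcases h2 with rfl | h2
      · exact Or.inr h1
      · exact Or.inr (plt_trans P B' h1 h2)
  le_antisymm x y h1 h2 := by
    rcases h1 with rfl | h1
    · rfl
    · rcases h2 with rfl | h2
      · rfl
      · exact absurd (plt_trans P B' h1 h2) (plt_irrefl P B' x)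
  lt_iff_le_not_ge x y := by
    constructor
    · intro h
      refine ⟨Or.inr h, ?_⟩
      rintro (rfl | h')
      · exact plt_irrefl P B' _ h
      · exact plt_irrefl P B' _ (plt_trans P B' h h')
    · rintro ⟨rfl | h, h'⟩
      · exact absurd (Or.inl rfl) h'
      · exact h

lemma short_pord (P : Set (A × B)) (B' : Set B) : @Short (PV A B) (pord P B') := by
  intro x y z w h1 h2 h3
  rcases x with (x | x) | x | x <;> rcases y with (y | y) | y | y <;>
    rcases z with (z | z) | z | z <;> first | exact h1.elim | exact h2.elim | exact h3.elim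

end

/-! ### Pairs of commuting matrices -/

lemma pt_coS {V : Type} [Fintype V] {S : Set (V × V)} {R : Type} [CommRing R]
    {x : (V × V) ⊕ (V × V) → R} : Pt (coS S) x ↔
      (∀ e, e ∉ S → x (Sum.inl e) = 0) ∧ (∀ e, e ∉ S → x (Sum.inr e) = 0) ∧
      ∀ p q, ∑ k, (x (Sum.inl (p, k)) * x (Sum.inr (k, q)) -
        x (Sum.inr (p, k)) * x (Sum.inl (k, q))) = 0 := by
  have h1 : Pt (coS S) x ↔ (Pt (zS S) (fun e => x (Sum.inl e)) ∧
      Pt (zS S) (fun e => x (Sum.inr e))) ∧
      ∀ p : V × V, ∑ k, (x (Sum.inl (p.1, k)) * x (Sum.inr (k, p.2)) -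
        x (Sum.inr (p.1, k)) * x (Sum.inl (k, p.2))) = 0 := by
    unfold coS Pt
    simp only [Set.mem_union, or_imp, forall_and, Set.forall_mem_image, Set.forall_mem_range,
      ev_rename, map_sub, map_sum, map_mul, ev_X]
  rw [h1, pt_zs, pt_zs, and_assoc]
  simp only [Prod.forall]

section
variable {A B : Type}

/-- the variables: the entries and the entries in the corner -/
abbrev HV (A B : Type) : Type := (CT A B × Fin 2) ⊕ (((A ⊕ B) × Fin 3) × Fin 2)

/-- the position of an entry -/
def pos : CT A B → PV A B × PV A B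
  | .inl e => (.inl (.inl e.1), .inr (.inl e.2))
  | .inr (.inl b) => (.inl (.inr b), .inr (.inl b))
  | .inr (.inr p) => (.inr (.inl p.1), .inr (.inr p.2))

/-- from commuting pairs to the systems -/
def fo {R : Type} (x : (PV A B × PV A B) ⊕ (PV A B × PV A B) → R) : HV A B → R
  | .inl (t, 0) => x (.inl (pos t))
  | .inl (t, 1) => x (.inr (pos t))
  | .inr ((s, l), 0) => x (.inl (.inl s, .inr (.inr l)))
  | .inr ((s, l), 1) => x (.inr (.inl s, .inr (.inr l)))

open Classical in
/-- from the systems to the matrices -/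
noncomputable def bk {R : Type} [CommRing R] (y : HV A B → R) (i : Fin 2) :
    PV A B → PV A B → R
  | .inl (.inl a), .inr (.inl b) => y (.inl (.inl (a, b), i))
  | .inl (.inr b), .inr (.inl b') => if b = b' then y (.inl (.inr (.inl b), i)) else 0
  | .inr (.inl b), .inr (.inr l) => y (.inl (.inr (.inr (b, l)), i))
  | .inl s, .inr (.inr l) => y (.inr ((s, l), i))
  | .inl _, .inl _ => 0
  | .inr _, .inl _ => 0
  | .inr (.inl _), .inr (.inl _) => 0
  | .inr (.inr _), .inr _ => 0

lemma bk_mid {R : Type} [CommRing R] (y : HV A B → R) (i : Fin 2) (b b' : B) [Decidable (b = b')] :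
    bk y i (.inl (.inr b)) (.inr (.inl b')) =
      if b = b' then y (.inl (.inr (.inl b), i)) else 0 := by
  by_cases h : b = b'
  · exact (if_pos h).trans (if_pos h).symm
  · exact (if_neg h).trans (if_neg h).symm

lemma map_bk {R R' : Type} [CommRing R] [CommRing R'] (φ : R →+* R') (y : HV A B → R)
    (i : Fin 2) (p q : PV A B) : φ (bk y i p q) = bk (fun j => φ (y j)) i p q := by
  rcases p with (p | p) | p | p <;> rcases q with (q | q) | q | q <;>
    first
    | rfl
    | exact map_zero φ
    | (classical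
       rw [bk_mid, bk_mid]
       split_ifs
       · rfl
       · exact map_zero φ)

/-- the entries are zero unless the positions are related -/
lemma bk_zero (P : Set (A × B)) (B' : Set B) {R : Type} [CommRing R] {y : HV A B → R}
    (h1 : ∀ e, e ∉ P → ∀ i, y (Sum.inl (Sum.inl e, i)) = 0)
    (h2 : ∀ b, b ∉ B' → ∀ i, y (Sum.inl (Sum.inr (Sum.inl b), i)) = 0) (i : Fin 2)
    (p q : PV A B) (h : ¬ plt P B' p q) : bk y i p q = 0 := by
  rcases p with (p | p) | p | p <;> rcases q with (q | q) | q | q <;>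
    first
    | rfl
    | exact absurd trivial h
    | exact h1 _ h i
    | (classical
       rw [bk_mid]
       split_ifs with h3
       · exact h2 p (fun h4 => h ⟨h3, h4⟩) i
       · rfl)

section
variable [Fintype A] [Fintype B]

/-- only the middle level contributes -/
lemma sum_mid (P : Set (A × B)) (B' : Set B) {R : Type} [CommRing R] (u v : PV A B → PV A B → R)
    (hu : ∀ p q, ¬ plt P B' p q → u p q = 0) (hv : ∀ p q, ¬ plt P B' p q → v p q = 0)
    (s : A ⊕ B) (l : Fin 3) :
    ∑ k, (u (.inl s) k * v k (.inr (.inr l)) - v (.inl s) k * u k (.inr (.inr l))) =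
      ∑ b : B, (u (.inl s) (.inr (.inl b)) * v (.inr (.inl b)) (.inr (.inr l)) -
        v (.inl s) (.inr (.inl b)) * u (.inr (.inl b)) (.inr (.inr l))) := by
  rw [Fintype.sum_sum_type, Fintype.sum_sum_type (α₁ := B)]
  have h1 : ∑ k : A ⊕ B, (u (.inl s) (.inl k) * v (.inl k) (.inr (.inr l)) -
      v (.inl s) (.inl k) * u (.inl k) (.inr (.inr l))) = 0 := by
    refine Finset.sum_eq_zero fun k _ => ?_
    have h2 : ¬ plt P B' (.inl s) (.inl k) := by
      rcases s with s | s <;> rcases k with k | k <;> exact fun h => h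
    rw [hu _ _ h2, hv _ _ h2, zero_mul, zero_mul, sub_zero]
  have h3 : ∑ k : Fin 3, (u (.inl s) (.inr (.inr k)) * v (.inr (.inr k)) (.inr (.inr l)) -
      v (.inl s) (.inr (.inr k)) * u (.inr (.inr k)) (.inr (.inr l))) = 0 := by
    refine Finset.sum_eq_zero fun k _ => ?_
    have h2 : ¬ plt P B' (.inr (.inr k)) (.inr (.inr l)) := fun h => h
    rw [hu _ _ h2, hv _ _ h2, mul_zero, mul_zero, sub_zero]
  rw [h1, h3, zero_add, add_zero]

/-- the other commutators vanish -/
lemma sum_off (P : Set (A × B)) (B' : Set B) {R : Type} [CommRing R] (u v : PV A B → PV A B → R)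
    (hu : ∀ p q, ¬ plt P B' p q → u p q = 0) (hv : ∀ p q, ¬ plt P B' p q → v p q = 0)
    (p q : PV A B) (h : ¬ ∃ s l, p = .inl s ∧ q = .inr (.inr l)) :
    ∑ k, (u p k * v k q - v p k * u k q) = 0 := by
  refine Finset.sum_eq_zero fun k _ => ?_
  by_cases h1 : plt P B' p k
  · have h2 : ¬ plt P B' k q := by
      intro h2
      refine h ?_
      rcases p with (p | p) | p | p <;> rcases k with (k | k) | k | k <;>
        rcases q with (q | q) | q | q <;>
        first | exact ⟨_, _, rfl, rfl⟩ | exact h1.elim | exact h2.elim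
    rw [hu _ _ h2, hv _ _ h2, mul_zero, mul_zero, sub_zero]
  · rw [hu _ _ h1, hv _ _ h1, zero_mul, zero_mul, sub_zero]

/-- commuting pairs for the partially ordered set -/
lemma gs_co_iff (hG : RG G) (P : Set (A × B)) (B' : Set B) :
    GS G (coS {e : PV A B × PV A B | plt P B' e.1 e.2}) ↔
      GS G (rename (Sum.inl : CT A B × Fin 2 → HV A B) '' hS P B' ∅) := by
  classical
  have hU : ∀ (R : Type) [CommRing R] (z : HV A B → R),
      Pt (rename (Sum.inl : CT A B × Fin 2 → HV A B) '' hS P B' ∅) z ↔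
        Pt (hS P B' ∅) fun i => z (Sum.inl i) := by
    intro R _ z
    simp only [Pt, Set.forall_mem_image, ev_rename]
  refine hG.gs_iso (fun R _ x => fo x)
    (fun R _ y => Sum.elim (fun e => bk y 0 e.1 e.2) (fun e => bk y 1 e.1 e.2)) ?_ ?_ ?_ ?_ ?_ ?_
  · intro R R' _ _ φ x _ j
    rcases j with ⟨t, i⟩ | ⟨⟨s, l⟩, i⟩ <;> fin_cases i <;> rfl
  · intro R R' _ _ φ y _ j
    rcases j with j | j
    · exact map_bk φ y 0 j.1 j.2
    · exact map_bk φ y 1 j.1 j.2
  · intro R _ x hx
    rw [pt_coS] at hx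
    obtain ⟨h1, h2, h3⟩ := hx
    rw [hU, pt_hS]
    refine ⟨fun e he i => ?_, fun b hb i => ?_, fun b hb => hb.elim, fun b l => ?_,
      fun a l => ?_⟩
    · fin_cases i
      · exact h1 _ he
      · exact h2 _ he
    · fin_cases i
      · exact h1 _ fun h => hb h.2
      · exact h2 _ fun h => hb h.2
    · have h4 := h3 (.inl (.inr b)) (.inr (.inr l))
      rw [sum_mid P B' (fun p q => x (.inl (p, q))) (fun p q => x (.inr (p, q)))
        (fun p q h => h1 (p, q) h) (fun p q h => h2 (p, q) h) (.inr b) l] at h4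
      rw [Finset.sum_eq_single b] at h4
      · exact h4
      · intro b' _ hb'
        have h5 : ¬ plt P B' (.inl (.inr b)) (.inr (.inl b')) := fun h => hb' h.1.symm
        have h6 := h1 (.inl (.inr b), .inr (.inl b')) h5
        have h7 := h2 (.inl (.inr b), .inr (.inl b')) h5
        rw [h6, h7, zero_mul, zero_mul, sub_zero]
      · exact fun h => absurd (Finset.mem_univ b) h
    · have h4 := h3 (.inl (.inl a)) (.inr (.inr l))
      rw [sum_mid P B' (fun p q => x (.inl (p, q))) (fun p q => x (.inr (p, q)))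
        (fun p q h => h1 (p, q) h) (fun p q h => h2 (p, q) h) (.inl a) l] at h4
      exact h4
  · intro R _ y hy
    rw [hU, pt_hS] at hy
    obtain ⟨h1, h2, _, h4, h5⟩ := hy
    have h6 := bk_zero P B' (y := y) h1 h2
    rw [pt_coS]
    refine ⟨fun e he => h6 0 e.1 e.2 he, fun e he => h6 1 e.1 e.2 he, fun p q => ?_⟩
    by_cases h : ∃ s l, p = .inl s ∧ q = .inr (.inr l)
    · obtain ⟨s, l, rfl, rfl⟩ := h
      refine (sum_mid P B' (bk y 0) (bk y 1) (h6 0) (h6 1) s l).trans ?_
      rcases s with a | b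
      · exact h5 a l
      · rw [Finset.sum_eq_single b]
        · have h7 : ∀ i, bk y i (.inl (.inr b)) (.inr (.inl b)) =
              y (.inl (.inr (.inl b), i)) := fun i => if_pos rfl
          rw [h7, h7]
          exact h4 b l
        · intro b' _ hb'
          have h5 : ¬ plt P B' (.inl (.inr b)) (.inr (.inl b')) := fun h => hb' h.1.symm
          rw [h6 0 _ _ h5, h6 1 _ _ h5, zero_mul, zero_mul, sub_zero]
        · exact fun h => absurd (Finset.mem_univ b) h
    · exact sum_off P B' (bk y 0) (bk y 1) (h6 0) (h6 1) p q h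
  · intro R _ x hx
    rw [pt_coS] at hx
    obtain ⟨h1, h2, _⟩ := hx
    funext j
    rcases j with ⟨p, q⟩ | ⟨p, q⟩
    · rcases p with (p | p) | p | p <;> rcases q with (q | q) | q | q <;>
        first
        | rfl
        | (refine (h1 _ ?_).symm
           exact fun h => h)
        | (refine (bk_mid (fo x) 0 _ _).trans ?_
           split_ifs with h3
           · subst h3
             rfl
           · refine (h1 _ ?_).symm
             exact fun h => h3 h.1)
    · rcases p with (p | p) | p | p <;> rcases q with (q | q) | q | q <;>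
        first
        | rfl
        | (refine (h2 _ ?_).symm
           exact fun h => h)
        | (refine (bk_mid (fo x) 1 _ _).trans ?_
           split_ifs with h3
           · subst h3
             rfl
           · refine (h2 _ ?_).symm
             exact fun h => h3 h.1)
  · intro R _ y _
    funext j
    rcases j with ⟨t, i⟩ | ⟨⟨s, l⟩, i⟩
    · rcases t with t | t | t
      · fin_cases i <;> rfl
      · fin_cases i
        · exact if_pos rfl
        · exact if_pos rfl
      · fin_cases i <;> rfl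
    · rcases s with s | s <;> fin_cases i <;> rfl

/-- kernels of matrices with prescribed zeros -/
lemma ms_of_co (hG : RG G) (hS : Sem G)
    (h : ∀ (V : Type) [Fintype V] [PartialOrder V], Short V → GS G (coS (lts V)))
    (P : Set (A × B)) : GS G (mS P 0 3) := by
  refine gs_ms_of_hS hS P fun B' => ?_
  rw [← hG.gs_emb (Sum.inl : CT A B × Fin 2 → HV A B) Sum.inl_injective, ← gs_co_iff hG]
  exact @h (PV A B) _ (pord P B') (short_pord P B')

end

end

end Pool.Agent.PZ
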