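import Pool.Agent.Helper45.RM.Defs

/-!
# Matrices with prescribed zeros: definitions

The entries of a matrix `X` with rows and columns indexed by `V` are the variables `x_e`,
`e ∈ V × V`.
-/

set_option autoImplicit false

open AlgebraicGeometry MvPolynomial
open Pool.Agent.Helper81.HG

namespace Pool.Agent.PZ

/-- the equations `x_e = 0` for the positions `e` outside `S` -/
def zS {A B : Type} (S : Set (A × B)) : Set (MvPolynomial (A × B) ℤ) := {f | ∃ e, e ∉ S ∧ f = X e}

/-- the determinant of the matrix `X` -/
noncomputable def dP (V : Type) [Fintype V] [DecidableEq V] : MvPolynomial (V × V) ℤ :=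
  (Matrix.of fun i j => X (i, j)).det

/-- the bipartite graph of `S`: the row `i` and the column `j` are joined if `(i, j)` is in `S` -/
def bg {A B : Type} (S : Set (A × B)) : SimpleGraph (A ⊕ B) where
  Adj x y := (∃ e ∈ S, x = Sum.inl e.1 ∧ y = Sum.inr e.2) ∨
    ∃ e ∈ S, y = Sum.inl e.1 ∧ x = Sum.inr e.2
  symm := ⟨fun _ _ h => Or.symm h⟩
  loopless := ⟨fun x h => by
    rcases h with ⟨e, _, h1, h2⟩ | ⟨e, _, h1, h2⟩
    · rw [h1] at h2; cases h2
    · rw [h1] at h2; cases h2⟩

/-- at most `d` positions of `S` in each row and in each column -/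
def Sp (d : ℕ) {V : Type} (S : Set (V × V)) : Prop :=
  (∀ i, {j | (i, j) ∈ S}.ncard ≤ d) ∧ ∀ j, {i | (i, j) ∈ S}.ncard ≤ d

/-- the positions which correspond to the edges of a graph -/
def ps {V : Type} (Γ : SimpleGraph V) : Set (V × V) := {e | Γ.Adj e.1 e.2}

/-- singular matrices with zeros outside `S` -/
noncomputable def sgS {V : Type} [Fintype V] [DecidableEq V] (S : Set (V × V)) :
    Set (MvPolynomial (V × V) ℤ) := insert (dP V) (zS S)

/-- matrices of determinant one with zeros outside `S` -/
noncomputable def slS {V : Type} [Fintype V] [DecidableEq V] (S : Set (V × V)) :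
    Set (MvPolynomial (V × V) ℤ) := insert (dP V - 1) (zS S)

/-- singular symmetric matrices with zeros outside `S` -/
noncomputable def syS {V : Type} [Fintype V] [DecidableEq V] (S : Set (V × V)) :
    Set (MvPolynomial (V × V) ℤ) :=
  insert (dP V) (zS S ∪ Set.range fun p : V × V => X p - X p.swap)

/-- singular alternating matrices with zeros outside `S` -/
noncomputable def alS {V : Type} [Fintype V] [DecidableEq V] (S : Set (V × V)) :
    Set (MvPolynomial (V × V) ℤ) :=
  insert (dP V) (zS S ∪ (Set.range (fun p : V × V => X p + X p.swap) ∪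
    Set.range fun i : V => X (i, i)))

/-- matrices of rank at most `r` with zeros outside `S`: all minors of order `r + 1` vanish -/
noncomputable def rkS (r : ℕ) {V : Type} (S : Set (V × V)) : Set (MvPolynomial (V × V) ℤ) :=
  zS S ∪ Set.range fun p : (Fin (r + 1) → V) × (Fin (r + 1) → V) =>
    (Matrix.of fun i j => X (p.1 i, p.2 j)).det

/-- idempotent matrices with zeros outside `S` -/
noncomputable def idS {V : Type} [Fintype V] (S : Set (V × V)) : Set (MvPolynomial (V × V) ℤ) :=
  zS S ∪ Set.range fun p : V × V => ∑ k, X (p.1, k) * X (k, p.2) - X p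

/-- matrices with square zero and zeros outside `S` -/
noncomputable def sqS {V : Type} [Fintype V] (S : Set (V × V)) : Set (MvPolynomial (V × V) ℤ) :=
  zS S ∪ Set.range fun p : V × V => ∑ k, X (p.1, k) * X (k, p.2)

/-- pairs of commuting matrices with zeros outside `S` -/
noncomputable def coS {V : Type} [Fintype V] (S : Set (V × V)) :
    Set (MvPolynomial ((V × V) ⊕ (V × V)) ℤ) :=
  (rename Sum.inl '' zS S ∪ rename Sum.inr '' zS S) ∪ Set.range fun p : V × V =>
    ∑ k, (X (Sum.inl (p.1, k)) * X (Sum.inr (k, p.2)) -
      X (Sum.inr (p.1, k)) * X (Sum.inl (k, p.2)))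

/-- the positions above the diagonal for a partial order -/
def lts (V : Type) [PartialOrder V] : Set (V × V) := {e | e.1 < e.2}

/-- the chains of a partially ordered set have at most three elements -/
def Short (V : Type) [PartialOrder V] : Prop := ∀ a b c d : V, a < b → b < c → ¬ c < d

open Classical in
/-- Singular matrices over `ℤ/N` with at most `d` positions in each row and in each column, the
other entries zero; the cycles of the bipartite graph of the positions have length at least `g`. -/
def Singular (N d g : ℕ) : Set Scheme.{0} :=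
  {Y | ∃ (V : Type) (_ : Fintype V) (S : Set (V × V)), Sp d S ∧ (g : ℕ∞) ≤ (bg S).egirth ∧
    Y = Zeros N (sgS S)}

open Classical in
/-- The same for matrices of determinant one: smooth affine schemes over `ℤ/N`. -/
def UnitDeterminant (N d g : ℕ) : Set Scheme.{0} :=
  {Y | ∃ (V : Type) (_ : Fintype V) (S : Set (V × V)), Sp d S ∧ (g : ℕ∞) ≤ (bg S).egirth ∧
    Y = Zeros N (slS S)}

open Classical in
/-- Singular matrices over `ℤ/N` with at most two positions in each row, the other entries
zero. -/
def SingularTwo (N : ℕ) : Set Scheme.{0} :=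
  {Y | ∃ (V : Type) (_ : Fintype V) (S : Set (V × V)), (∀ i, {j | (i, j) ∈ S}.ncard ≤ 2) ∧
    Y = Zeros N (sgS S)}

open Classical in
/-- Singular symmetric matrices over `ℤ/N` whose entries are zero outside the edges of a graph
(so the diagonal is zero) with at most `d` edges at each vertex and without cycles of length less
than `g`. -/
def SingularSymmetric (N d g : ℕ) : Set Scheme.{0} :=
  {Y | ∃ (V : Type) (_ : Fintype V) (Γ : SimpleGraph V), (∀ v, (Γ.neighborSet v).ncard ≤ d) ∧
    (g : ℕ∞) ≤ Γ.egirth ∧ Y = Zeros N (syS (ps Γ))}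

open Classical in
/-- The same for alternating matrices: `x_ji = -x_ij` and the diagonal is zero. -/
def SingularAlternating (N d g : ℕ) : Set Scheme.{0} :=
  {Y | ∃ (V : Type) (_ : Fintype V) (Γ : SimpleGraph V), (∀ v, (Γ.neighborSet v).ncard ≤ d) ∧
    (g : ℕ∞) ≤ Γ.egirth ∧ Y = Zeros N (alS (ps Γ))}

/-- Matrices over `ℤ/N` of rank at most `r` with prescribed zeros. -/
def RankAtMost (N r : ℕ) : Set Scheme.{0} :=
  {Y | ∃ (V : Type) (_ : Fintype V) (S : Set (V × V)), Y = Zeros N (rkS r S)}

/-- Idempotent matrices over `ℤ/N` with prescribed zeros. -/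
def Idempotent (N : ℕ) : Set Scheme.{0} :=
  {Y | ∃ (V : Type) (_ : Fintype V) (S : Set (V × V)), Y = Zeros N (idS S)}

/-- Matrices over `ℤ/N` with square zero in the radical of the incidence algebra of a finite
partially ordered set `V` (that is, with zeros at the positions `(i, j)` unless `i < j`) whose
chains have at most three elements. -/
def SquareZero (N : ℕ) : Set Scheme.{0} :=
  {Y | ∃ (V : Type) (_ : Fintype V) (_ : PartialOrder V), Short V ∧ Y = Zeros N (sqS (lts V))}

/-- The same for commuting pairs of matrices. -/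
def CommutingPairs (N : ℕ) : Set Scheme.{0} :=
  {Y | ∃ (V : Type) (_ : Fintype V) (_ : PartialOrder V), Short V ∧ Y = Zeros N (coS (lts V))}

end Pool.Agent.PZ
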