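import Pool.Agent.PZ.Ms

/-!
# Kernels of matrices with prescribed zeros and orthogonality relations

The scheme `C u = 0` is, by the hyperplane lemma, as good as the scheme `tr (y C u) = 1`; this is
linear in the entries of `C`, with the coefficients `y_a u_b`.
-/

set_option autoImplicit false

open MvPolynomial
open Pool.Agent.Helper81.CP Pool.Agent.Helper81.HG Pool.Agent.Helper45.RM Pool.Agent.TM

namespace Pool.Agent.PZ

variable {Q : ∀ (R : Type) [CommRing R], ℤ → Prop}

section
variable {A B : Type} [Fintype A] [Fintype B]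

open scoped Classical in
/-- the entries of a matrix with zeros outside `P` -/
noncomputable def cP {σ : Type} (P : Set (A × B)) (e : A × B) : MvPolynomial (↥P ⊕ σ) ℤ :=
  if h : e ∈ P then X (Sum.inl ⟨e, h⟩) else 0

open scoped Classical in
/-- the values -/
noncomputable def cV {σ R : Type} [CommRing R] (P : Set (A × B)) (x : ↥P ⊕ σ → R) (e : A × B) : R :=
  if h : e ∈ P then x (Sum.inl ⟨e, h⟩) else 0

omit [Fintype A] [Fintype B] in
lemma ev_cP {σ R : Type} [CommRing R] (P : Set (A × B)) (x : ↥P ⊕ σ → R) (e : A × B) :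
    ev x (cP P e) = cV P x e := by
  unfold cP cV
  split_ifs
  · rw [ev_X]
  · exact map_zero _

/-- the equations `C u = 0` -/
noncomputable def kerF (P : Set (A × B)) (d : ℕ) (p : A × Fin d) :
    MvPolynomial (↥P ⊕ (B × Fin d)) ℤ := ∑ b, cP P (p.1, b) * X (Sum.inr (b, p.2))

omit [Fintype A] in
lemma ev_kerF {R : Type} [CommRing R] (P : Set (A × B)) {d : ℕ} (p : A × Fin d)
    (x : ↥P ⊕ (B × Fin d) → R) :
    ev x (kerF P d p) = ∑ b, cV P x (p.1, b) * x (Sum.inr (b, p.2)) := by
  unfold kerF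
  simp only [map_sum, map_mul, ev_X, ev_cP]

lemma good_ker_of_ms (hQ : RingCP Q) (P : Set (A × B)) (d : ℕ) (h : Good Q (mS P 0 d)) :
    Good Q (Set.range (kerF P d)) := by
  classical
  intro s
  refine (hQ.qs_iso
    (fun R _ x => Sum.elim (fun e : ↥P => x (Sum.inl e.1)) (fun p => x (Sum.inr (Sum.inr p))))
    (fun R _ y => Sum.elim (fun e => cV P y e) (Sum.elim (Sum.elim (fun p => p.1.elim0)
      (fun p => p.2.elim0)) (fun p => y (Sum.inr p)))) ?_ ?_ ?_ ?_ ?_ ?_ s).1 (h s)
  · intro R R' _ _ φ x _ j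
    rcases j with j | j <;> rfl
  · intro R R' _ _ φ y _ j
    rcases j with j | (j | j) | j
    · show φ (cV P y j) = cV P (fun j => φ (y j)) j
      unfold cV
      split_ifs
      · rfl
      · exact map_zero φ
    · exact j.1.elim0
    · exact j.2.elim0
    · rfl
  · intro R _ x hx
    rw [pt_mS] at hx
    rw [pt_range]
    rintro ⟨a, l⟩
    rw [ev_kerF, ← hx.2.2 a l]
    refine Finset.sum_congr rfl fun b _ => ?_
    unfold cV
    split_ifs with h
    · rfl
    · rw [hx.1 _ h]
      rfl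
  · intro R _ y hy
    rw [pt_range] at hy
    rw [pt_mS]
    refine ⟨fun e he => dif_neg he, fun i => i.elim0, fun a l => ?_⟩
    have h1 := hy (a, l)
    rw [ev_kerF] at h1
    exact h1
  · intro R _ x hx
    rw [pt_mS] at hx
    funext j
    rcases j with j | (j | j) | j
    · show cV P _ j = _
      unfold cV
      split_ifs with h
      · rfl
      · exact (hx.1 _ h).symm
    · exact j.1.elim0
    · exact j.2.elim0
    · rfl
  · intro R _ y _
    funext j
    rcases j with j | j
    · show cV P y j.1 = _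
      unfold cV
      rw [dif_pos j.2]
    · rfl

/-- the variables `C`, `u`, `y` in two orders -/
def swE (P : Set (A × B)) (d : ℕ) :
    (↥P ⊕ (B × Fin d)) ⊕ (A × Fin d) ≃ ((A × Fin d) ⊕ (B × Fin d)) ⊕ ↥P where
  toFun
    | .inl (.inl e) => .inr e
    | .inl (.inr p) => .inl (.inr p)
    | .inr p => .inl (.inl p)
  invFun
    | .inl (.inl p) => .inr p
    | .inl (.inr p) => .inl (.inr p)
    | .inr e => .inl (.inl e)
  left_inv := by rintro ((e | p) | p) <;> rfl
  right_inv := by rintro ((p | p) | e) <;> rfl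

/-- the two ways to read `tr (y C u) = 1` -/
lemma sum_two {R : Type} [CommRing R] (P : Set (A × B)) [Fintype ↥P] {d : ℕ}
    (x : ((A × Fin d) ⊕ (B × Fin d)) ⊕ ↥P → R) :
    ∑ p : A × Fin d, x (Sum.inl (Sum.inl p)) *
      (∑ b, cV P (fun i : ↥P ⊕ (B × Fin d) => x (swE P d (Sum.inl i))) (p.1, b) *
        x (Sum.inl (Sum.inr (b, p.2)))) =
    ∑ e : ↥P, x (Sum.inr e) *
      ∑ l, x (Sum.inl (Sum.inl (e.1.1, l))) * x (Sum.inl (Sum.inr (e.1.2, l))) := by
  classical
  have h1 : ∀ e : ↥P, x (Sum.inr e) *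
      (∑ l, x (Sum.inl (Sum.inl (e.1.1, l))) * x (Sum.inl (Sum.inr (e.1.2, l)))) =
      (fun e' : A × B => cV P (fun i : ↥P ⊕ (B × Fin d) => x (swE P d (Sum.inl i))) e' *
        ∑ l, x (Sum.inl (Sum.inl (e'.1, l))) * x (Sum.inl (Sum.inr (e'.2, l)))) e.1 := by
    intro e
    show _ = cV P _ e.1 * _
    unfold cV
    rw [dif_pos e.2]
    rfl
  have h2 : ∀ e ∉ Finset.univ.filter (· ∈ P),
      (fun e' : A × B => cV P (fun i : ↥P ⊕ (B × Fin d) => x (swE P d (Sum.inl i))) e' *
        ∑ l, x (Sum.inl (Sum.inl (e'.1, l))) * x (Sum.inl (Sum.inr (e'.2, l)))) e = 0 := by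
    intro e he
    show cV P _ e * _ = 0
    unfold cV
    rw [dif_neg (fun h => he (by simpa using h)), zero_mul]
  rw [Finset.sum_congr rfl fun e _ => h1 e,
    ← Finset.sum_subtype (Finset.univ.filter (· ∈ P)) (fun e => by simp)
      (fun e' : A × B => cV P (fun i : ↥P ⊕ (B × Fin d) => x (swE P d (Sum.inl i))) e' *
        ∑ l, x (Sum.inl (Sum.inl (e'.1, l))) * x (Sum.inl (Sum.inr (e'.2, l)))),
    Finset.sum_subset (Finset.subset_univ _) fun e _ he => h2 e he]
  rw [Fintype.sum_prod_type, Fintype.sum_prod_type]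
  refine Finset.sum_congr rfl fun a _ => ?_
  simp only [Finset.mul_sum]
  rw [Finset.sum_comm]
  refine Finset.sum_congr rfl fun b _ => Finset.sum_congr rfl fun l _ => ?_
  ring

/-- **Duality**: kernels of matrices with zeros outside `P` and orthogonality relations. -/
theorem good_ors_of_ms (hQ : RingCP Q) (h0 : Good Q (∅ : Set (MvPolynomial Empty ℤ)))
    (P : Set (A × B)) (d : ℕ) (h : Good Q (mS P 0 d)) : Good Q (orS d P) := by
  classical
  have h1 := (good_range_iff hQ (good_empty hQ h0 _) _).1 (good_ker_of_ms hQ P d h)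
  have h2 : Good Q (Set.range fun e : ↥P => (pr e.1 : MvPolynomial (OV d A B) ℤ)) := by
    rw [good_range_iff hQ (good_empty hQ h0 _)]
    rw [← hQ.good_equiv (swE P d)] at h1
    refine (hQ.good_congr fun R _ x => ?_).1 h1
    have h3 : Pt (rename (swE P d) '' oneI (kerF P d)) x ↔
        Pt (oneI (kerF P d)) fun i => x (swE P d i) := by
      simp only [Pt, Set.forall_mem_image, ev_rename]
    rw [h3, pt_oneI, pt_oneI]
    simp only [ev_kerF, ev_pr]
    exact iff_of_eq (congrArg (· = 1) (sum_two P x))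
  refine (hQ.good_congr fun R _ x => ?_).1 h2
  rw [pt_range, pt_ors]
  simp only [ev_pr]
  exact ⟨fun h e he => h ⟨e, he⟩, fun h e => h e.1 e.2⟩

/-- the same for classes -/
theorem ors_of_ms {G : ∀ (R : Type) [CommRing R], Prop} (hS : Sem G)
    (h0 : GS G (∅ : Set (MvPolynomial Empty ℤ))) (P : Set (A × B)) (d : ℕ)
    (h : GS G (mS P 0 d)) : GS G (orS d P) :=
  hS _ _ _ _ _ _ (fun _ hQ g g0 => good_ors_of_ms hQ g0 P d g) h h0

end

end Pool.Agent.PZ
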