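import Pool.Agent.PZ.Ms
import Pool.Agent.TM.Hyp2

/-!
# One more vector in the kernel (helper29)

The systems `C` with zeros outside `P`, `z C w = 1`, `C u = 0`: from `(j, k)` and `(j + 1, k)` to
`(j, k + 1)`, by the hyperplane lemma.
-/

set_option autoImplicit false

open MvPolynomial
open Pool.Agent.Helper81.CP Pool.Agent.Helper81.HG Pool.Agent.Helper45.RM Pool.Agent.TM

namespace Pool.Agent.PZ

variable {Q : ∀ (R : Type) [CommRing R], ℤ → Prop}

section
variable {A B : Type} [Fintype A] [Fintype B]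

/-- the value `z C u` -/
def bf {R : Type} [CommRing R] (c : A × B → R) (z : A → R) (u : B → R) : R :=
  ∑ a, ∑ b, z a * (c (a, b) * u b)

section
variable {R : Type} [CommRing R]

lemma bf_map {R' : Type} [CommRing R'] (φ : R →+* R') (c : A × B → R) (z : A → R) (u : B → R) :
    φ (bf c z u) = bf (fun e => φ (c e)) (fun a => φ (z a)) (fun b => φ (u b)) := by
  unfold bf
  simp only [map_sum, map_mul]

lemma bf_eq (c : A × B → R) (z : A → R) (u : B → R) :
    bf c z u = ∑ a, z a * ∑ b, c (a, b) * u b := by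
  unfold bf
  exact Finset.sum_congr rfl fun a _ => (Finset.mul_sum _ _ _).symm

lemma bf_left {τ : Type} [Fintype τ] (c : A × B → R) (z : A → R) (s : τ → R) (z' : τ → A → R)
    (u : B → R) : bf c (fun a => z a + ∑ i, s i * z' i a) u =
      bf c z u + ∑ i, s i * bf c (z' i) u := by
  have h : ∑ i, s i * bf c (z' i) u = ∑ a, (∑ i, s i * z' i a) * ∑ b, c (a, b) * u b := by
    simp only [bf_eq, Finset.mul_sum, Finset.sum_mul]
    rw [Finset.sum_comm]
    refine Finset.sum_congr rfl fun a _ => ?_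
    rw [Finset.sum_comm]
    refine Finset.sum_congr rfl fun b _ => Finset.sum_congr rfl fun i _ => ?_
    ring
  rw [h, bf_eq, bf_eq, ← Finset.sum_add_distrib]
  exact Finset.sum_congr rfl fun a _ => add_mul _ _ _

lemma bf_left' {τ : Type} [Fintype τ] (c : A × B → R) (z : A → R) (s : τ → R) (z' : τ → A → R)
    (u : B → R) : bf c (fun a => z a - ∑ i, s i * z' i a) u =
      bf c z u - ∑ i, s i * bf c (z' i) u := by
  have h := bf_left c z (fun i => - s i) z' u
  simp only [neg_mul, Finset.sum_neg_distrib, ← sub_eq_add_neg] at h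
  exact h

lemma bf_right {τ : Type} [Fintype τ] (c : A × B → R) (z : A → R) (u : B → R) (t : τ → R)
    (w : τ → B → R) : bf c z (fun b => u b + ∑ i, t i * w i b) =
      bf c z u + ∑ i, t i * bf c z (w i) := by
  have h : ∑ i, t i * bf c z (w i) = ∑ a, z a * ∑ b, c (a, b) * ∑ i, t i * w i b := by
    simp only [bf_eq, Finset.mul_sum]
    rw [Finset.sum_comm]
    refine Finset.sum_congr rfl fun a _ => ?_
    rw [Finset.sum_comm]
    refine Finset.sum_congr rfl fun b _ => Finset.sum_congr rfl fun i _ => ?_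
    ring
  rw [h, bf_eq, bf_eq, ← Finset.sum_add_distrib]
  refine Finset.sum_congr rfl fun a _ => ?_
  rw [← mul_add, ← Finset.sum_add_distrib]
  refine congrArg _ (Finset.sum_congr rfl fun b _ => ?_)
  ring

lemma bf_right' {τ : Type} [Fintype τ] (c : A × B → R) (z : A → R) (u : B → R) (t : τ → R)
    (w : τ → B → R) : bf c z (fun b => u b - ∑ i, t i * w i b) =
      bf c z u - ∑ i, t i * bf c z (w i) := by
  have h := bf_right c z u (fun i => - t i) w
  simp only [neg_mul, Finset.sum_neg_distrib, ← sub_eq_add_neg] at h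
  exact h

/-- the coordinates of a point -/
def cc {j k : ℕ} (x : MV A B j k → R) (e : A × B) : R := x (Sum.inl e)

/-- the coordinates of a point -/
def zz {j k : ℕ} (x : MV A B j k → R) (i : Fin j) (a : A) : R :=
  x (Sum.inr (Sum.inl (Sum.inl (i, a))))

/-- the coordinates of a point -/
def ww {j k : ℕ} (x : MV A B j k → R) (i : Fin j) (b : B) : R :=
  x (Sum.inr (Sum.inl (Sum.inr (b, i))))

/-- the coordinates of a point -/
def uu {j k : ℕ} (x : MV A B j k → R) (l : Fin k) (b : B) : R :=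
  x (Sum.inr (Sum.inr (b, l)))

/-- a point -/
def mk {j k : ℕ} (c : A × B → R) (z : Fin j → A → R) (w : Fin j → B → R) (u : Fin k → B → R) :
    MV A B j k → R :=
  Sum.elim c (Sum.elim (Sum.elim (fun p => z p.1 p.2) fun p => w p.2 p.1) fun p => u p.2 p.1)

lemma pt_mS' {P : Set (A × B)} {j k : ℕ} {x : MV A B j k → R} :
    Pt (mS P j k) x ↔ (∀ e, e ∉ P → cc x e = 0) ∧
      (∀ i i', bf (cc x) (zz x i) (ww x i') = if i = i' then 1 else 0) ∧
      ∀ a l, ∑ b, cc x (a, b) * uu x l b = 0 := pt_mS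

end

/-- the inclusion of the variables -/
def inc {j k : ℕ} : MV A B j k → MV A B j (k + 1)
  | .inl e => .inl e
  | .inr (.inl p) => .inr (.inl p)
  | .inr (.inr p) => .inr (.inr (p.1, p.2.succ))

/-- the base: the last condition only for the combinations of the rows of `C` -/
noncomputable def baS (P : Set (A × B)) (j k : ℕ) : Set (MvPolynomial (MV A B j (k + 1)) ℤ) :=
  rename inc '' mS P j k ∪ Set.range fun i : Fin j => ∑ a, ∑ b,
    X (Sum.inr (Sum.inl (Sum.inl (i, a)))) * (X (Sum.inl (a, b)) * X (Sum.inr (Sum.inr (b, 0))))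

/-- the values of `C` at the new vector -/
noncomputable def cuF (A B : Type) [Fintype B] (j k : ℕ) (a : A) :
    MvPolynomial (MV A B j (k + 1)) ℤ :=
  ∑ b, X (Sum.inl (a, b)) * X (Sum.inr (Sum.inr (b, 0)))

lemma pt_baS {P : Set (A × B)} {j k : ℕ} {R : Type} [CommRing R] {x : MV A B j (k + 1) → R} :
    Pt (baS P j k) x ↔ ((∀ e, e ∉ P → cc x e = 0) ∧
      (∀ i i', bf (cc x) (zz x i) (ww x i') = if i = i' then 1 else 0) ∧
      ∀ a l, ∑ b, cc x (a, b) * uu x (Fin.succ l) b = 0) ∧
      ∀ i, bf (cc x) (zz x i) (uu x 0) = 0 := by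
  have h1 : Pt (baS P j k) x ↔ Pt (mS P j k) (fun i => x (inc i)) ∧
      ∀ i : Fin j, bf (cc x) (zz x i) (uu x 0) = 0 := by
    unfold baS Pt
    simp only [Set.mem_union, or_imp, forall_and, Set.forall_mem_image, Set.forall_mem_range,
      ev_rename, map_sum, map_mul, ev_X]
    exact Iff.rfl
  rw [h1, pt_mS']
  exact Iff.rfl

omit [Fintype A] in
lemma ev_cuF {j k : ℕ} {R : Type} [CommRing R] (x : MV A B j (k + 1) → R) (a : A) :
    ev x (cuF A B j k a) = ∑ b, cc x (a, b) * uu x 0 b := by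
  unfold cuF
  simp only [map_sum, map_mul, ev_X]
  rfl

lemma pt_inl {σ τ R : Type} [CommRing R] {E : Set (MvPolynomial σ ℤ)} {x : σ ⊕ τ → R} :
    Pt (rename Sum.inl '' E) x ↔ Pt E fun i => x (Sum.inl i) := by
  simp only [Pt, Set.forall_mem_image, ev_rename]

/-- a vector in front of a family -/
def cns {R : Type} {D : Type} {k : ℕ} (v : D → R) (u : Fin k → D → R) (l : Fin (k + 1)) : D → R :=
  Fin.cases v u l

/-- the map from the base -/
def fB {R : Type} [CommRing R] {j k : ℕ} (x : MV A B j (k + 1) ⊕ Fin j → R) :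
    MV A B j k ⊕ B → R :=
  Sum.elim (mk (cc fun i => x (Sum.inl i)) (zz fun i => x (Sum.inl i)) (ww fun i => x (Sum.inl i))
      (fun l => uu (fun i => x (Sum.inl i)) l.succ))
    (fun b => uu (fun i => x (Sum.inl i)) 0 b +
      ∑ i, x (Sum.inr i) * ww (fun i => x (Sum.inl i)) i b)

/-- the map to the base -/
def gB {R : Type} [CommRing R] {j k : ℕ} (y : MV A B j k ⊕ B → R) :
    MV A B j (k + 1) ⊕ Fin j → R :=
  Sum.elim (mk (cc fun i => y (Sum.inl i)) (zz fun i => y (Sum.inl i)) (ww fun i => y (Sum.inl i))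
      (cns (fun b => y (Sum.inr b) - ∑ i, bf (cc fun i => y (Sum.inl i))
        (zz (fun i => y (Sum.inl i)) i) (fun b => y (Sum.inr b)) *
          ww (fun i => y (Sum.inl i)) i b) (uu fun i => y (Sum.inl i))))
    (fun i => bf (cc fun i => y (Sum.inl i)) (zz (fun i => y (Sum.inl i)) i)
      (fun b => y (Sum.inr b)))

lemma good_baS (hQ : RingCP Q) (P : Set (A × B)) (j k : ℕ) (h : Good Q (mS P j k)) :
    Good Q (baS P j k) := by
  refine (hQ.good_sum (τ := Fin j) (baS P j k)).1 fun s => ?_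
  refine (hQ.qs_iso (fun R _ x => fB x) (fun R _ y => gB y) ?_ ?_ ?_ ?_ ?_ ?_ s).2
    ((hQ.good_sum (τ := B) (mS P j k)).2 h s)
  · intro R R' _ _ φ x _ i
    rcases i with (i | (i | i) | i) | b
    · rfl
    · rfl
    · rfl
    · rfl
    · show φ (uu (fun i => x (Sum.inl i)) 0 b +
        ∑ i, x (Sum.inr i) * ww (fun i => x (Sum.inl i)) i b) = _
      rw [map_add, map_sum]
      simp only [map_mul]
      rfl
  · intro R R' _ _ φ y _ i
    rcases i with (i | (i | i) | ⟨b, l⟩) | i
    · rfl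
    · rfl
    · rfl
    · refine Fin.cases ?_ (fun l => ?_) l
      · show φ (y (Sum.inr b) - ∑ i, bf (cc fun i => y (Sum.inl i))
          (zz (fun i => y (Sum.inl i)) i) (fun b => y (Sum.inr b)) *
            ww (fun i => y (Sum.inl i)) i b) = _
        rw [map_sub, map_sum]
        simp only [map_mul, bf_map]
        rfl
      · rfl
    · exact bf_map φ _ _ _
  · intro R _ x hx
    rw [pt_inl, pt_baS] at hx
    rw [pt_inl, pt_mS']
    exact hx.1
  · intro R _ y hy
    rw [pt_inl, pt_mS'] at hy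
    rw [pt_inl, pt_baS]
    refine ⟨hy, fun i => ?_⟩
    show bf (cc fun i => y (Sum.inl i)) (zz (fun i => y (Sum.inl i)) i) (fun b => y (Sum.inr b) -
      ∑ i', bf (cc fun i => y (Sum.inl i)) (zz (fun i => y (Sum.inl i)) i')
        (fun b => y (Sum.inr b)) * ww (fun i => y (Sum.inl i)) i' b) = 0
    rw [bf_right']
    simp only [hy.2.1, mul_ite, mul_one, mul_zero, Finset.sum_ite_eq, Finset.mem_univ, if_true,
      sub_self]
  · intro R _ x hx
    rw [pt_inl, pt_baS] at hx
    have ht : ∀ i, bf (cc fun i => x (Sum.inl i)) (zz (fun i => x (Sum.inl i)) i) (fun b =>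
        uu (fun i => x (Sum.inl i)) 0 b + ∑ i, x (Sum.inr i) * ww (fun i => x (Sum.inl i)) i b) =
        x (Sum.inr i) := by
      intro i
      rw [bf_right, hx.2 i, zero_add]
      simp only [hx.1.2.1, mul_ite, mul_one, mul_zero, Finset.sum_ite_eq, Finset.mem_univ, if_true]
    funext i
    rcases i with (i | (i | i) | ⟨b, l⟩) | i
    · rfl
    · rfl
    · rfl
    · refine Fin.cases ?_ (fun l => ?_) l
      · show (uu (fun i => x (Sum.inl i)) 0 b +
          ∑ i, x (Sum.inr i) * ww (fun i => x (Sum.inl i)) i b) -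
          ∑ i, bf (cc fun i => x (Sum.inl i)) (zz (fun i => x (Sum.inl i)) i) (fun b =>
        uu (fun i => x (Sum.inl i)) 0 b + ∑ i, x (Sum.inr i) * ww (fun i => x (Sum.inl i)) i b) *
          ww (fun i => x (Sum.inl i)) i b = _
        simp only [ht]
        exact add_sub_cancel_right _ _
      · rfl
    · exact ht i
  · intro R _ y _
    funext i
    rcases i with (i | (i | i) | i) | b
    · rfl
    · rfl
    · rfl
    · rfl
    · exact sub_add_cancel _ _

/-- the map from the hyperplane -/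
def fH {R : Type} [CommRing R] {j k : ℕ} (x : MV A B j (k + 1) ⊕ A → R) :
    MV A B (j + 1) k ⊕ Fin j → R :=
  Sum.elim (mk (cc fun i => x (Sum.inl i))
      (cns (fun a => x (Sum.inr a) - ∑ i, bf (cc fun i => x (Sum.inl i)) (fun a => x (Sum.inr a))
        (ww (fun i => x (Sum.inl i)) i) * zz (fun i => x (Sum.inl i)) i a)
        (zz fun i => x (Sum.inl i)))
      (cns (uu (fun i => x (Sum.inl i)) 0) (ww fun i => x (Sum.inl i)))
      (fun l => uu (fun i => x (Sum.inl i)) l.succ))
    (fun i => bf (cc fun i => x (Sum.inl i)) (fun a => x (Sum.inr a))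
        (ww (fun i => x (Sum.inl i)) i))

/-- the map to the hyperplane -/
def gH {R : Type} [CommRing R] {j k : ℕ} (y : MV A B (j + 1) k ⊕ Fin j → R) :
    MV A B j (k + 1) ⊕ A → R :=
  Sum.elim (mk (cc fun i => y (Sum.inl i))
      (fun i => zz (fun i => y (Sum.inl i)) i.succ)
      (fun i => ww (fun i => y (Sum.inl i)) i.succ)
      (cns (ww (fun i => y (Sum.inl i)) 0) (uu fun i => y (Sum.inl i))))
    (fun a => zz (fun i => y (Sum.inl i)) 0 a +
      ∑ i, y (Sum.inr i) * zz (fun i => y (Sum.inl i)) i.succ a)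

lemma good_hypS (hQ : RingCP Q) (P : Set (A × B)) (j k : ℕ) (h : Good Q (mS P (j + 1) k)) :
    Good Q (hypS (baS P j k) (cuF A B j k)) := by
  intro s
  refine (hQ.qs_iso (fun R _ x => fH x) (fun R _ y => gH y) ?_ ?_ ?_ ?_ ?_ ?_ s).2
    ((hQ.good_sum (τ := Fin j) (mS P (j + 1) k)).2 h s)
  · intro R R' _ _ φ x _ i
    rcases i with (i | (⟨i, a⟩ | ⟨b, i⟩) | i) | i
    · rfl
    · refine Fin.cases ?_ (fun i => ?_) i
      · show φ (x (Sum.inr a) - ∑ i, bf (cc fun i => x (Sum.inl i)) (fun a => x (Sum.inr a))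
          (ww (fun i => x (Sum.inl i)) i) * zz (fun i => x (Sum.inl i)) i a) = _
        rw [map_sub, map_sum]
        simp only [map_mul, bf_map]
        rfl
      · rfl
    · refine Fin.cases ?_ (fun i => ?_) i
      · rfl
      · rfl
    · rfl
    · exact bf_map φ _ _ _
  · intro R R' _ _ φ y _ i
    rcases i with (i | (i | i) | ⟨b, l⟩) | a
    · rfl
    · rfl
    · rfl
    · refine Fin.cases ?_ (fun l => ?_) l
      · rfl
      · rfl
    · show φ (zz (fun i => y (Sum.inl i)) 0 a +
        ∑ i, y (Sum.inr i) * zz (fun i => y (Sum.inl i)) i.succ a) = _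
      rw [map_add, map_sum]
      simp only [map_mul]
      rfl
  · intro R _ x hx
    rw [pt_hyps, pt_baS] at hx
    simp only [ev_cuF] at hx
    rw [pt_inl, pt_mS']
    obtain ⟨h1, ⟨h2, h3, h4⟩, h5⟩ := hx
    refine ⟨h2, ?_, h4⟩
    have e1 : ∀ u, bf (cc fun i => x (Sum.inl i)) (fun a => x (Sum.inr a) -
        ∑ i, bf (cc fun i => x (Sum.inl i)) (fun a => x (Sum.inr a))
          (ww (fun i => x (Sum.inl i)) i) * zz (fun i => x (Sum.inl i)) i a) u =
        bf (cc fun i => x (Sum.inl i)) (fun a => x (Sum.inr a)) u -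
          ∑ i, bf (cc fun i => x (Sum.inl i)) (fun a => x (Sum.inr a))
          (ww (fun i => x (Sum.inl i)) i) *
            bf (cc fun i => x (Sum.inl i)) (zz (fun i => x (Sum.inl i)) i) u :=
      fun u => bf_left' _ _ _ _ _
    intro i i'
    refine Fin.cases ?_ (fun i => ?_) i
    · refine Fin.cases ?_ (fun i' => ?_) i'
      · refine (e1 (uu (fun i => x (Sum.inl i)) 0)).trans ?_
        simp only [h5, mul_zero, Finset.sum_const_zero, sub_zero, if_true]
        rw [bf_eq]
        exact h1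
      · refine (e1 (ww (fun i => x (Sum.inl i)) i')).trans ?_
        simp only [h3, mul_ite, mul_one, mul_zero, Finset.sum_ite_eq', Finset.mem_univ, if_true]
        rw [if_neg (Fin.succ_ne_zero i').symm]
        exact sub_self _
    · refine Fin.cases ?_ (fun i' => ?_) i'
      · rw [if_neg (Fin.succ_ne_zero i)]
        exact h5 i
      · simp only [Fin.succ_inj]
        exact h3 i i'
  · intro R _ y hy
    rw [pt_inl, pt_mS'] at hy
    rw [pt_hyps, pt_baS]
    simp only [ev_cuF]
    obtain ⟨h1, h2, h3⟩ := hy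
    refine ⟨?_, ⟨h1, fun i i' => ?_, h3⟩, fun i => ?_⟩
    · have e1 := bf_left (cc fun i => y (Sum.inl i)) (zz (fun i => y (Sum.inl i)) 0)
        (fun i => y (Sum.inr i)) (fun i : Fin j => zz (fun i => y (Sum.inl i)) i.succ)
        (ww (fun i => y (Sum.inl i)) 0)
      simp only [h2, Fin.succ_ne_zero, if_true, if_false, mul_zero, Finset.sum_const_zero,
        add_zero] at e1
      rw [bf_eq] at e1
      exact e1
    · have e1 := h2 i.succ i'.succ
      simp only [Fin.succ_inj] at e1
      exact e1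
    · have e1 := h2 i.succ 0
      rw [if_neg (Fin.succ_ne_zero i)] at e1
      exact e1
  · intro R _ x _
    funext i
    rcases i with (i | (i | i) | ⟨b, l⟩) | a
    · rfl
    · rfl
    · rfl
    · refine Fin.cases ?_ (fun l => ?_) l
      · rfl
      · rfl
    · exact sub_add_cancel _ _
  · intro R _ y hy
    rw [pt_inl, pt_mS'] at hy
    obtain ⟨h1, h2, h3⟩ := hy
    have hs : ∀ i : Fin j, bf (cc fun i => y (Sum.inl i)) (fun a => zz (fun i => y (Sum.inl i)) 0 a +
        ∑ i, y (Sum.inr i) * zz (fun i => y (Sum.inl i)) i.succ a)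
        (ww (fun i => y (Sum.inl i)) i.succ) = y (Sum.inr i) := by
      intro i
      have e1 := bf_left (cc fun i => y (Sum.inl i)) (zz (fun i => y (Sum.inl i)) 0)
        (fun i => y (Sum.inr i)) (fun i : Fin j => zz (fun i => y (Sum.inl i)) i.succ)
        (ww (fun i => y (Sum.inl i)) i.succ)
      simp only [h2, Fin.succ_inj, mul_ite, mul_one, mul_zero, Finset.sum_ite_eq', Finset.mem_univ,
        if_true] at e1
      rw [if_neg (Fin.succ_ne_zero i).symm, zero_add] at e1
      exact e1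
    funext i
    rcases i with (i | (⟨i, a⟩ | ⟨b, i⟩) | i) | i
    · rfl
    · refine Fin.cases ?_ (fun i => ?_) i
      · show (zz (fun i => y (Sum.inl i)) 0 a +
          ∑ i, y (Sum.inr i) * zz (fun i => y (Sum.inl i)) i.succ a) -
          ∑ i : Fin j, bf (cc fun i => y (Sum.inl i)) (fun a => zz (fun i => y (Sum.inl i)) 0 a +
            ∑ i, y (Sum.inr i) * zz (fun i => y (Sum.inl i)) i.succ a)
            (ww (fun i => y (Sum.inl i)) i.succ) * zz (fun i => y (Sum.inl i)) i.succ a = _
        simp only [hs]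
        exact add_sub_cancel_right _ _
      · rfl
    · refine Fin.cases ?_ (fun i => ?_) i
      · rfl
      · rfl
    · rfl
    · exact hs i

/-- **One more vector in the kernel.** -/
theorem good_ms_step (hQ : RingCP Q) (P : Set (A × B)) (j k : ℕ)
    (h1 : Good Q (mS P j k)) (h2 : Good Q (mS P (j + 1) k)) : Good Q (mS P j (k + 1)) := by
  have h3 := ((good_hyp2 hQ (baS P j k) (cuF A B j k)).1 (good_baS hQ P j k h1)).2
    (good_hypS hQ P j k h2)
  refine (hQ.good_congr fun R _ x => ?_).1 h3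
  rw [pt_union_range, pt_baS, pt_mS']
  simp only [ev_cuF]
  constructor
  · rintro ⟨⟨⟨h4, h5, h6⟩, _⟩, h7⟩
    refine ⟨h4, h5, fun a l => ?_⟩
    refine Fin.cases (h7 a) (fun l => h6 a l) l
  · rintro ⟨h4, h5, h6⟩
    refine ⟨⟨⟨h4, h5, fun a l => h6 a l.succ⟩, fun i => ?_⟩, fun a => h6 a 0⟩
    rw [bf_eq]
    exact Finset.sum_eq_zero fun a _ => by rw [h6 a 0, mul_zero]

end

end Pool.Agent.PZ
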