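import Pool.Agent.PZ.Rk2

/-!
# Matrices of rank at most two with prescribed zeros

The class contains the schemes of matrices of rank at most two with prescribed zeros as soon as it
contains the point.
-/

set_option autoImplicit false
set_option linter.unusedSectionVars false

open MvPolynomial
open Pool.Agent.Helper81.CP Pool.Agent.Helper81.HG Pool.Agent.Helper45.RM

namespace Pool.Agent.PZ

variable {G : ∀ (R : Type) [CommRing R], Prop}

/-! ### Glueing -/

/-- if the common zeros of the functions `f w` and all the open sets where some of them are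
invertible belong to the class, then the whole scheme does -/
lemma gs_of_prod (hG : RG G) {σ W : Type} [Finite σ] [Fintype W] (E : Set (MvPolynomial σ ℤ))
    (f : W → MvPolynomial σ ℤ) (h0 : GS G (E ∪ Set.range f))
    (h : ∀ F : Finset W, F.Nonempty → GO G E (∏ w ∈ F, f w)) : GS G E := by
  classical
  have key : ∀ (A : Finset W) (F : Finset W), F.Nonempty →
      GO G (E ∪ f '' ↑A) (∏ w ∈ F, f w) := by
    intro A
    induction A using Finset.induction_on with
    | empty =>
      intro F hF
      rw [Finset.coe_empty, Set.image_empty, Set.union_empty]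
      exact h F hF
    | insert a A ha ih =>
      intro F hF
      rw [Finset.coe_insert, Set.image_insert_eq, Set.union_insert]
      refine hG.gl_closed (f a) (ih F hF) ?_
      by_cases haF : a ∈ F
      · refine (hG.gl_congr fun R _ x => and_congr_right fun _ => ?_).1 (ih F hF)
        rw [map_mul, map_prod, IsUnit.mul_iff, isUnit_prod_iff]
        exact ⟨fun h1 => ⟨h1, h1 a haF⟩, fun h1 => h1.1⟩
      · have h1 := ih (insert a F) ⟨a, Finset.mem_insert_self a F⟩
        rwa [Finset.prod_insert haF, mul_comm] at h1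
  have key2 : ∀ (A B : Finset W), (∀ w, w ∈ B ↔ w ∉ A) → GS G (E ∪ f '' ↑B) := by
    intro A
    induction A using Finset.induction_on with
    | empty =>
      intro B hB
      have h1 : (↑B : Set W) = Set.univ := by
        ext w
        simp [hB]
      rw [h1, Set.image_univ]
      exact h0
    | insert a A ha ih =>
      intro B hB
      have haB : a ∉ B := by
        rw [hB]
        simp
      refine hG.gs_glue (p := f a) ?_ ?_
      · have h1 := ih (insert a B) fun w => by
          rw [Finset.mem_insert, hB, Finset.mem_insert]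
          constructor
          · rintro (rfl | h2)
            · exact ha
            · exact fun h3 => h2 (Or.inr h3)
          · intro h2
            by_cases hw : w = a
            · exact Or.inl hw
            · exact Or.inr fun h3 => h3.elim hw h2
        rwa [Finset.coe_insert, Set.image_insert_eq, Set.union_insert] at h1
      · have h1 := key B {a} ⟨a, Finset.mem_singleton_self a⟩
        rwa [Finset.prod_singleton] at h1
  have h1 := key2 Finset.univ ∅ fun w => by simp
  rwa [Finset.coe_empty, Set.image_empty, Set.union_empty] at h1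

/-- from the patterns of zero and invertible coordinates to the system -/
lemma gs_of_pat (hG : RG G) {σ : Type} [Fintype σ] (E : Set (MvPolynomial σ ℤ))
    (h : ∀ T : Finset σ, GO G (E ∪ (fun i => (X i : MvPolynomial σ ℤ)) '' {i | i ∉ T})
      (∏ i ∈ T, X i)) : GS G E := by
  classical
  have key : ∀ (U : Finset σ) (Z : Set σ) (T : Finset σ), (∀ i, i ∈ T ↔ i ∉ Z ∧ i ∉ U) →
      GO G (E ∪ (fun i => (X i : MvPolynomial σ ℤ)) '' Z) (∏ i ∈ T, X i) := by
    intro U
    induction U using Finset.induction_on with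
    | empty =>
      intro Z T hT
      have h1 : Z = {i | i ∉ T} := by
        ext i
        simp only [Set.mem_ofPred_eq, hT, Finset.notMem_empty, not_false_eq_true, and_true, not_not]
      rw [h1]
      exact h T
    | insert a U ha ih =>
      intro Z T hT
      by_cases haZ : a ∈ Z
      · refine ih Z T fun i => ?_
        rw [hT, Finset.mem_insert]
        constructor
        · rintro ⟨h1, h2⟩
          exact ⟨h1, fun h3 => h2 (Or.inr h3)⟩
        · rintro ⟨h1, h2⟩
          refine ⟨h1, ?_⟩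
          rintro (rfl | h3)
          · exact h1 haZ
          · exact h2 h3
      · have haT : a ∉ T := by
          rw [hT]
          simp
        refine hG.gl_glue (X a) ?_ ?_
        · have h1 := ih (insert a Z) T fun i => by
            rw [hT, Finset.mem_insert, Set.mem_insert_iff]
            tauto
          rwa [Set.image_insert_eq, Set.union_insert] at h1
        · have h1 := ih Z (insert a T) fun i => by
            rw [Finset.mem_insert, hT, Finset.mem_insert]
            constructor
            · rintro (rfl | ⟨h1, h2⟩)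
              · exact ⟨haZ, ha⟩
              · exact ⟨h1, fun h3 => h2 (Or.inr h3)⟩
            · rintro ⟨h1, h2⟩
              by_cases hi : i = a
              · exact Or.inl hi
              · exact Or.inr ⟨h1, fun h3 => h3.elim hi h2⟩
          rw [Finset.prod_insert haT, mul_comm] at h1
          exact h1
  have h1 := key Finset.univ ∅ ∅ fun i => by simp
  rwa [Finset.prod_empty, hG.gl_one, Set.image_empty, Set.union_empty] at h1

/-! ### The points of the rank systems -/

lemma pt_rk {V : Type} {r : ℕ} {S : Set (V × V)} {R : Type} [CommRing R] {x : V × V → R} :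
    Pt (rkS r S) x ↔ (∀ e, e ∉ S → x e = 0) ∧ ∀ a b : Fin (r + 1) → V,
      (Matrix.of fun i j => x (a i, b j)).det = 0 := by
  have h1 : Pt (rkS r S) x ↔ Pt (zS S) x ∧ ∀ p : (Fin (r + 1) → V) × (Fin (r + 1) → V),
      ev x (Matrix.of fun i j => (X (p.1 i, p.2 j) : MvPolynomial (V × V) ℤ)).det = 0 := by
    unfold rkS Pt
    simp only [Set.mem_union, or_imp, forall_and, Set.forall_mem_range]
  rw [h1, pt_zs]
  simp only [Prod.forall, ev_det, Matrix.of_apply, ev_X]

lemma pt_rk0 {V : Type} {S : Set (V × V)} {R : Type} [CommRing R] {x : V × V → R} :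
    Pt (rkS 0 S) x ↔ ∀ e, x e = 0 := by
  rw [pt_rk]
  constructor
  · rintro ⟨_, h⟩ e
    have h1 := h (fun _ => e.1) fun _ => e.2
    exact (Matrix.det_fin_one _).symm.trans h1
  · intro h
    refine ⟨fun e _ => h e, fun a b => ?_⟩
    exact (Matrix.det_fin_one _).trans (h _)

lemma pt_rk1 {V : Type} {S : Set (V × V)} {R : Type} [CommRing R] {x : V × V → R} :
    Pt (rkS 1 S) x ↔ (∀ e, e ∉ S → x e = 0) ∧ ∀ i i' j j' : V,
      x (i, j) * x (i', j') = x (i, j') * x (i', j) := by
  rw [pt_rk]
  refine and_congr_right fun _ => ?_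
  constructor
  · intro h i i' j j'
    have h1 := h ![i, i'] ![j, j']
    rw [Matrix.det_fin_two] at h1
    simpa [sub_eq_zero] using h1
  · intro h a b
    rw [Matrix.det_fin_two]
    simp only [Matrix.of_apply, h (a 0) (a 1) (b 0) (b 1), sub_self]

/-- the rank is at most one if and only if it is at most two and the minors of order two vanish -/
lemma pt_rk2_mi {V : Type} {S : Set (V × V)} {R : Type} [CommRing R] {x : V × V → R} :
    Pt (rkS 2 S ∪ Set.range (mi (V := V))) x ↔ Pt (rkS 1 S) x := by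
  have h1 : Pt (rkS 2 S ∪ Set.range (mi (V := V))) x ↔
      Pt (rkS 2 S) x ∧ ∀ p : (V × V) × (V × V), ev x (mi p) = 0 := by
    unfold Pt
    simp only [Set.mem_union, or_imp, forall_and, Set.forall_mem_range]
  rw [h1, pt_rk1, pt_rk]
  constructor
  · rintro ⟨⟨h2, _⟩, h3⟩
    refine ⟨h2, fun i i' j j' => ?_⟩
    have h4 := h3 ((i, i'), (j, j'))
    unfold mi at h4
    rwa [map_sub, map_mul, map_mul, ev_X, ev_X, ev_X, ev_X, sub_eq_zero] at h4
  · rintro ⟨h2, h3⟩
    refine ⟨⟨h2, fun a b => ?_⟩, fun p => ?_⟩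
    · rw [Matrix.det_fin_three]
      simp only [Matrix.of_apply]
      have e1 := h3 (a 1) (a 2) (b 1) (b 2)
      have e2 := h3 (a 1) (a 2) (b 0) (b 2)
      have e3 := h3 (a 1) (a 2) (b 0) (b 1)
      linear_combination x (a 0, b 0) * e1 - x (a 0, b 1) * e2 + x (a 0, b 2) * e3
    · unfold mi
      rw [map_sub, map_mul, map_mul, ev_X, ev_X, ev_X, ev_X, sub_eq_zero]
      exact h3 _ _ _ _

/-! ### Rank one -/

section one

variable {V : Type} [Fintype V] {S : Set (V × V)}

lemma lc_one {T : Finset (V × V)} {R : Type} [CommRing R] {x : V × V → R} :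
    Lc (rkS 1 S ∪ (fun i => (X i : MvPolynomial (V × V) ℤ)) '' {i | i ∉ T}) (∏ i ∈ T, X i) x ↔
      ((∀ e, e ∉ S → x e = 0) ∧ ∀ i i' j j' : V, x (i, j) * x (i', j') = x (i, j') * x (i', j)) ∧
        (∀ e, e ∉ T → x e = 0) ∧ ∀ e ∈ T, IsUnit (x e) := by
  unfold Lc
  rw [Rk.pt_union, Rk.pt_xs, pt_rk1, map_prod, isUnit_prod_iff]
  simp only [Set.mem_ofPred_eq, ev_X]
  tauto

lemma lc_coord {σ : Type} {Z : Set σ} {U : Finset σ} {R : Type} [CommRing R] {y : σ → R} :
    Lc ((fun i => (X i : MvPolynomial σ ℤ)) '' Z) (∏ i ∈ U, X i) y ↔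
      (∀ i ∈ Z, y i = 0) ∧ ∀ i ∈ U, IsUnit (y i) := by
  unfold Lc
  rw [Rk.pt_xs, map_prod, isUnit_prod_iff]
  simp only [ev_X]

/-- the pattern of a rectangle -/
lemma go_rect (hG : RG G) (h0 : GS G (∅ : Set (MvPolynomial Empty ℤ))) (T : Finset (V × V))
    (hTS : ∀ e ∈ T, e ∈ S) (i₀ j₀ : V) (h00 : (i₀, j₀) ∈ T)
    (hT : ∀ i j, (i, j) ∈ T ↔ (i, j₀) ∈ T ∧ (i₀, j) ∈ T) :
    GO G (rkS 1 S ∪ (fun i => (X i : MvPolynomial (V × V) ℤ)) '' {i | i ∉ T}) (∏ i ∈ T, X i) := by
  classical
  let Z : Set (V ⊕ V) := {o | Sum.elim (fun i => (i, j₀) ∉ T) (fun j => (i₀, j) ∉ T ∨ j = j₀) o}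
  let U : Finset (V ⊕ V) := Finset.univ.filter fun o =>
    Sum.elim (fun i => (i, j₀) ∈ T) (fun j => (i₀, j) ∈ T ∧ j ≠ j₀) o
  have hL : ∀ {R : Type} [CommRing R] {y : V ⊕ V → R},
      Lc ((fun i => (X i : MvPolynomial (V ⊕ V) ℤ)) '' Z) (∏ i ∈ U, X i) y ↔
      ((∀ i, (i, j₀) ∉ T → y (Sum.inl i) = 0) ∧
        ∀ j, (i₀, j) ∉ T ∨ j = j₀ → y (Sum.inr j) = 0) ∧
      (∀ i, (i, j₀) ∈ T → IsUnit (y (Sum.inl i))) ∧
        ∀ j, (i₀, j) ∈ T ∧ j ≠ j₀ → IsUnit (y (Sum.inr j)) := by
    intro R _ y
    rw [lc_coord]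
    simp only [Z, U, Finset.mem_filter, Finset.mem_univ, true_and, Set.mem_ofPred_eq, Sum.forall,
      Sum.elim_inl, Sum.elim_inr]
  refine (hG.gl_iso (E := rkS 1 S ∪ (fun i => (X i : MvPolynomial (V × V) ℤ)) '' {i | i ∉ T})
    (p := ∏ i ∈ T, X i) (E' := (fun i => (X i : MvPolynomial (V ⊕ V) ℤ)) '' Z)
    (p' := ∏ i ∈ U, X i)
    (fun R _ x => Sum.elim (fun i => x (i, j₀))
      fun j => if j = j₀ then 0 else x (i₀, j) * Ring.inverse (x (i₀, j₀)))
    (fun R _ y e => y (Sum.inl e.1) * if e.2 = j₀ then 1 else y (Sum.inr e.2))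
    ?_ ?_ ?_ ?_ ?_ ?_).2 (go_coord hG h0 U Z)
  · intro A B _ _ φ x hx o
    rw [lc_one] at hx
    rcases o with i | j
    · rfl
    · simp only [Sum.elim_inr]
      split_ifs with hj
      · exact map_zero φ
      · rw [map_mul, map_inv_of_unit φ (hx.2.2 _ h00)]
  · intro A B _ _ φ y _ e
    show φ (y (Sum.inl e.1) * if e.2 = j₀ then 1 else y (Sum.inr e.2)) = _
    rw [map_mul]
    split_ifs
    · rw [map_one]
    · rfl
  · intro R _ x hx
    rw [lc_one] at hx
    obtain ⟨⟨_, hr⟩, hz, hu⟩ := hx
    rw [hL]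
    simp only [Sum.elim_inl, Sum.elim_inr]
    refine ⟨⟨fun i hi => hz _ hi, fun j hj => ?_⟩, fun i hi => hu _ hi, fun j hj => ?_⟩
    · split_ifs with h1
      · rfl
      · rw [hz _ (hj.resolve_right h1), zero_mul]
    · rw [if_neg hj.2]
      exact (hu _ hj.1).mul ((hu _ h00).ringInverse)
  · intro R _ y hy
    rw [hL] at hy
    obtain ⟨⟨hz1, hz2⟩, hu1, hu2⟩ := hy
    rw [lc_one]
    have hz : ∀ i j : V, (i, j) ∉ T →
        y (Sum.inl i) * (if j = j₀ then 1 else y (Sum.inr j)) = 0 := by
      intro i j hij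
      rw [hT, not_and_or] at hij
      rcases hij with h1 | h1
      · rw [hz1 i h1, zero_mul]
      · have h2 : j ≠ j₀ := by
          rintro rfl
          exact h1 h00
        rw [if_neg h2, hz2 j (Or.inl h1), mul_zero]
    refine ⟨⟨fun e he => hz e.1 e.2 fun h1 => he (hTS _ h1), fun i i' j j' => by
      show (y (Sum.inl i) * if j = j₀ then 1 else y (Sum.inr j)) *
        (y (Sum.inl i') * if j' = j₀ then 1 else y (Sum.inr j')) =
        (y (Sum.inl i) * if j' = j₀ then 1 else y (Sum.inr j')) *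
        (y (Sum.inl i') * if j = j₀ then 1 else y (Sum.inr j))
      ring⟩, fun e he => hz e.1 e.2 he, fun e he => ?_⟩
    have h1 := (hT e.1 e.2).1 he
    show IsUnit (y (Sum.inl e.1) * if e.2 = j₀ then 1 else y (Sum.inr e.2))
    refine (hu1 _ h1.1).mul ?_
    split_ifs with h2
    · exact isUnit_one
    · exact hu2 _ ⟨h1.2, h2⟩
  · intro R _ x hx
    rw [lc_one] at hx
    obtain ⟨⟨_, hr⟩, _, hu⟩ := hx
    funext e
    obtain ⟨i, j⟩ := e
    simp only [Sum.elim_inl, Sum.elim_inr]
    split_ifs with h1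
    · rw [h1, mul_one]
    · have h2 := hr i i₀ j₀ j
      have h3 := Ring.mul_inverse_cancel _ (hu _ h00)
      linear_combination Ring.inverse (x (i₀, j₀)) * h2 + x (i, j) * h3
  · intro R _ y hy
    rw [hL] at hy
    obtain ⟨⟨_, hz2⟩, hu1, _⟩ := hy
    funext o
    rcases o with i | j
    · simp
    · simp only [Sum.elim_inr, if_true, mul_one]
      split_ifs with h1
      · rw [h1, hz2 j₀ (Or.inr rfl)]
      · have h3 := Ring.mul_inverse_cancel _ (hu1 i₀ h00)
        linear_combination y (Sum.inr j) * h3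

theorem gs_rk1 (hG : RG G) (h0 : GS G (∅ : Set (MvPolynomial Empty ℤ))) (S : Set (V × V)) :
    GS G (rkS 1 S) := by
  classical
  refine gs_of_pat hG _ fun T => ?_
  by_cases hTS : ∀ e ∈ T, e ∈ S
  · rcases T.eq_empty_or_nonempty with rfl | ⟨⟨i₀, j₀⟩, h00⟩
    · refine (hG.gl_congr fun R _ x => ?_).1 (go_coord hG h0 (∅ : Finset (V × V)) Set.univ)
      rw [lc_coord, lc_one]
      simp only [Set.mem_univ, true_implies, Finset.notMem_empty, not_false_eq_true,
        IsEmpty.forall_iff, implies_true, and_true]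
      constructor
      · intro h
        exact ⟨⟨fun e _ => h e, fun i i' j j' => by rw [h (i, j), h (i, j'), zero_mul, zero_mul]⟩, h⟩
      · exact fun h => h.2
    · by_cases hT : ∀ i j, (i, j) ∈ T ↔ (i, j₀) ∈ T ∧ (i₀, j) ∈ T
      · exact go_rect hG h0 T hTS i₀ j₀ h00 hT
      · push Not at hT
        obtain ⟨i, j, hij⟩ := hT
        refine go_of_false hG fun R _ x hx => ?_
        rw [lc_one] at hx
        obtain ⟨⟨_, hr⟩, hz, hu⟩ := hx
        have h1 := hr i i₀ j j₀
        have key : IsUnit (0 : R) := by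
          rcases hij with ⟨h2, h3⟩ | ⟨h2, h3, h4⟩
          · have h4 := (hu _ h2).mul (hu _ h00)
            rw [h1] at h4
            by_cases h5 : (i, j₀) ∈ T
            · rw [hz _ (h3 h5), mul_zero] at h4
              exact h4
            · rw [hz _ h5, zero_mul] at h4
              exact h4
          · have h5 := (hu _ h3).mul (hu _ h4)
            rw [← h1, hz _ h2, zero_mul] at h5
            exact h5
        exact (isUnit_zero_iff.mp key).symm
  · push Not at hTS
    obtain ⟨e, he, heS⟩ := hTS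
    refine go_of_false hG fun R _ x hx => ?_
    rw [lc_one] at hx
    have key : IsUnit (0 : R) := by
      have h1 := hx.2.2 e he
      rwa [hx.1.1 e heS] at h1
    exact (isUnit_zero_iff.mp key).symm

theorem gs_rk0 (hG : RG G) (h0 : GS G (∅ : Set (MvPolynomial Empty ℤ))) (S : Set (V × V)) :
    GS G (rkS 0 S) := by
  refine (hG.gs_congr fun R _ x => ?_).1 (gs_coord hG h0 (Set.univ : Set (V × V)))
  rw [Rk.pt_xs, pt_rk0]
  simp

theorem gs_rk2 (hG : RG G) (h0 : GS G (∅ : Set (MvPolynomial Empty ℤ))) (S : Set (V × V)) :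
    GS G (rkS 2 S) :=
  gs_of_prod hG (rkS 2 S) (mi (V := V))
    ((hG.gs_congr fun _ _ _ => pt_rk2_mi).2 (gs_rk1 hG h0 S)) fun F hF => go_rk2 hG h0 S F hF

/-- matrices of rank at most `r ≤ 2` with prescribed zeros -/
theorem gs_rk (hG : RG G) (h0 : GS G (∅ : Set (MvPolynomial Empty ℤ))) (r : ℕ) (hr : r ≤ 2)
    (S : Set (V × V)) : GS G (rkS r S) := by
  interval_cases r
  · exact gs_rk0 hG h0 S
  · exact gs_rk1 hG h0 S
  · exact gs_rk2 hG h0 S

end one

end Pool.Agent.PZ
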