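import Pool.Agent.PZ.Pat

/-!
# Matrices of determinant one with prescribed zeros (helper29)

The scheme of invertible matrices with zeros outside `S` is the product of the multiplicative group
and the scheme of matrices of determinant one: multiply one row by the determinant.
-/

set_option autoImplicit false

open MvPolynomial
open Pool.Agent.Helper81.CP Pool.Agent.Helper81.HG Pool.Agent.Helper45.RM

namespace Pool.Agent.PZ

variable {G : ∀ (R : Type) [CommRing R], Prop}

lemma mx_scl {V : Type} [DecidableEq V] {R : Type} [CommRing R] (i₀ : V) (c : R)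
    (x : V × V → R) : mx (scl {e | e.1 = i₀} c x) = (mx x).updateRow i₀ (c • (mx x) i₀) := by
  ext i j
  rw [Matrix.updateRow_apply]
  unfold scl
  by_cases h : i = i₀
  · subst h
    simp
  · simp [h]

lemma det_scl {V : Type} [Fintype V] [DecidableEq V] {R : Type} [CommRing R] (i₀ : V) (c : R)
    (x : V × V → R) : (mx (scl {e | e.1 = i₀} c x)).det = c * (mx x).det := by
  rw [mx_scl, Matrix.det_updateRow_smul, Matrix.updateRow_eq_self]

/-- **Matrices of determinant one.** -/
theorem ug_of_sl (hG : RG G) {V : Type} [Fintype V] [DecidableEq V] (S : Set (V × V))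
    (h : GS G (slS S)) : UG G S := by
  rcases isEmpty_or_nonempty V with hV | ⟨⟨i₀⟩⟩
  · have h1 : dP V = 1 := by
      unfold dP
      exact Matrix.det_isEmpty
    have h2 : GS G (zS S) := by
      refine (hG.gs_congr fun R _ x => ?_).1 h
      unfold slS
      rw [Pt.insert_iff, h1, sub_self, map_zero]
      exact and_iff_right rfl
    unfold UG
    rw [h1]
    exact (hG.gl_one _).2 h2
  · have h1 := hG.gl_scale (E := zS S) (p := 1) {e | e.1 = i₀} (dP V) (fun R _ x c _ hx => by
      unfold Lc at hx ⊢
      rw [pt_zs] at hx ⊢
      rw [map_one] at hx ⊢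
      refine ⟨fun e he => ?_, isUnit_one⟩
      unfold scl
      split_ifs
      · rw [hx.1 e he, mul_zero]
      · exact hx.1 e he) (fun R _ x c => by
      rw [ev_dP, ev_dP, det_scl])
    rw [one_mul] at h1
    exact h1.2 ((hG.gl_one _).2 h)

end Pool.Agent.PZ
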