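import Pool.Agent.PZ.Big

/-!
# From three positions in each row and column to arbitrary matrices

If a row has at least four positions, two of them are moved to a new row; the new column has the
two entries `a`, `b` in the old and the new row. The matrices with `a`, `b` invertible are the
product of the old scheme and a torus.
-/

set_option autoImplicit false
set_option linter.unusedSectionVars false

open MvPolynomial
open Pool.Agent.Helper81.CP Pool.Agent.Helper81.HG Pool.Agent.Helper45.RM

namespace Pool.Agent.PZ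

variable {G : ∀ (R : Type) [CommRing R], Prop}

namespace Spl

section
variable {V : Type} [Fintype V] [DecidableEq V]

/-- the positions after the splitting of the row `r` -/
def spl (S : Set (V × V)) (r c c' : V) : Set ((V ⊕ Unit) × (V ⊕ Unit)) :=
  {e | match e with
    | (.inl i, .inl j) => (i, j) ∈ S ∧ ¬ (i = r ∧ (j = c ∨ j = c'))
    | (.inr _, .inl j) => j = c ∨ j = c'
    | (.inl i, .inr _) => i = r
    | (.inr _, .inr _) => True}

/-- from the split matrix to the original one and the two entries of the new column -/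
def sF (r : V) {R : Type} [CommRing R] (x : (V ⊕ Unit) × (V ⊕ Unit) → R) :
    (V × V) ⊕ Bool → R :=
  Sum.elim
    (fun e => if e.1 = r then x (.inr (), .inr ()) * x (.inl r, .inl e.2) -
      x (.inl r, .inr ()) * x (.inr (), .inl e.2) else x (.inl e.1, .inl e.2))
    (fun t => cond t (x (.inl r, .inr ())) (x (.inr (), .inr ())))

/-- the way back -/
noncomputable def sB (r c c' : V) {R : Type} [CommRing R] (y : (V × V) ⊕ Bool → R) :
    (V ⊕ Unit) × (V ⊕ Unit) → R := fun e => match e with
  | (.inl i, .inl j) => if i = r then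
      (if j = c ∨ j = c' then 0 else Ring.inverse (y (.inr false)) * y (.inl (r, j)))
      else y (.inl (i, j))
  | (.inr _, .inl j) => if j = c ∨ j = c' then
      -(Ring.inverse (y (.inr true)) * y (.inl (r, j))) else 0
  | (.inl i, .inr _) => if i = r then y (.inr true) else 0
  | (.inr _, .inr _) => y (.inr false)

lemma det_spl {S : Set (V × V)} {r c c' : V} {R : Type} [CommRing R]
    {x : (V ⊕ Unit) × (V ⊕ Unit) → R} (hx : ∀ e, e ∉ spl S r c c' → x e = 0)
    (hb : IsUnit (x (.inr (), .inr ()))) :
    (mx x).det = (mx fun e => sF r x (Sum.inl e)).det := by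
  let a : R := x (.inl r, .inr ())
  let b : R := x (.inr (), .inr ())
  let A : Matrix V V R := Matrix.of fun i j => x (.inl i, .inl j)
  let B : Matrix V Unit R := Matrix.of fun i _ => x (.inl i, .inr ())
  let C : Matrix Unit V R := Matrix.of fun _ j => x (.inr (), .inl j)
  have h1 : mx x = Matrix.fromBlocks A B C (Matrix.diagonal fun _ : Unit => b) := by
    ext (i | i) (j | j)
    · rfl
    · rfl
    · rfl
    · rw [Matrix.fromBlocks_apply₂₂, Matrix.diagonal_apply, if_pos (Subsingleton.elim _ _)]
      rfl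
  rw [h1, det_schur _ _ _ _ fun _ => hb]
  let M : Matrix V V R := A - B * Matrix.diagonal (fun _ : Unit => Ring.inverse b) * C
  have hM : ∀ i j, M i j = x (.inl i, .inl j) -
      x (.inl i, .inr ()) * Ring.inverse b * x (.inr (), .inl j) := by
    intro i j
    show A i j - (B * Matrix.diagonal (fun _ : Unit => Ring.inverse b) * C) i j = _
    rw [Matrix.mul_apply, Finset.univ_unique, Finset.sum_singleton, Matrix.mul_diagonal]
    rfl
  have h2 : (mx fun e => sF r x (Sum.inl e)) = M.updateRow r (b • M r) := by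
    ext i j
    rw [mx_apply]
    show (if i = r then _ else _) = _
    by_cases hi : i = r
    · subst hi
      rw [if_pos rfl, Matrix.updateRow_self, Pi.smul_apply, hM, smul_eq_mul, mul_sub]
      show b * x (.inl i, .inl j) - a * x (.inr (), .inl j) = b * x (.inl i, .inl j) -
        b * (a * Ring.inverse b * x (.inr (), .inl j))
      have h3 : b * Ring.inverse b = 1 := Ring.mul_inverse_cancel _ hb
      linear_combination (a * x (.inr (), .inl j)) * h3
    · rw [if_neg hi, Matrix.updateRow_ne hi, hM,
        hx (.inl i, .inr ()) (fun h => hi h), zero_mul, zero_mul, sub_zero]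
  rw [h2, Matrix.det_updateRow_smul, Matrix.updateRow_eq_self, Finset.univ_unique,
    Finset.prod_singleton]

lemma sB_tr (r c c' : V) {R : Type} [CommRing R] (y : (V × V) ⊕ Bool → R) :
    sB r c c' y (.inl r, .inr ()) = y (.inr true) := if_pos rfl

lemma sF_sB {r c c' : V} {R : Type} [CommRing R]
    {y : (V × V) ⊕ Bool → R} (ha : IsUnit (y (.inr true))) (hb : IsUnit (y (.inr false))) :
    sF r (sB r c c' y) = y := by
  funext i
  rcases i with ⟨i, j⟩ | t
  · show (if i = r then y (.inr false) * (if r = r then _ else _) -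
      (if r = r then _ else _) * (if j = c ∨ j = c' then _ else _) else
        (if i = r then _ else _)) = _
    by_cases hi : i = r
    · subst hi
      rw [if_pos rfl, if_pos rfl, if_pos rfl]
      by_cases hj : j = c ∨ j = c'
      · rw [if_pos hj, if_pos hj]
        have h3 : y (.inr true) * Ring.inverse (y (.inr true)) = 1 :=
          Ring.mul_inverse_cancel _ ha
        linear_combination (y (Sum.inl (i, j))) * h3
      · rw [if_neg hj, if_neg hj]
        have h3 : y (.inr false) * Ring.inverse (y (.inr false)) = 1 :=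
          Ring.mul_inverse_cancel _ hb
        linear_combination (y (Sum.inl (i, j))) * h3
    · rw [if_neg hi, if_neg hi]
  · cases t
    · rfl
    · exact if_pos rfl

lemma sB_sF {S : Set (V × V)} {r c c' : V} {R : Type} [CommRing R]
    {x : (V ⊕ Unit) × (V ⊕ Unit) → R} (hx : ∀ e, e ∉ spl S r c c' → x e = 0)
    (ha : IsUnit (x (.inl r, .inr ()))) (hb : IsUnit (x (.inr (), .inr ()))) :
    sB r c c' (sF r x) = x := by
  funext e
  rcases e with ⟨i | i, j | j⟩
  · show (if i = r then (if j = c ∨ j = c' then 0 else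
      Ring.inverse (x (.inr (), .inr ())) * (if r = r then _ else _)) else
        (if i = r then _ else _)) = _
    by_cases hi : i = r
    · subst hi
      rw [if_pos rfl, if_pos rfl]
      by_cases hj : j = c ∨ j = c'
      · rw [if_pos hj]
        exact (hx (.inl i, .inl j) fun h => h.2 ⟨rfl, hj⟩).symm
      · rw [if_neg hj, hx (.inr (), .inl j) fun h => hj h, mul_zero, sub_zero, ← mul_assoc,
          Ring.inverse_mul_cancel _ hb, one_mul]
    · rw [if_neg hi, if_neg hi]
  · show (if i = r then x (.inl r, .inr ()) else 0) = _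
    by_cases hi : i = r
    · subst hi
      rw [if_pos rfl]
    · rw [if_neg hi]
      exact (hx (.inl i, .inr j) fun h => hi h).symm
  · show (if j = c ∨ j = c' then -(Ring.inverse (x (.inl r, .inr ())) *
      (if r = r then x (.inr (), .inr ()) * x (.inl r, .inl j) -
        x (.inl r, .inr ()) * x (.inr (), .inl j) else _)) else 0) = _
    by_cases hj : j = c ∨ j = c'
    · rw [if_pos hj, if_pos rfl, hx (.inl r, .inl j) fun h => h.2 ⟨rfl, hj⟩]
      have h3 : Ring.inverse (x (.inl r, .inr ())) * x (.inl r, .inr ()) = 1 :=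
        Ring.inverse_mul_cancel _ ha
      show _ = x (.inr (), .inl j)
      linear_combination (x (.inr (), .inl j)) * h3
    · rw [if_neg hj]
      exact (hx (.inr i, .inl j) fun h => hj h).symm
  · rfl

/-- the splitting of a row -/
lemma ug_spl (hG : RG G) {S : Set (V × V)} {r c c' : V} (hc : (r, c) ∈ S) (hc' : (r, c') ∈ S)
    (h : ∀ T, T ⊆ spl S r c c' → UG G T) : UG G S := by
  have hne : ((.inl r, .inr ()) : (V ⊕ Unit) × (V ⊕ Unit)) ≠ (.inr (), .inr ()) := by
    intro h
    exact Sum.inl_ne_inr (congrArg Prod.fst h)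
  have h1 : GO G (zS (spl S r c c')) (dP (V ⊕ Unit) *
      ∏ e ∈ ({(.inl r, .inr ()), (.inr (), .inr ())} : Finset ((V ⊕ Unit) × (V ⊕ Unit))), X e) :=
    go_del hG _ _ h
  rw [Finset.prod_pair hne] at h1
  have hl : ∀ {R : Type} [CommRing R] {x : (V ⊕ Unit) × (V ⊕ Unit) → R},
      Lc (zS (spl S r c c')) (dP (V ⊕ Unit) * (X (.inl r, .inr ()) * X (.inr (), .inr ()))) x ↔
        (∀ e, e ∉ spl S r c c' → x e = 0) ∧ IsUnit (mx x).det ∧
          IsUnit (x (.inl r, .inr ())) ∧ IsUnit (x (.inr (), .inr ())) := by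
    intro R _ x
    unfold Lc
    rw [pt_zs, map_mul, map_mul, ev_dP, IsUnit.mul_iff, IsUnit.mul_iff, ev_X, ev_X]
  have hl' : ∀ {R : Type} [CommRing R] {y : (V × V) ⊕ Bool → R},
      Lc (rename (Sum.inl : V × V → (V × V) ⊕ Bool) '' zS S)
        (rename Sum.inl (dP V) * ∏ a : Bool, X (Sum.inr a)) y ↔
        (∀ e, e ∉ S → y (Sum.inl e) = 0) ∧ IsUnit (mx fun e => y (Sum.inl e)).det ∧
          IsUnit (y (Sum.inr true)) ∧ IsUnit (y (Sum.inr false)) := by
    intro R _ y
    rw [lc_times, lc_u, Bool.forall_bool]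
    tauto
  unfold UG
  rw [← go_times hG (τ := Bool)]
  refine (hG.gl_iso (fun R _ x => sF r x) (fun R _ y => sB r c c' y) ?_ ?_ ?_ ?_ ?_ ?_).1 h1
  · intro R R' _ _ φ x _ i
    rcases i with i | t
    · show φ (if _ then _ else _) = if _ then _ else _
      split_ifs
      · rw [map_sub, map_mul, map_mul]
      · rfl
    · cases t <;> rfl
  · intro R R' _ _ φ y hy e
    rw [hl'] at hy
    rcases e with ⟨i | i, j | j⟩
    · show φ (if i = r then (if j = c ∨ j = c' then 0 else
        Ring.inverse (y (.inr false)) * y (.inl (r, j))) else y (.inl (i, j))) =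
        if i = r then (if j = c ∨ j = c' then 0 else
        Ring.inverse (φ (y (.inr false))) * φ (y (.inl (r, j)))) else φ (y (.inl (i, j)))
      split_ifs
      · exact map_zero φ
      · rw [map_mul, map_inv_of_unit φ hy.2.2.2]
      · rfl
    · show φ (if i = r then _ else _) = if i = r then _ else _
      split_ifs
      · rfl
      · exact map_zero φ
    · show φ (if j = c ∨ j = c' then -(Ring.inverse (y (.inr true)) * y (.inl (r, j))) else 0) =
        if j = c ∨ j = c' then -(Ring.inverse (φ (y (.inr true))) * φ (y (.inl (r, j)))) else 0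
      split_ifs
      · rw [map_neg, map_mul, map_inv_of_unit φ hy.2.2.1]
      · exact map_zero φ
    · rfl
  · intro R _ x hx
    rw [hl] at hx
    rw [hl']
    refine ⟨fun e he => ?_, ?_, hx.2.2.1, hx.2.2.2⟩
    · obtain ⟨i, j⟩ := e
      show (if i = r then _ else _) = _
      by_cases hi : i = r
      · subst hi
        rw [if_pos rfl]
        have hj : ¬ (j = c ∨ j = c') := by
          rintro (rfl | rfl)
          · exact he hc
          · exact he hc'
        rw [hx.1 (.inl i, .inl j) fun h => he h.1, hx.1 (.inr (), .inl j) fun h => hj h]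
        ring
      · rw [if_neg hi]
        exact hx.1 (.inl i, .inl j) fun h => he h.1
    · rw [← det_spl hx.1 hx.2.2.2]
      exact hx.2.1
  · intro R _ y hy
    rw [hl'] at hy
    rw [hl]
    have h5 : ∀ e, e ∉ spl S r c c' → sB r c c' y e = 0 := by
      rintro ⟨i | i, j | j⟩ he
      · show (if i = r then (if j = c ∨ j = c' then 0 else
          Ring.inverse (y (.inr false)) * y (.inl (r, j))) else y (.inl (i, j))) = 0
        by_cases hi : i = r
        · subst hi
          rw [if_pos rfl]
          by_cases hj : j = c ∨ j = c'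
          · rw [if_pos hj]
          · rw [if_neg hj, hy.1 (i, j) fun h => he ⟨h, fun h' => hj h'.2⟩, mul_zero]
        · rw [if_neg hi]
          exact hy.1 (i, j) fun h => he ⟨h, fun h' => hi h'.1⟩
      · exact if_neg fun h => he h
      · exact if_neg fun h => he h
      · exact absurd trivial he
    have h6 : sB r c c' y (.inl r, .inr ()) = y (.inr true) := if_pos rfl
    have h7 : sB r c c' y (.inr (), .inr ()) = y (.inr false) := rfl
    refine ⟨h5, ?_, ?_, ?_⟩
    · rw [det_spl h5 (by rw [h7]; exact hy.2.2.2), sF_sB hy.2.2.1 hy.2.2.2]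
      exact hy.2.1
    · rw [h6]
      exact hy.2.2.1
    · rw [h7]
      exact hy.2.2.2
  · intro R _ x hx
    rw [hl] at hx
    exact sB_sF hx.1 hx.2.2.1 hx.2.2.2
  · intro R _ y hy
    rw [hl'] at hy
    exact sF_sB hy.2.2.1 hy.2.2.2

/-! ### The measure -/

/-- the number of the superfluous positions -/
noncomputable def ms (S : Set (V × V)) : ℕ :=
  ∑ i, ({j | (i, j) ∈ S}.ncard - 3) + ∑ j, ({i | (i, j) ∈ S}.ncard - 3)

lemma ms_mono {S T : Set (V × V)} (h : T ⊆ S) : ms T ≤ ms S := by
  unfold ms
  refine Nat.add_le_add (Finset.sum_le_sum fun i _ => Nat.sub_le_sub_right ?_ 3)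
    (Finset.sum_le_sum fun j _ => Nat.sub_le_sub_right ?_ 3)
  · exact Set.ncard_le_ncard (fun j hj => h hj) (Set.toFinite _)
  · exact Set.ncard_le_ncard (fun i hi => h hi) (Set.toFinite _)

lemma ms_swap (S : Set (V × V)) : ms {p : V × V | p.swap ∈ S} = ms S := add_comm _ _

lemma ms_spl {S : Set (V × V)} {r c c' : V} (hcc : c ≠ c') (hc : (r, c) ∈ S) (hc' : (r, c') ∈ S)
    (h4 : 4 ≤ {j | (r, j) ∈ S}.ncard) : ms (spl S r c c') < ms S := by
  have hr : ∀ i, i ≠ r → {w | (Sum.inl i, w) ∈ spl S r c c'}.ncard = {j | (i, j) ∈ S}.ncard := by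
    intro i hi
    have e1 : {w | (Sum.inl i, w) ∈ spl S r c c'} = Sum.inl '' {j | (i, j) ∈ S} := by
      ext (j | j)
      · constructor
        · intro h
          exact ⟨j, h.1, rfl⟩
        · rintro ⟨j', h, h'⟩
          cases h'
          exact ⟨h, fun h' => hi h'.1⟩
      · constructor
        · intro h
          exact absurd h hi
        · rintro ⟨j', h, h'⟩
          cases h'
    rw [e1, Set.ncard_image_of_injective _ Sum.inl_injective]
  have hr0 : {w | (Sum.inl r, w) ∈ spl S r c c'}.ncard + 1 ≤ {j | (r, j) ∈ S}.ncard := by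
    have e1 : {w | (Sum.inl r, w) ∈ spl S r c c'} ⊆
        insert (Sum.inr ()) (Sum.inl '' ({j | (r, j) ∈ S} \ {c, c'})) := by
      rintro (j | j) h
      · exact Or.inr ⟨j, ⟨h.1, fun h' => h.2 ⟨rfl, h'⟩⟩, rfl⟩
      · exact Or.inl rfl
    have e2 := (Set.ncard_le_ncard e1 (Set.toFinite _)).trans (Set.ncard_insert_le _ _)
    rw [Set.ncard_image_of_injective _ Sum.inl_injective, Set.ncard_sdiff (by
      rintro j (rfl | rfl)
      · exact hc
      · exact hc') (Set.toFinite _), Set.ncard_pair hcc] at e2
    omega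
  have hrn : {w | (Sum.inr (), w) ∈ spl S r c c'}.ncard ≤ 3 := by
    have e1 : {w | (Sum.inr (), w) ∈ spl S r c c'} ⊆
        ({Sum.inr (), Sum.inl c, Sum.inl c'} : Set (V ⊕ Unit)) := by
      rintro (j | j) h
      · rcases h with rfl | rfl
        · exact Or.inr (Or.inl rfl)
        · exact Or.inr (Or.inr rfl)
      · exact Or.inl rfl
    refine (Set.ncard_le_ncard e1 (Set.toFinite _)).trans ((Set.ncard_insert_le _ _).trans ?_)
    have e2 := Set.ncard_insert_le (Sum.inl c : V ⊕ Unit) {Sum.inl c'}
    rw [Set.ncard_singleton] at e2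
    omega
  have hk : ∀ j, {w | (w, Sum.inl j) ∈ spl S r c c'}.ncard ≤ {i | (i, j) ∈ S}.ncard := by
    intro j
    by_cases hj : j = c ∨ j = c'
    · have hrj : (r, j) ∈ S := by
        rcases hj with rfl | rfl
        · exact hc
        · exact hc'
      have e1 : {w | (w, Sum.inl j) ∈ spl S r c c'} ⊆
          insert (Sum.inr ()) (Sum.inl '' ({i | (i, j) ∈ S} \ {r})) := by
        rintro (i | i) h
        · exact Or.inr ⟨i, ⟨h.1, fun h' => h.2 ⟨h', hj⟩⟩, rfl⟩
        · exact Or.inl rfl
      have e2 := (Set.ncard_le_ncard e1 (Set.toFinite _)).trans (Set.ncard_insert_le _ _)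
      rw [Set.ncard_image_of_injective _ Sum.inl_injective] at e2
      have e3 : ({i | (i, j) ∈ S} \ {r}).ncard + 1 = {i | (i, j) ∈ S}.ncard :=
        Set.ncard_sdiff_singleton_add_one hrj (Set.toFinite _)
      omega
    · have e1 : {w | (w, Sum.inl j) ∈ spl S r c c'} ⊆ Sum.inl '' {i | (i, j) ∈ S} := by
        rintro (i | i) h
        · exact ⟨i, h.1, rfl⟩
        · exact absurd h hj
      have e2 := Set.ncard_le_ncard e1 (Set.toFinite _)
      rwa [Set.ncard_image_of_injective _ Sum.inl_injective] at e2
  have hkn : {w | (w, Sum.inr ()) ∈ spl S r c c'}.ncard ≤ 3 := by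
    have e1 : {w | (w, Sum.inr ()) ∈ spl S r c c'} ⊆
        ({Sum.inr (), Sum.inl r} : Set (V ⊕ Unit)) := by
      rintro (i | i) h
      · exact Or.inr (congrArg Sum.inl h)
      · exact Or.inl rfl
    have e2 := (Set.ncard_le_ncard e1 (Set.toFinite _)).trans (Set.ncard_insert_le _ _)
    rw [Set.ncard_singleton] at e2
    omega
  unfold ms
  rw [Fintype.sum_sum_type, Fintype.sum_sum_type, Finset.univ_unique (α := Unit),
    Finset.sum_singleton, Finset.sum_singleton]
  have s1 : ∑ i, ({w | (Sum.inl i, w) ∈ spl S r c c'}.ncard - 3) <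
      ∑ i, ({j | (i, j) ∈ S}.ncard - 3) := by
    refine Finset.sum_lt_sum (fun i _ => ?_) ⟨r, Finset.mem_univ r, ?_⟩
    · by_cases hi : i = r
      · subst hi
        omega
      · rw [hr i hi]
    · omega
  have s2 : ∑ j, ({w | (w, Sum.inl j) ∈ spl S r c c'}.ncard - 3) ≤
      ∑ j, ({i | (i, j) ∈ S}.ncard - 3) :=
    Finset.sum_le_sum fun j _ => Nat.sub_le_sub_right (hk j) 3
  have s3 : {w | (Sum.inr (default : Unit), w) ∈ spl S r c c'}.ncard - 3 = 0 :=
    Nat.sub_eq_zero_of_le hrn
  have s4 : {w | (w, Sum.inr (default : Unit)) ∈ spl S r c c'}.ncard - 3 = 0 :=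
    Nat.sub_eq_zero_of_le hkn
  omega

end

end Spl

open Spl in
/-- It suffices to consider the matrices with at most three positions in each row and column. -/
theorem ug_of_three (hG : RG G)
    (h : ∀ (V : Type) [Fintype V] [DecidableEq V] (S : Set (V × V)), Sp 3 S → UG G S)
    (V : Type) [Fintype V] [DecidableEq V] (S : Set (V × V)) : UG G S := by
  have key : ∀ (n : ℕ) (V : Type) [Fintype V] [DecidableEq V] (S : Set (V × V)), ms S = n →
      UG G S := by
    intro n
    induction n using Nat.strong_induction_on with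
    | _ n ih =>
      have row : ∀ (V : Type) [Fintype V] [DecidableEq V] (S : Set (V × V)), ms S = n →
          (∃ r, 4 ≤ {j | (r, j) ∈ S}.ncard) → UG G S := by
        intro V _ _ S hS ⟨r, hr⟩
        obtain ⟨c, hc, c', hc', hcc⟩ :=
          (Set.one_lt_ncard (Set.toFinite {j | (r, j) ∈ S})).1 (by omega)
        refine ug_spl hG hc hc' fun T hT => ih (ms T) ?_ _ T rfl
        exact hS ▸ lt_of_le_of_lt (ms_mono hT) (ms_spl hcc hc hc' hr)
      intro V _ _ S hS
      by_cases h1 : ∃ r, 4 ≤ {j | (r, j) ∈ S}.ncard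
      · exact row V S hS h1
      · by_cases h2 : ∃ k, 4 ≤ {i | (i, k) ∈ S}.ncard
        · rw [← ug_swap hG]
          exact row V _ ((ms_swap S).trans hS) h2
        · push Not at h1 h2
          exact h V S ⟨fun i => Nat.lt_succ_iff.1 (h1 i), fun j => Nat.lt_succ_iff.1 (h2 j)⟩
  exact key _ V S rfl

end Pool.Agent.PZ
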