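import Pool.Agent.PZ.Big
import Pool.Agent.KB.Girth

/-!
# Matrices with prescribed zeros: large girth

Each position `e = (i, j)` of `S` is replaced by the three positions `(i, e)`, `(e, e)`, `(e, j)`,
with a new row and a new column `e`.
-/

set_option autoImplicit false

open MvPolynomial
open Pool.Agent.Helper81.CP Pool.Agent.Helper81.HG Pool.Agent.Helper45.RM
open Pool.Agent.KB (Lip Cy girth_of_cy)

namespace Pool.Agent.PZ

variable {G : ∀ (R : Type) [CommRing R], Prop}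

section
variable {V : Type}

/-- the new positions -/
def sub (S : Set (V × V)) : Set ((V ⊕ ↥S) × (V ⊕ ↥S)) :=
  {p | match p with
    | (.inl i, .inr e) => e.1.1 = i
    | (.inr e, .inl j) => e.1.2 = j
    | (.inr e, .inr e') => e = e'
    | _ => False}

/-! ### The numbers of positions in rows and columns -/

lemma Sp.mono [Finite V] {d : ℕ} {S T : Set (V × V)} (h : Sp d S) (hT : T ⊆ S) : Sp d T :=
  ⟨fun i => (Set.ncard_le_ncard (s := {j | (i, j) ∈ T}) (t := {j | (i, j) ∈ S})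
      (fun _ hj => hT hj) (Set.toFinite _)).trans (h.1 i),
    fun j => (Set.ncard_le_ncard (s := {i | (i, j) ∈ T}) (t := {i | (i, j) ∈ S})
      (fun _ hi => hT hi) (Set.toFinite _)).trans (h.2 j)⟩

lemma sp_sub [Finite V] {S : Set (V × V)} (h : Sp 3 S) : Sp 3 (sub S) := by
  classical
  constructor
  · rintro (i | e)
    · have h1 : {j | (Sum.inl i, j) ∈ sub S} ⊆
          (fun j => if h : (i, j) ∈ S then Sum.inr ⟨(i, j), h⟩ else Sum.inl i) '' {j | (i, j) ∈ S} := by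
        rintro (j | e) he
        · exact absurd he (fun h => h)
        · have he' : e.1.1 = i := he
          subst he'
          exact ⟨e.1.2, e.2, dif_pos e.2⟩
      exact ((Set.ncard_le_ncard h1 (Set.toFinite _)).trans
        (Set.ncard_image_le (Set.toFinite _))).trans (h.1 i)
    · have h1 : {j | (Sum.inr e, j) ∈ sub S} ⊆ {Sum.inl e.1.2, Sum.inr e} := by
        rintro (j | e') he
        · have he' : e.1.2 = j := he
          exact Or.inl (congrArg Sum.inl he'.symm)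
        · have he' : e = e' := he
          exact Or.inr (congrArg Sum.inr he'.symm)
      exact ((Set.ncard_le_ncard h1 (Set.toFinite _)).trans (Set.ncard_insert_le _ _)).trans
        (by rw [Set.ncard_singleton]; norm_num)
  · rintro (j | e)
    · have h1 : {i | (i, Sum.inl j) ∈ sub S} ⊆
          (fun i => if h : (i, j) ∈ S then Sum.inr ⟨(i, j), h⟩ else Sum.inl i) '' {i | (i, j) ∈ S} := by
        rintro (i | e) he
        · exact absurd he (fun h => h)
        · have he' : e.1.2 = j := he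
          subst he'
          exact ⟨e.1.1, e.2, dif_pos e.2⟩
      exact ((Set.ncard_le_ncard h1 (Set.toFinite _)).trans
        (Set.ncard_image_le (Set.toFinite _))).trans (h.2 j)
    · have h1 : {i | (i, Sum.inr e) ∈ sub S} ⊆ {Sum.inl e.1.1, Sum.inr e} := by
        rintro (i | e') he
        · have he' : e.1.1 = i := he
          exact Or.inl (congrArg Sum.inl he'.symm)
        · have he' : e' = e := he
          exact Or.inr (congrArg Sum.inr he')
      exact ((Set.ncard_le_ncard h1 (Set.toFinite _)).trans (Set.ncard_insert_le _ _)).trans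
        (by rw [Set.ncard_singleton]; norm_num)

/-! ### Potentials -/

/-- a simple graph has no cycle with less than three edges -/
lemma cy_three' {W : Type} (H : SimpleGraph W) : Cy H (fun _ _ => 1) 3 := by
  classical
  intro s t hst
  have hne : s ≠ t := hst.ne
  refine ⟨fun x => if x = s then 0 else if x = t then 2 else 1, ?_, ?_⟩
  · intro x y hxy h1 h2
    have hxy' : x ≠ y := hxy.ne
    have h3 : ¬ (x = t ∧ y = s) := h2
    dsimp only
    split_ifs <;> first | omega | (exfalso; apply h3; constructor <;> assumption)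
  · simp [hne.symm]

lemma lip_neg' {W : Type} {Γ : SimpleGraph W} {s t : W} {φ : W → ℤ}
    (h : Lip Γ (fun _ _ => 1) s t φ) : Lip Γ (fun _ _ => 1) t s (fun x => - φ x) := by
  intro x y hxy h1 h2
  have := h y x hxy.symm (fun h3 => h1 ⟨h3.2, h3.1⟩) (fun h3 => h2 ⟨h3.2, h3.1⟩)
  dsimp only at this ⊢
  omega

lemma bg_adj {S : Set (V × V)} {i j : V} (h : (i, j) ∈ S) : (bg S).Adj (Sum.inl i) (Sum.inr j) :=
  Or.inl ⟨(i, j), h, rfl, rfl⟩

open scoped Classical in
/-- the potential on the new graph -/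
noncomputable def psi {S : Set (V × V)} (φ : V ⊕ V → ℤ) (e0 : ↥S) (α β : ℤ) :
    (V ⊕ ↥S) ⊕ (V ⊕ ↥S) → ℤ
  | .inl (.inl i) => 3 * φ (.inl i)
  | .inr (.inl j) => 3 * φ (.inr j)
  | .inr (.inr e) => if e = e0 then α else 2 * φ (.inl e.1.1) + φ (.inr e.1.2)
  | .inl (.inr e) => if e = e0 then β else φ (.inl e.1.1) + 2 * φ (.inr e.1.2)

/-- the three edges which replace `e` -/
def edA {S : Set (V × V)} (e : ↥S) : (V ⊕ ↥S) ⊕ (V ⊕ ↥S) := .inl (.inl e.1.1)
def edB {S : Set (V × V)} (e : ↥S) : (V ⊕ ↥S) ⊕ (V ⊕ ↥S) := .inr (.inr e)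
def edC {S : Set (V × V)} (e : ↥S) : (V ⊕ ↥S) ⊕ (V ⊕ ↥S) := .inl (.inr e)
def edD {S : Set (V × V)} (e : ↥S) : (V ⊕ ↥S) ⊕ (V ⊕ ↥S) := .inr (.inl e.1.2)

/-- `x` and `y` are consecutive vertices of the path which replaces `e` -/
def Cs {S : Set (V × V)} (e : ↥S) (x y : (V ⊕ ↥S) ⊕ (V ⊕ ↥S)) : Prop :=
  (x = edA e ∧ y = edB e) ∨ (x = edB e ∧ y = edC e) ∨ (x = edC e ∧ y = edD e)

lemma adj_sub {S : Set (V × V)} {x y : (V ⊕ ↥S) ⊕ (V ⊕ ↥S)} (h : (bg (sub S)).Adj x y) :
    ∃ e, Cs e x y ∨ Cs e y x := by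
  have key : ∀ {x y : (V ⊕ ↥S) ⊕ (V ⊕ ↥S)}, (∃ p ∈ sub S, x = Sum.inl p.1 ∧ y = Sum.inr p.2) →
      ∃ e, Cs e x y ∨ Cs e y x := by
    rintro x y ⟨⟨i | e, j | e'⟩, hp, rfl, rfl⟩
    · exact absurd hp (fun h => h)
    · have h1 : e'.1.1 = i := hp
      subst h1
      exact ⟨e', Or.inl (Or.inl ⟨rfl, rfl⟩)⟩
    · have h1 : e.1.2 = j := hp
      subst h1
      exact ⟨e, Or.inl (Or.inr (Or.inr ⟨rfl, rfl⟩))⟩
    · have h1 : e = e' := hp
      subst h1
      exact ⟨e, Or.inr (Or.inr (Or.inl ⟨rfl, rfl⟩))⟩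
  rcases h with h | h
  · exact key h
  · obtain ⟨e, he⟩ := key h
    exact ⟨e, he.symm⟩

lemma lip_psi {S : Set (V × V)} {φ : V ⊕ V → ℤ} {e0 : ↥S} {α β : ℤ}
    (hφ : Lip (bg S) (fun _ _ => 1) (Sum.inl e0.1.1) (Sum.inr e0.1.2) φ)
    (s t : (V ⊕ ↥S) ⊕ (V ⊕ ↥S))
    (h : ∀ x y, Cs e0 x y → ¬ (x = s ∧ y = t) → psi φ e0 α β x - psi φ e0 α β y ≤ 1 ∧
      psi φ e0 α β y - psi φ e0 α β x ≤ 1) :
    Lip (bg (sub S)) (fun _ _ => 1) s t (psi φ e0 α β) := by
  have h1 : ∀ e : ↥S, e ≠ e0 → φ (Sum.inl e.1.1) - φ (Sum.inr e.1.2) ≤ 1 ∧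
      φ (Sum.inr e.1.2) - φ (Sum.inl e.1.1) ≤ 1 := by
    intro e he
    have n1 : ¬ ((Sum.inl e.1.1 : V ⊕ V) = Sum.inl e0.1.1 ∧
        (Sum.inr e.1.2 : V ⊕ V) = Sum.inr e0.1.2) := by
      rintro ⟨a, b⟩
      exact he (Subtype.ext (Prod.ext (Sum.inl_injective a) (Sum.inr_injective b)))
    have n2 : ¬ ((Sum.inl e.1.1 : V ⊕ V) = Sum.inr e0.1.2 ∧
        (Sum.inr e.1.2 : V ⊕ V) = Sum.inl e0.1.1) := fun a => Sum.inl_ne_inr a.1
    have a1 := hφ _ _ (bg_adj e.2) n1 n2
    have a2 := hφ _ _ (bg_adj e.2).symm (fun h => n2 ⟨h.2, h.1⟩) (fun h => n1 ⟨h.2, h.1⟩)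
    exact ⟨by exact_mod_cast a1, by exact_mod_cast a2⟩
  have h2 : ∀ (e : ↥S) x y, Cs e x y → ¬ (x = s ∧ y = t) →
      psi φ e0 α β x - psi φ e0 α β y ≤ 1 ∧ psi φ e0 α β y - psi φ e0 α β x ≤ 1 := by
    intro e x y hxy hn
    by_cases he : e = e0
    · subst he
      exact h x y hxy hn
    · obtain ⟨c1, c2⟩ := h1 e he
      rcases hxy with ⟨rfl, rfl⟩ | ⟨rfl, rfl⟩ | ⟨rfl, rfl⟩
      · simp only [edA, edB, psi, if_neg he]
        constructor <;> omega
      · simp only [edC, edB, psi, if_neg he]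
        constructor <;> omega
      · simp only [edC, edD, psi, if_neg he]
        constructor <;> omega
  intro x y hxy n1 n2
  obtain ⟨e, he | he⟩ := adj_sub hxy
  · have := (h2 e x y he n1).1
    simpa using this
  · have := (h2 e y x he (fun h => n2 ⟨h.2, h.1⟩)).2
    simpa using this

lemma cy_subS {S : Set (V × V)} {k : ℕ} (hC : Cy (bg S) (fun _ _ => 1) k) :
    Cy (bg (sub S)) (fun _ _ => 1) (3 * k) := by
  have key : ∀ (e : ↥S) x y, Cs e x y → ∃ ψ : (V ⊕ ↥S) ⊕ (V ⊕ ↥S) → ℤ,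
      Lip (bg (sub S)) (fun _ _ => 1) x y ψ ∧ ((3 * k : ℕ) : ℤ) - ((1 : ℕ) : ℤ) ≤ ψ y - ψ x := by
    intro e x y hxy
    obtain ⟨φ, h1, h2⟩ := hC (Sum.inl e.1.1) (Sum.inr e.1.2) (bg_adj e.2)
    push_cast at h2
    have hAB : edA e ≠ edC e := fun h => Sum.inl_ne_inr (Sum.inl_injective h)
    have hBD : edB e ≠ edD e := fun h => Sum.inr_ne_inl (Sum.inr_injective h)
    have hBC : edB e ≠ edC e := Sum.inr_ne_inl
    have hAB' : edA e ≠ edB e := Sum.inl_ne_inr
    have hCD : edC e ≠ edD e := Sum.inl_ne_inr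
    rcases hxy with ⟨rfl, rfl⟩ | ⟨rfl, rfl⟩ | ⟨rfl, rfl⟩
    · refine ⟨psi φ e (3 * φ (.inr e.1.2) + 2) (3 * φ (.inr e.1.2) + 1), lip_psi h1 _ _ ?_, ?_⟩
      · rintro x y (⟨rfl, rfl⟩ | ⟨rfl, rfl⟩ | ⟨rfl, rfl⟩) hn
        · exact absurd ⟨rfl, rfl⟩ hn
        · simp only [edC, edB, psi, if_true]
          constructor <;> omega
        · simp only [edC, edD, psi, if_true]
          constructor <;> omega
      · simp only [edA, edB, psi, if_true]
        push_cast
        omega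
    · refine ⟨psi φ e (3 * φ (.inl e.1.1) - 1) (3 * φ (.inr e.1.2) + 1), lip_psi h1 _ _ ?_, ?_⟩
      · rintro x y (⟨rfl, rfl⟩ | ⟨rfl, rfl⟩ | ⟨rfl, rfl⟩) hn
        · simp only [edA, edB, psi, if_true]
          constructor <;> omega
        · exact absurd ⟨rfl, rfl⟩ hn
        · simp only [edC, edD, psi, if_true]
          constructor <;> omega
      · simp only [edC, edB, psi, if_true]
        push_cast
        omega
    · refine ⟨psi φ e (3 * φ (.inl e.1.1) - 1) (3 * φ (.inl e.1.1) - 2), lip_psi h1 _ _ ?_, ?_⟩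
      · rintro x y (⟨rfl, rfl⟩ | ⟨rfl, rfl⟩ | ⟨rfl, rfl⟩) hn
        · simp only [edA, edB, psi, if_true]
          constructor <;> omega
        · simp only [edC, edB, psi, if_true]
          constructor <;> omega
        · exact absurd ⟨rfl, rfl⟩ hn
      · simp only [edC, edD, psi, if_true]
        push_cast
        omega
  intro x y hxy
  obtain ⟨e, he | he⟩ := adj_sub hxy
  · exact key e x y he
  · obtain ⟨ψ, h1, h2⟩ := key e y x he
    refine ⟨fun x => - ψ x, lip_neg' h1, ?_⟩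
    dsimp only at h2 ⊢
    omega

end

/-! ### The determinant -/

section
variable {V : Type}

open Classical in
/-- from the big matrix to the matrix and the two families of units -/
noncomputable def sF {S : Set (V × V)} {R : Type} [CommRing R]
    (x : (V ⊕ ↥S) × (V ⊕ ↥S) → R) : (V × V) ⊕ (↥S ⊕ ↥S) → R :=
  Sum.elim (fun p => if h : p ∈ S then
      x (.inl p.1, .inr ⟨p, h⟩) * (Ring.inverse (x (.inr ⟨p, h⟩, .inr ⟨p, h⟩)) *
        x (.inr ⟨p, h⟩, .inl p.2)) else 0)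
    (Sum.elim (fun e => x (.inl e.1.1, .inr e)) (fun e => x (.inr e, .inr e)))

open Classical in
/-- the way back -/
noncomputable def sB {S : Set (V × V)} {R : Type} [CommRing R]
    (y : (V × V) ⊕ (↥S ⊕ ↥S) → R) : (V ⊕ ↥S) × (V ⊕ ↥S) → R := fun p => match p with
    | (.inl i, .inr e) => if e.1.1 = i then y (.inr (.inl e)) else 0
    | (.inr e, .inl j) => if e.1.2 = j then
        Ring.inverse (y (.inr (.inl e))) * (y (.inr (.inr e)) * y (.inl e.1)) else 0
    | (.inr e, .inr e') => if e = e' then y (.inr (.inr e)) else 0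
    | (.inl _, .inl _) => 0

section
variable {S : Set (V × V)} {R : Type} [CommRing R]

lemma sF_mem (x : (V ⊕ ↥S) × (V ⊕ ↥S) → R) {p : V × V} (h : p ∈ S) : sF x (.inl p) =
    x (.inl p.1, .inr ⟨p, h⟩) * (Ring.inverse (x (.inr ⟨p, h⟩, .inr ⟨p, h⟩)) *
        x (.inr ⟨p, h⟩, .inl p.2)) := dif_pos h

lemma sF_not (x : (V ⊕ ↥S) × (V ⊕ ↥S) → R) {p : V × V} (h : p ∉ S) : sF x (.inl p) = 0 :=
  dif_neg h

variable (y : (V × V) ⊕ (↥S ⊕ ↥S) → R)

lemma sB_1 (e : ↥S) : sB y (.inl e.1.1, .inr e) = y (.inr (.inl e)) := if_pos rfl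

lemma sB_1' {i : V} {e : ↥S} (h : e.1.1 ≠ i) : sB y (.inl i, .inr e) = 0 := if_neg h

lemma sB_2 (e : ↥S) : sB y (.inr e, .inl e.1.2) =
    Ring.inverse (y (.inr (.inl e))) * (y (.inr (.inr e)) * y (.inl e.1)) := if_pos rfl

lemma sB_2' {j : V} {e : ↥S} (h : e.1.2 ≠ j) : sB y (.inr e, .inl j) = 0 := if_neg h

lemma sB_3 (e : ↥S) : sB y (.inr e, .inr e) = y (.inr (.inr e)) := if_pos rfl

lemma sB_3' {e e' : ↥S} (h : e ≠ e') : sB y (.inr e, .inr e') = 0 := if_neg h

lemma sB_out {p : (V ⊕ ↥S) × (V ⊕ ↥S)} (hp : p ∉ sub S) : sB y p = 0 := by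
  rcases p with ⟨i | e, j | e'⟩
  · rfl
  · exact sB_1' y hp
  · exact sB_2' y hp
  · exact sB_3' y hp

end

/-- the units -/
def sD {S : Set (V × V)} : ↥S ⊕ ↥S → (V ⊕ ↥S) × (V ⊕ ↥S)
  | .inl e => (.inl e.1.1, .inr e)
  | .inr e => (.inr e, .inr e)

end

section
variable {V : Type} [Fintype V] [DecidableEq V]

lemma det_sub {S : Set (V × V)} [Fintype ↥S] [DecidableEq ↥S] {R : Type} [CommRing R]
    {x : (V ⊕ ↥S) × (V ⊕ ↥S) → R} (hx : ∀ p, p ∉ sub S → x p = 0)
    (hd : ∀ e : ↥S, IsUnit (x (.inr e, .inr e))) :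
    (mx x).det = (∏ e : ↥S, x (.inr e, .inr e)) * ((-1) ^ Fintype.card V *
      (mx fun p : V × V => sF x (Sum.inl p)).det) := by
  let E1 : Matrix V ↥S R := Matrix.of fun i e => x (.inl i, .inr e)
  let E2 : Matrix ↥S V R := Matrix.of fun e j => x (.inr e, .inl j)
  let d : ↥S → R := fun e => x (.inr e, .inr e)
  have h1 : mx x = Matrix.fromBlocks 0 E1 E2 (Matrix.diagonal d) := by
    ext (i | i) (j | j)
    · exact hx (.inl i, .inl j) (fun h => h)
    · rfl
    · rfl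
    · rw [Matrix.fromBlocks_apply₂₂, Matrix.diagonal_apply]
      split_ifs with h
      · subst h
        rfl
      · exact hx (.inr i, .inr j) h
  have h2 : E1 * Matrix.diagonal (fun e => Ring.inverse (d e)) * E2 =
      mx fun p : V × V => sF x (Sum.inl p) := by
    ext i j
    rw [Matrix.mul_apply]
    simp only [Matrix.mul_diagonal]
    have h3 : ∀ e : ↥S, e.1 ≠ (i, j) →
        x (.inl i, .inr e) * Ring.inverse (d e) * x (.inr e, .inl j) = 0 := by
      intro e he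
      by_cases h4 : e.1.1 = i
      · have h5 : e.1.2 ≠ j := fun h5 => he (Prod.ext h4 h5)
        rw [hx (.inr e, .inl j) h5, mul_zero]
      · rw [hx (.inl i, .inr e) h4, zero_mul, zero_mul]
    by_cases h : (i, j) ∈ S
    · refine Eq.trans ?_ (sF_mem x h).symm
      show ∑ e : ↥S, x (.inl i, .inr e) * Ring.inverse (d e) * x (.inr e, .inl j) = _
      rw [Finset.sum_eq_single (⟨(i, j), h⟩ : ↥S)]
      · rw [mul_assoc]
      · intro e _ he
        exact h3 e fun h6 => he (Subtype.ext h6)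
      · intro h6
        exact absurd (Finset.mem_univ _) h6
    · refine Eq.trans ?_ (sF_not x h).symm
      exact Finset.sum_eq_zero fun e _ => h3 e fun h6 => h (h6 ▸ e.2)
  rw [h1, det_schur _ _ _ _ hd, h2, zero_sub, Matrix.det_neg]

omit [Fintype V] [DecidableEq V] in
lemma sF_sB {S : Set (V × V)} {R : Type} [CommRing R] {y : (V × V) ⊕ (↥S ⊕ ↥S) → R}
    (hy : ∀ p, p ∉ S → y (Sum.inl p) = 0) (hu : ∀ i, IsUnit (y (Sum.inr i))) :
    sF (sB y) = y := by
  funext p
  rcases p with p | e | e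
  · by_cases h : p ∈ S
    · have h1 := Ring.mul_inverse_cancel _ (hu (.inl ⟨p, h⟩))
      have h2 := Ring.mul_inverse_cancel _ (hu (.inr ⟨p, h⟩))
      have e1 := sB_1 y ⟨p, h⟩
      have e2 := sB_2 y ⟨p, h⟩
      rw [sF_mem _ h, sB_3]
      dsimp only at e1 e2
      rw [e1, e2]
      linear_combination (y (.inr (.inr ⟨p, h⟩)) * Ring.inverse (y (.inr (.inr ⟨p, h⟩))) *
        y (.inl p)) * h1 + y (.inl p) * h2
    · rw [sF_not _ h, hy p h]
  · exact sB_1 y e
  · exact sB_3 y e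

omit [Fintype V] [DecidableEq V] in
lemma sB_sF {S : Set (V × V)} {R : Type} [CommRing R]
    {x : (V ⊕ ↥S) × (V ⊕ ↥S) → R} (hx : ∀ p, p ∉ sub S → x p = 0)
    (hu : ∀ i, IsUnit (x (sD i))) : sB (sF x) = x := by
  funext p
  by_cases hp : p ∈ sub S
  · rcases p with ⟨i | e, j | e'⟩
    · exact absurd hp (fun h => h)
    · have h : e'.1.1 = i := hp
      subst h
      exact sB_1 _ e'
    · have h : e.1.2 = j := hp
      subst h
      rw [sB_2, sF_mem x e.2]
      have h3 := Ring.inverse_mul_cancel _ (hu (.inl e))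
      have h4 := Ring.mul_inverse_cancel _ (hu (.inr e))
      show Ring.inverse (x (.inl e.1.1, .inr e)) * (x (.inr e, .inr e) *
        (x (.inl e.1.1, .inr e) * (Ring.inverse (x (.inr e, .inr e)) * x (.inr e, .inl e.1.2)))) = _
      change Ring.inverse (x (.inl e.1.1, .inr e)) * x (.inl e.1.1, .inr e) = 1 at h3
      change x (.inr e, .inr e) * Ring.inverse (x (.inr e, .inr e)) = 1 at h4
      linear_combination (x (.inr e, .inr e) * Ring.inverse (x (.inr e, .inr e)) *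
        x (.inr e, .inl e.1.2)) * h3 + x (.inr e, .inl e.1.2) * h4
    · have h : e = e' := hp
      subst h
      exact sB_3 _ e
  · rw [sB_out _ hp, hx p hp]

/-- **Subdivision.** -/
lemma ug_of_sub (hG : RG G) (S : Set (V × V)) [Fintype ↥S] [DecidableEq ↥S]
    (h : ∀ T, T ⊆ sub S → UG G T) : UG G S := by
  classical
  have h1 : GO G (zS (sub S)) (dP (V ⊕ ↥S) * ∏ e ∈ Finset.univ.image (sD (S := S)), X e) :=
    go_del hG _ _ h
  have hinj : Function.Injective (sD (S := S)) := by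
    rintro (a | a) (b | b) hab
    · exact congrArg Sum.inl (Sum.inr_injective (congrArg Prod.snd hab))
    · exact absurd (congrArg Prod.fst hab) (fun h => Sum.inl_ne_inr h)
    · exact absurd (congrArg Prod.fst hab) (fun h => Sum.inr_ne_inl h)
    · exact congrArg Sum.inr (Sum.inr_injective (congrArg Prod.snd hab))
  rw [Finset.prod_image fun a _ b _ hab => hinj hab] at h1
  unfold UG
  rw [← go_times hG (τ := ↥S ⊕ ↥S)]
  have hl : ∀ {R : Type} [CommRing R] {x : (V ⊕ ↥S) × (V ⊕ ↥S) → R},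
      Lc (zS (sub S)) (dP (V ⊕ ↥S) * ∏ i, X (sD (S := S) i)) x ↔
        (∀ e, e ∉ sub S → x e = 0) ∧ IsUnit (mx x).det ∧ ∀ i, IsUnit (x (sD i)) := by
    intro R _ x
    unfold Lc
    rw [pt_zs, map_mul, map_prod, ev_dP, IsUnit.mul_iff, isUnit_prod_iff]
    simp only [ev_X, Finset.mem_univ, true_imp_iff]
  have hl' : ∀ {R : Type} [CommRing R] {y : (V × V) ⊕ (↥S ⊕ ↥S) → R},
      Lc (rename (Sum.inl : V × V → (V × V) ⊕ (↥S ⊕ ↥S)) '' zS S)
        (rename Sum.inl (dP V) * ∏ a : ↥S ⊕ ↥S, X (Sum.inr a)) y ↔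
        (∀ e, e ∉ S → y (Sum.inl e) = 0) ∧
          IsUnit (mx fun e => y (Sum.inl e)).det ∧ ∀ i, IsUnit (y (Sum.inr i)) := by
    intro R _ y
    rw [lc_times, lc_u]
    tauto
  have hneg : ∀ (R : Type) [CommRing R], IsUnit ((-1 : R) ^ Fintype.card V) :=
    fun R _ => (isUnit_one.neg).pow _
  refine (hG.gl_iso (fun R _ x => sF x) (fun R _ y => sB y) ?_ ?_ ?_ ?_ ?_ ?_).1 h1
  · intro R R' _ _ φ x hx i
    rw [hl] at hx
    rcases i with p | e | e
    · by_cases h : p ∈ S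
      · rw [sF_mem _ h, sF_mem _ h, map_mul, map_mul]
        have h5 : φ (Ring.inverse (x (.inr ⟨p, h⟩, .inr ⟨p, h⟩))) =
            Ring.inverse (φ (x (.inr ⟨p, h⟩, .inr ⟨p, h⟩))) :=
          map_inv_of_unit φ (hx.2.2 (Sum.inr ⟨p, h⟩))
        rw [h5]
      · rw [sF_not _ h, sF_not _ h, map_zero]
    · rfl
    · rfl
  · intro R R' _ _ φ y hy p
    rw [hl'] at hy
    by_cases hp : p ∈ sub S
    · rcases p with ⟨i | e, j | e'⟩
      · exact absurd hp (fun h => h)
      · have h : e'.1.1 = i := hp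
        subst h
        rw [sB_1, sB_1]
      · have h : e.1.2 = j := hp
        subst h
        rw [sB_2, sB_2, map_mul, map_mul, map_inv_of_unit φ (hy.2.2 (Sum.inl e))]
      · have h : e = e' := hp
        subst h
        rw [sB_3, sB_3]
    · rw [sB_out _ hp, sB_out _ hp, map_zero]
  · intro R _ x hx
    rw [hl] at hx
    rw [hl']
    have h4 := hx.2.1
    rw [det_sub hx.1 fun e => hx.2.2 (Sum.inr e), IsUnit.mul_iff, IsUnit.mul_iff] at h4
    exact ⟨fun e he => dif_neg he, h4.2.2, fun i => by rcases i with e | e; exacts [hx.2.2 (.inl e), hx.2.2 (.inr e)]⟩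
  · intro R _ y hy
    rw [hl'] at hy
    rw [hl]
    have h5 : ∀ e, e ∉ sub S → sB y e = 0 := fun e he => sB_out y he
    have h6 : ∀ i, sB y (sD i) = y (Sum.inr i) := by
      rintro (e | e)
      · exact sB_1 y e
      · exact sB_3 y e
    have h7 : ∀ i, IsUnit (sB y (sD i)) := fun i => by
      rw [h6]
      exact hy.2.2 i
    refine ⟨h5, ?_, h7⟩
    rw [det_sub h5 fun e => h7 (Sum.inr e), sF_sB hy.1 hy.2.2, IsUnit.mul_iff, IsUnit.mul_iff,
      isUnit_prod_iff]
    exact ⟨fun e _ => h7 (Sum.inr e), hneg R, hy.2.1⟩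
  · intro R _ x hx
    rw [hl] at hx
    exact sB_sF hx.1 hx.2.2
  · intro R _ y hy
    rw [hl'] at hy
    exact sF_sB hy.1 hy.2.2

end

lemma bg_mono {A B : Type} {S T : Set (A × B)} (h : T ⊆ S) (x y : A ⊕ B) (hxy : (bg T).Adj x y) :
    (bg S).Adj x y := by
  rcases hxy with ⟨e, he, h1⟩ | ⟨e, he, h1⟩
  · exact Or.inl ⟨e, h he, h1⟩
  · exact Or.inr ⟨e, h he, h1⟩

/-- **Large girth is enough.** -/
theorem ug_three_of_girth (hG : RG G) (g : ℕ)
    (h : ∀ (V : Type) [Fintype V] [DecidableEq V] (S : Set (V × V)), Sp 3 S →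
      (g : ℕ∞) ≤ (bg S).egirth → UG G S)
    (V : Type) [Fintype V] [DecidableEq V] (S : Set (V × V)) (hS : Sp 3 S) : UG G S := by
  classical
  have step : ∀ n : ℕ, (∀ (V : Type) [Fintype V] [DecidableEq V] (S : Set (V × V)), Sp 3 S →
      Cy (bg S) (fun _ _ => 1) (3 ^ n * 3) → UG G S) →
      ∀ (V : Type) [Fintype V] [DecidableEq V] (S : Set (V × V)), Sp 3 S → UG G S := by
    intro n
    induction n with
    | zero =>
      intro h V _ _ S hS
      exact h V S hS (by rw [pow_zero, one_mul]; exact cy_three' _)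
    | succ n ih =>
      intro h
      refine ih fun V _ _ S hS hC => ?_
      have : Fintype ↥S := Fintype.ofFinite _
      refine ug_of_sub hG S fun T hT => h _ T ((sp_sub hS).mono hT) ?_
      have h1 := (cy_subS hC).mono (bg_mono hT)
      have h2 : 3 * (3 ^ n * 3) = 3 ^ (n + 1) * 3 := by ring
      rwa [h2] at h1
  refine step g (fun V _ _ S hS hC => h V S hS ?_) V S hS
  have h1 := girth_of_cy hC fun _ _ _ => le_rfl
  refine le_trans ?_ h1
  have h2 : g ≤ 3 ^ g * 3 := (Nat.lt_pow_self (by norm_num : 1 < 3)).le.trans (Nat.le_mul_of_pos_right _ (by norm_num))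
  exact_mod_cast h2

end Pool.Agent.PZ
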