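import Pool.Agent.PZ.Pat

/-!
# At most two positions in each row
-/

set_option autoImplicit false

open MvPolynomial
open Pool.Agent.Helper81.CP Pool.Agent.Helper81.HG Pool.Agent.Helper45.RM

namespace Pool.Agent.PZ

variable {G : ∀ (R : Type) [CommRing R], Prop}

/-- free coordinates may be put equal to zero -/
lemma go_free (hG : RG G) {A B : Type} [Finite A] [Finite B] {p : MvPolynomial (A × B) ℤ}
    (D : Finset (A × B))
    (hp : ∀ (R : Type) [CommRing R] (x y : A × B → R), (∀ e, e ∉ D → y e = x e) →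
      ev y p = ev x p) :
    ∀ S : Set (A × B), GO G (zS S) p ↔ GO G (zS (S \ ↑D)) p := by
  classical
  induction D using Finset.induction_on with
  | empty =>
    intro S
    simp
  | insert a D ha ih =>
    intro S
    rw [ih (fun R _ x y hxy => hp R x y fun e he => hxy e fun h =>
      he (Finset.mem_insert_of_mem h)) S]
    have h1 : (S \ ↑D) \ {a} = S \ ↑(insert a D) := by
      ext e
      simp only [Set.mem_sdiff, Finset.mem_coe, Set.mem_singleton_iff, Finset.mem_insert]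
      tauto
    rw [← h1]
    by_cases haS : a ∈ S
    · rw [hG.gl_free a]
      · refine hG.gl_congr fun R _ x => ?_
        unfold Lc
        rw [insert_zs]
      · intro R _ x y hxy hx
        unfold Lc at hx ⊢
        rw [pt_zs] at hx ⊢
        refine ⟨fun e he => ?_, ?_⟩
        · rw [hxy e ?_, hx.1 e he]
          rintro rfl
          exact he ⟨haS, fun h => ha h⟩
        · rw [hp R x y fun e he => hxy e fun h => he (h ▸ Finset.mem_insert_self a D)]
          exact hx.2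
    · have h2 : (S \ ↑D) \ {a} = S \ ↑D := by
        ext e
        simp only [Set.mem_sdiff, Finset.mem_coe, Set.mem_singleton_iff]
        constructor
        · tauto
        · rintro ⟨h3, h4⟩
          exact ⟨⟨h3, h4⟩, fun h => haS (h ▸ h3)⟩
      rw [h2]

/-- the empty scheme -/
lemma go_none (hG : RG G) {σ : Type} {E : Set (MvPolynomial σ ℤ)} {p : MvPolynomial σ ℤ}
    (h : ∀ (R : Type) [CommRing R] (x : σ → R), Lc E p x → (1 : R) = 0) : GO G E p := by
  refine hG.triv _ ?_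
  have h1 : Pt (dop p E) (tau (dop p E)) := (rep_rng (dop p E)).pt
  rw [Pt.dop_iff_lc] at h1
  have h2 := h _ _ h1.1
  exact ⟨fun a b => by rw [← mul_one a, ← mul_one b, h2, mul_zero, mul_zero]⟩

/-- the lower right block -/
def kU (W : Type) : W × W → (Unit ⊕ W) × (Unit ⊕ W) := fun p => (Sum.inr p.1, Sum.inr p.2)

lemma kU_inj (W : Type) : Function.Injective (kU W) := by
  rintro ⟨i, j⟩ ⟨i', j'⟩ h
  simp only [kU, Prod.mk.injEq, Sum.inr.injEq] at h
  rw [h.1, h.2]

section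

variable {W : Type} [Fintype W] [DecidableEq W]

lemma go_min (hG : RG G) (S : Set ((Unit ⊕ W) × (Unit ⊕ W)))
    (D : Finset ((Unit ⊕ W) × (Unit ⊕ W))) (hD : ∀ e ∈ D, e ∈ S ∧ e.1 = Sum.inl ()) :
    GO G (zS S) (rename (kU W) (dP W) * ∏ e ∈ D, X e) ↔ UG G {p : W × W | kU W p ∈ S} := by
  classical
  have hev : ∀ (R : Type) [CommRing R] (x y : (Unit ⊕ W) × (Unit ⊕ W) → R),
      (∀ p : W × W, y (kU W p) = x (kU W p)) →
      ev y (rename (kU W) (dP W)) = ev x (rename (kU W) (dP W)) := by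
    intro R _ x y h
    rw [ev_rename, ev_rename]
    exact congrArg (fun z => ev z (dP W)) (funext h)
  rw [go_torus hG D]
  · let D₁ : Finset ((Unit ⊕ W) × (Unit ⊕ W)) :=
      Finset.univ.filter fun e => e ∉ Set.range (kU W)
    have hD₁ : ∀ e, e ∈ D₁ ↔ e ∉ Set.range (kU W) := fun e => by simp [D₁]
    have h1 := go_free hG D₁ (p := rename (kU W) (dP W))
      (fun R _ x y hxy => hev R x y fun p => hxy _ fun h => (hD₁ _).1 h ⟨p, rfl⟩)
    rw [h1 S]
    have h2 := h1 (S ∪ ↑D₁)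
    have h3 : (S ∪ ↑D₁) \ (↑D₁ : Set ((Unit ⊕ W) × (Unit ⊕ W))) = S \ ↑D₁ := by
      ext e
      simp only [Set.mem_sdiff, Set.mem_union]
      tauto
    rw [h3] at h2
    rw [← h2]
    unfold UG
    rw [← hG.gl_emb (kU W) (kU_inj W) (zS {p : W × W | kU W p ∈ S}) (dP W)]
    refine hG.gl_congr fun R _ x => ?_
    unfold Lc
    refine and_congr ?_ Iff.rfl
    rw [pt_zs]
    unfold Pt
    simp only [Set.forall_mem_image, ev_rename]
    constructor
    · rintro h _ ⟨p, hp, rfl⟩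
      rw [ev_X]
      refine h _ ?_
      rintro (h' | h')
      · exact hp h'
      · exact (hD₁ _).1 h' ⟨p, rfl⟩
    · intro h e he
      have h4 : e ∈ Set.range (kU W) := by
        by_contra h5
        exact he (Or.inr ((hD₁ e).2 h5))
      obtain ⟨p, rfl⟩ := h4
      have h6 := h (x := X p) ⟨p, fun h7 => he (Or.inl h7), rfl⟩
      rwa [ev_X] at h6
  · intro R _ x y hxy hx
    unfold Lc at hx ⊢
    rw [pt_zs] at hx ⊢
    refine ⟨fun e he => ?_, ?_⟩
    · rw [hxy e fun h => he (hD e h).1, hx.1 e he]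
    · rw [hev R x y fun p => hxy _ fun h => by simpa [kU] using (hD _ h).2]
      exact hx.2

/-- elimination with an invertible entry -/
lemma det_elim {R : Type} [CommRing R] (M : Matrix (Unit ⊕ W) (Unit ⊕ W) R) (u : R)
    (hu : M (Sum.inl ()) (Sum.inl ()) * u = 1) :
    M.det = M (Sum.inl ()) (Sum.inl ()) * (Matrix.of fun i j : W => M (Sum.inr i) (Sum.inr j) -
      M (Sum.inr i) (Sum.inl ()) * u * M (Sum.inl ()) (Sum.inr j)).det := by
  have h1 : M.toBlocks₁₁ * (Matrix.of fun _ _ : Unit => u) = 1 := by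
    ext i j
    simp only [Matrix.mul_apply, Matrix.toBlocks₁₁, Matrix.of_apply, Finset.univ_unique,
      Finset.sum_singleton]
    rw [Matrix.one_apply_eq]
    exact hu
  let _ : Invertible M.toBlocks₁₁ :=
    ⟨Matrix.of fun _ _ : Unit => u, mul_eq_one_comm.1 h1, h1⟩
  conv_lhs => rw [← Matrix.fromBlocks_toBlocks M]
  rw [Matrix.det_fromBlocks₁₁, Matrix.det_unique]
  congr 2
  ext i j
  simp only [Matrix.sub_apply, Matrix.mul_apply, Finset.univ_unique, Finset.sum_singleton]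
  rfl

lemma det_row {R : Type} [CommRing R] (M : Matrix (Unit ⊕ W) (Unit ⊕ W) R)
    (h : ∀ j, M (Sum.inl ()) (Sum.inr j) = 0) :
    M.det = M (Sum.inl ()) (Sum.inl ()) *
      (Matrix.of fun i j : W => M (Sum.inr i) (Sum.inr j)).det := by
  have h1 : M.toBlocks₁₂ = 0 := by
    ext i j
    exact h j
  conv_lhs => rw [← Matrix.fromBlocks_toBlocks M]
  rw [h1, Matrix.det_fromBlocks_zero₁₂, Matrix.det_unique]
  rfl

/-- one position in the first row -/
lemma ug_row1 (hG : RG G) (S : Set ((Unit ⊕ W) × (Unit ⊕ W)))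
    (h0 : (Sum.inl (), Sum.inl ()) ∈ S) (h : ∀ j, (Sum.inl (), Sum.inr j) ∉ S) :
    UG G S ↔ UG G {p : W × W | kU W p ∈ S} := by
  rw [← go_min hG S {(Sum.inl (), Sum.inl ())} (by
    intro e he
    rw [Finset.mem_singleton] at he
    subst he
    exact ⟨h0, rfl⟩)]
  refine hG.gl_congr fun R _ x => ?_
  unfold Lc
  rw [pt_zs]
  refine and_congr_right fun hx => ?_
  rw [Finset.prod_singleton, map_mul, ev_X, ev_rename, ev_dP, ev_dP,
    det_row (mx x) (fun j => hx _ (h j)), mul_comm]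
  rfl

open Classical in
/-- the positions after the elimination -/
def S₁ (S : Set ((Unit ⊕ W) × (Unit ⊕ W))) (c : W) : Set ((Unit ⊕ W) × (Unit ⊕ W)) :=
  {e | match e with
    | (Sum.inl _, j) => (Sum.inl (), j) ∈ S
    | (Sum.inr i, Sum.inl _) => (Sum.inr i, Sum.inl ()) ∈ S ∧ (Sum.inr i, Sum.inr c) ∈ S
    | (Sum.inr i, Sum.inr j) =>
      if j = c then (Sum.inr i, Sum.inl ()) ∈ S ∨ (Sum.inr i, Sum.inr c) ∈ S
      else (Sum.inr i, Sum.inr j) ∈ S}

open Classical in
/-- the elimination -/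
noncomputable def fE (S : Set ((Unit ⊕ W) × (Unit ⊕ W))) (c : W) {R : Type} [CommRing R]
    (x : (Unit ⊕ W) × (Unit ⊕ W) → R) : (Unit ⊕ W) × (Unit ⊕ W) → R
  | (Sum.inl _, j) => x (Sum.inl (), j)
  | (Sum.inr i, Sum.inl _) => if (Sum.inr i, Sum.inr c) ∈ S then x (Sum.inr i, Sum.inl ()) else 0
  | (Sum.inr i, Sum.inr j) => x (Sum.inr i, Sum.inr j) -
      x (Sum.inr i, Sum.inl ()) * Ring.inverse (x (Sum.inl (), Sum.inl ())) *
        x (Sum.inl (), Sum.inr j)

open Classical in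
/-- its inverse -/
noncomputable def gE (S : Set ((Unit ⊕ W) × (Unit ⊕ W))) (c : W) {R : Type} [CommRing R]
    (y : (Unit ⊕ W) × (Unit ⊕ W) → R) : (Unit ⊕ W) × (Unit ⊕ W) → R
  | (Sum.inl _, j) => y (Sum.inl (), j)
  | (Sum.inr i, Sum.inl _) => if (Sum.inr i, Sum.inr c) ∈ S then y (Sum.inr i, Sum.inl ()) else
      - (y (Sum.inr i, Sum.inr c) * y (Sum.inl (), Sum.inl ()) *
        Ring.inverse (y (Sum.inl (), Sum.inr c)))
  | (Sum.inr i, Sum.inr j) => if j = c ∧ (Sum.inr i, Sum.inr c) ∉ S then 0 else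
      y (Sum.inr i, Sum.inr j) + y (Sum.inr i, Sum.inl ()) *
        Ring.inverse (y (Sum.inl (), Sum.inl ())) * y (Sum.inl (), Sum.inr j)

section

variable {S : Set ((Unit ⊕ W) × (Unit ⊕ W))} {c : W} {R : Type} [CommRing R]

omit [Fintype W] in
lemma gE_fE (hc : ∀ j, j ≠ c → (Sum.inl (), Sum.inr j) ∉ S)
    {x : (Unit ⊕ W) × (Unit ⊕ W) → R} (hx : ∀ e, e ∉ S → x e = 0)
    (ha : IsUnit (x (Sum.inl (), Sum.inl ()))) (hb : IsUnit (x (Sum.inl (), Sum.inr c))) :
    gE S c (fE S c x) = x := by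
  classical
  funext e
  rcases e with ⟨_ | i, _ | j⟩
  · rfl
  · rfl
  · show (if (Sum.inr i, Sum.inr c) ∈ S then fE S c x (Sum.inr i, Sum.inl ()) else
      - (fE S c x (Sum.inr i, Sum.inr c) * x (Sum.inl (), Sum.inl ()) *
        Ring.inverse (x (Sum.inl (), Sum.inr c)))) = x (Sum.inr i, Sum.inl ())
    by_cases h : (Sum.inr i, Sum.inr c) ∈ S
    · rw [if_pos h]
      show (if (Sum.inr i, Sum.inr c) ∈ S then x (Sum.inr i, Sum.inl ()) else 0) = _
      rw [if_pos h]
    · rw [if_neg h]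
      show - ((x (Sum.inr i, Sum.inr c) - x (Sum.inr i, Sum.inl ()) *
        Ring.inverse (x (Sum.inl (), Sum.inl ())) * x (Sum.inl (), Sum.inr c)) *
          x (Sum.inl (), Sum.inl ()) * Ring.inverse (x (Sum.inl (), Sum.inr c))) = _
      have h1 := Ring.inverse_mul_cancel _ ha
      have h2 := Ring.inverse_mul_cancel _ hb
      rw [hx _ h]
      linear_combination (x (Sum.inr i, Sum.inl ()) * x (Sum.inl (), Sum.inr c) *
        Ring.inverse (x (Sum.inl (), Sum.inr c))) * h1 + x (Sum.inr i, Sum.inl ()) * h2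
  · show (if j = c ∧ (Sum.inr i, Sum.inr c) ∉ S then 0 else
      (x (Sum.inr i, Sum.inr j) - x (Sum.inr i, Sum.inl ()) *
        Ring.inverse (x (Sum.inl (), Sum.inl ())) * x (Sum.inl (), Sum.inr j)) +
      (if (Sum.inr i, Sum.inr c) ∈ S then x (Sum.inr i, Sum.inl ()) else 0) *
        Ring.inverse (x (Sum.inl (), Sum.inl ())) * x (Sum.inl (), Sum.inr j)) = _
    by_cases h : (Sum.inr i, Sum.inr c) ∈ S
    · rw [if_neg (fun h' => h'.2 h), if_pos h]
      ring
    · by_cases hj : j = c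
      · rw [if_pos ⟨hj, h⟩, hj, hx _ h]
      · rw [if_neg (fun h' => hj h'.1), if_neg h, hx _ (hc j hj)]
        ring

omit [Fintype W] in
lemma fE_gE (hc : ∀ j, j ≠ c → (Sum.inl (), Sum.inr j) ∉ S)
    {y : (Unit ⊕ W) × (Unit ⊕ W) → R} (hy : ∀ e, e ∉ S₁ S c → y e = 0)
    (ha : IsUnit (y (Sum.inl (), Sum.inl ()))) (hb : IsUnit (y (Sum.inl (), Sum.inr c))) :
    fE S c (gE S c y) = y := by
  classical
  funext e
  rcases e with ⟨_ | i, _ | j⟩
  · rfl
  · rfl
  · show (if (Sum.inr i, Sum.inr c) ∈ S then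
      (if (Sum.inr i, Sum.inr c) ∈ S then y (Sum.inr i, Sum.inl ()) else _) else 0) = _
    by_cases h : (Sum.inr i, Sum.inr c) ∈ S
    · rw [if_pos h, if_pos h]
    · rw [if_neg h]
      refine (hy (Sum.inr i, Sum.inl ()) fun h' => ?_).symm
      have h2 : (Sum.inr i, Sum.inl ()) ∈ S ∧ (Sum.inr i, Sum.inr c) ∈ S := h'
      exact h h2.2
  · show (if j = c ∧ (Sum.inr i, Sum.inr c) ∉ S then 0 else
      y (Sum.inr i, Sum.inr j) + y (Sum.inr i, Sum.inl ()) *
        Ring.inverse (y (Sum.inl (), Sum.inl ())) * y (Sum.inl (), Sum.inr j)) -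
      (if (Sum.inr i, Sum.inr c) ∈ S then y (Sum.inr i, Sum.inl ()) else
      - (y (Sum.inr i, Sum.inr c) * y (Sum.inl (), Sum.inl ()) *
        Ring.inverse (y (Sum.inl (), Sum.inr c)))) *
        Ring.inverse (y (Sum.inl (), Sum.inl ())) * y (Sum.inl (), Sum.inr j) = _
    by_cases h : (Sum.inr i, Sum.inr c) ∈ S
    · rw [if_neg (fun h' => h'.2 h), if_pos h]
      ring
    · by_cases hj : j = c
      · subst hj
        rw [if_pos ⟨rfl, h⟩, if_neg h]
        have h1 := Ring.inverse_mul_cancel _ ha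
        have h2 := Ring.inverse_mul_cancel _ hb
        linear_combination (y (Sum.inr i, Sum.inr j) * y (Sum.inl (), Sum.inr j) *
          Ring.inverse (y (Sum.inl (), Sum.inr j))) * h1 + y (Sum.inr i, Sum.inr j) * h2
      · have h3 : y (Sum.inl (), Sum.inr j) = 0 := hy _ (hc j hj)
        rw [if_neg (fun h' => hj h'.1), if_neg h, h3]
        ring

omit [Fintype W] in
lemma fE_zero (hc : ∀ j, j ≠ c → (Sum.inl (), Sum.inr j) ∉ S)
    {x : (Unit ⊕ W) × (Unit ⊕ W) → R} (hx : ∀ e, e ∉ S → x e = 0) :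
    ∀ e, e ∉ S₁ S c → fE S c x e = 0 := by
  classical
  rintro ⟨_ | i, _ | j⟩ he
  · exact hx _ he
  · exact hx _ he
  · show (if (Sum.inr i, Sum.inr c) ∈ S then x (Sum.inr i, Sum.inl ()) else 0) = 0
    by_cases h : (Sum.inr i, Sum.inr c) ∈ S
    · rw [if_pos h]
      exact hx _ fun h' => he ⟨h', h⟩
    · rw [if_neg h]
  · show x (Sum.inr i, Sum.inr j) - x (Sum.inr i, Sum.inl ()) *
        Ring.inverse (x (Sum.inl (), Sum.inl ())) * x (Sum.inl (), Sum.inr j) = 0
    by_cases hj : j = c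
    · subst hj
      have he' : ¬ ((Sum.inr i, Sum.inl ()) ∈ S ∨ (Sum.inr i, Sum.inr j) ∈ S) := by
        intro h
        apply he
        show (if j = j then _ else _)
        rw [if_pos rfl]
        exact h
      rw [hx _ fun h => he' (Or.inr h), hx (Sum.inr i, Sum.inl ()) fun h => he' (Or.inl h)]
      ring
    · have he' : (Sum.inr i, Sum.inr j) ∉ S := by
        intro h
        apply he
        show (if j = c then _ else _)
        rw [if_neg hj]
        exact h
      rw [hx _ he', hx _ (hc j hj)]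
      ring

omit [Fintype W] in
lemma gE_zero (hc : ∀ j, j ≠ c → (Sum.inl (), Sum.inr j) ∉ S)
    {y : (Unit ⊕ W) × (Unit ⊕ W) → R} (hy : ∀ e, e ∉ S₁ S c → y e = 0) :
    ∀ e, e ∉ S → gE S c y e = 0 := by
  classical
  rintro ⟨_ | i, _ | j⟩ he
  · exact hy _ he
  · exact hy _ he
  · show (if (Sum.inr i, Sum.inr c) ∈ S then y (Sum.inr i, Sum.inl ()) else
      - (y (Sum.inr i, Sum.inr c) * y (Sum.inl (), Sum.inl ()) *
        Ring.inverse (y (Sum.inl (), Sum.inr c)))) = 0
    by_cases h : (Sum.inr i, Sum.inr c) ∈ S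
    · rw [if_pos h]
      exact hy _ fun h' => he h'.1
    · rw [if_neg h]
      have h1 : y (Sum.inr i, Sum.inr c) = 0 := by
        refine hy _ fun h' => ?_
        have h2 : (if c = c then (Sum.inr i, Sum.inl ()) ∈ S ∨ (Sum.inr i, Sum.inr c) ∈ S
          else (Sum.inr i, Sum.inr c) ∈ S) := h'
        rw [if_pos rfl] at h2
        rcases h2 with h2 | h2
        · exact he h2
        · exact h h2
      rw [h1]
      ring
  · show (if j = c ∧ (Sum.inr i, Sum.inr c) ∉ S then 0 else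
      y (Sum.inr i, Sum.inr j) + y (Sum.inr i, Sum.inl ()) *
        Ring.inverse (y (Sum.inl (), Sum.inl ())) * y (Sum.inl (), Sum.inr j)) = 0
    by_cases hj : j = c
    · rw [if_pos ⟨hj, hj ▸ he⟩]
    · rw [if_neg fun h => hj h.1]
      have h1 : y (Sum.inr i, Sum.inr j) = 0 := by
        refine hy _ fun h' => ?_
        have h2 : (if j = c then (Sum.inr i, Sum.inl ()) ∈ S ∨ (Sum.inr i, Sum.inr c) ∈ S
          else (Sum.inr i, Sum.inr j) ∈ S) := h'
        rw [if_neg hj] at h2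
        exact he h2
      have h3 : y (Sum.inl (), Sum.inr j) = 0 := hy _ (hc j hj)
      rw [h1, h3]
      ring

lemma det_fE (x : (Unit ⊕ W) × (Unit ⊕ W) → R) (ha : IsUnit (x (Sum.inl (), Sum.inl ()))) :
    (mx x).det = x (Sum.inl (), Sum.inl ()) * (mx fun p : W × W => fE S c x (kU W p)).det :=
  det_elim (mx x) (Ring.inverse (x (Sum.inl (), Sum.inl ()))) (Ring.mul_inverse_cancel _ ha)

end

/-- two invertible positions in the first row -/
lemma go_row2 (hG : RG G) (S : Set ((Unit ⊕ W) × (Unit ⊕ W))) (c : W)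
    (h0 : (Sum.inl (), Sum.inl ()) ∈ S) (h1 : (Sum.inl (), Sum.inr c) ∈ S)
    (hc : ∀ j, j ≠ c → (Sum.inl (), Sum.inr j) ∉ S) :
    GO G (zS S) (dP (Unit ⊕ W) * X (Sum.inl (), Sum.inl ()) * X (Sum.inl (), Sum.inr c)) ↔
      UG G {p : W × W | kU W p ∈ S₁ S c} := by
  classical
  rw [← go_min hG (S₁ S c) {(Sum.inl (), Sum.inl ()), (Sum.inl (), Sum.inr c)} (by
    intro e he
    rw [Finset.mem_insert, Finset.mem_singleton] at he
    rcases he with rfl | rfl
    · exact ⟨h0, rfl⟩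
    · exact ⟨h1, rfl⟩)]
  have hl : ∀ {R : Type} [CommRing R] {x : (Unit ⊕ W) × (Unit ⊕ W) → R},
      Lc (zS S) (dP (Unit ⊕ W) * X (Sum.inl (), Sum.inl ()) * X (Sum.inl (), Sum.inr c)) x ↔
        (∀ e, e ∉ S → x e = 0) ∧ IsUnit (mx x).det ∧ IsUnit (x (Sum.inl (), Sum.inl ())) ∧
          IsUnit (x (Sum.inl (), Sum.inr c)) := by
    intro R _ x
    unfold Lc
    rw [pt_zs, map_mul, map_mul, ev_X, ev_X, ev_dP, IsUnit.mul_iff, IsUnit.mul_iff, and_assoc]
  have hr : ∀ {R : Type} [CommRing R] {y : (Unit ⊕ W) × (Unit ⊕ W) → R},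
      Lc (zS (S₁ S c)) (rename (kU W) (dP W) *
        ∏ e ∈ {(Sum.inl (), Sum.inl ()), (Sum.inl (), Sum.inr c)}, X e) y ↔
        (∀ e, e ∉ S₁ S c → y e = 0) ∧ IsUnit (mx fun p : W × W => y (kU W p)).det ∧
          IsUnit (y (Sum.inl (), Sum.inl ())) ∧ IsUnit (y (Sum.inl (), Sum.inr c)) := by
    intro R _ y
    unfold Lc
    rw [pt_zs, map_mul, Finset.prod_pair (by simp), map_mul, ev_X, ev_X, ev_rename, ev_dP,
      IsUnit.mul_iff, IsUnit.mul_iff]
  refine hG.gl_iso (fun R _ x => fE S c x) (fun R _ y => gE S c y) ?_ ?_ ?_ ?_ ?_ ?_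
  · intro A B _ _ φ x hx e
    rw [hl] at hx
    rcases e with ⟨_ | i, _ | j⟩
    · rfl
    · rfl
    · show φ (if _ then _ else _) = if _ then _ else _
      split_ifs
      · rfl
      · exact map_zero φ
    · show φ (_ - _ * _ * _) = _ - _ * _ * _
      rw [map_sub, map_mul, map_mul, map_inv_of_unit φ hx.2.2.1]
  · intro A B _ _ φ y hy e
    rw [hr] at hy
    rcases e with ⟨_ | i, _ | j⟩
    · rfl
    · rfl
    · show φ (if _ then _ else _) = if _ then _ else _
      split_ifs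
      · rfl
      · rw [map_neg, map_mul, map_mul, map_inv_of_unit φ hy.2.2.2]
    · show φ (if _ then _ else _) = if _ then _ else _
      split_ifs
      · exact map_zero φ
      · rw [map_add, map_mul, map_mul, map_inv_of_unit φ hy.2.2.1]
  · intro A _ x hx
    rw [hl] at hx
    rw [hr]
    refine ⟨fE_zero hc hx.1, ?_, hx.2.2⟩
    have h2 := hx.2.1
    rw [det_fE (S := S) (c := c) x hx.2.2.1] at h2
    exact isUnit_of_mul_isUnit_right h2
  · intro A _ y hy
    rw [hr] at hy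
    rw [hl]
    have hga : gE S c y (Sum.inl (), Sum.inl ()) = y (Sum.inl (), Sum.inl ()) := rfl
    refine ⟨gE_zero hc hy.1, ?_, hy.2.2⟩
    rw [det_fE (S := S) (c := c) (gE S c y) hy.2.2.1, fE_gE hc hy.1 hy.2.2.1 hy.2.2.2]
    exact hy.2.2.1.mul hy.2.1
  · intro A _ x hx
    rw [hl] at hx
    exact gE_fE hc hx.1 hx.2.2.1 hx.2.2.2
  · intro A _ y hy
    rw [hr] at hy
    exact fE_gE hc hy.1 hy.2.2.1 hy.2.2.2

end

lemma exists_equiv_inl {V : Type} [Fintype V] [DecidableEq V] {n : ℕ} (h : Fintype.card V = n + 1)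
    (r : V) : ∃ e : Unit ⊕ Fin n ≃ V, e (Sum.inl ()) = r := by
  have e0 : Unit ⊕ Fin n ≃ V := Fintype.equivOfCardEq (by
    rw [Fintype.card_sum, Fintype.card_unit, Fintype.card_fin, h, add_comm])
  exact ⟨e0.trans (Equiv.swap (e0 (Sum.inl ())) r), by
    rw [Equiv.trans_apply, Equiv.swap_apply_left]⟩

lemma ncard_row_le {V W : Type} [Finite V] [Finite W] {f : W → V} (hf : Function.Injective f)
    (s : Set V) : {j | f j ∈ s}.ncard ≤ s.ncard :=
  Set.ncard_le_ncard_of_injOn f (fun _ h => h) hf.injOn (Set.toFinite _)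

section

variable (hG : RG G) {n : ℕ}
  (IH : ∀ S : Set (Fin n × Fin n), (∀ i, {j | (i, j) ∈ S}.ncard ≤ 2) → UG G S)
  {V : Type} [Fintype V] [DecidableEq V] (hV : Fintype.card V = n + 1)

include hG IH hV

lemma ug_one_row (S : Set (V × V)) (hS : ∀ i, {j | (i, j) ∈ S}.ncard ≤ 2) (r c : V)
    (hr : {j | (r, j) ∈ S} = {c}) : UG G S := by
  obtain ⟨e, he⟩ := exists_equiv_inl hV r
  obtain ⟨f, hf⟩ := exists_equiv_inl hV c
  rw [← ug_equiv hG e f S]
  have hr' : ∀ j, (r, j) ∈ S ↔ j = c := fun j => by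
    have : j ∈ {j | (r, j) ∈ S} ↔ j ∈ ({c} : Set V) := by rw [hr]
    exact this
  rw [ug_row1 hG]
  · refine IH _ fun i => ?_
    exact (ncard_row_le (f := fun j : Fin n => f (Sum.inr j))
      (fun _ _ h => Sum.inr_injective (f.injective h)) {j | (e (Sum.inr i), j) ∈ S}).trans
      (hS (e (Sum.inr i)))
  · show (e (Sum.inl ()), f (Sum.inl ())) ∈ S
    rw [he, hf, hr']
  · intro j h
    have h' : (e (Sum.inl ()), f (Sum.inr j)) ∈ S := h
    rw [he, hr', ← hf] at h'
    exact Sum.inr_ne_inl (f.injective h')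

lemma ug_two_row (S : Set (V × V)) (hS : ∀ i, {j | (i, j) ∈ S}.ncard ≤ 2) (r c d : V)
    (hcd : c ≠ d) (hr : {j | (r, j) ∈ S} = {c, d}) : UG G S := by
  classical
  have hr' : ∀ j, (r, j) ∈ S ↔ j = c ∨ j = d := fun j => by
    have : j ∈ {j | (r, j) ∈ S} ↔ j ∈ ({c, d} : Set V) := by rw [hr]
    exact this
  obtain ⟨e, he⟩ := exists_equiv_inl hV r
  obtain ⟨f, hf⟩ := exists_equiv_inl hV c
  obtain ⟨c', hc'⟩ : ∃ c' : Fin n, f (Sum.inr c') = d := by
    rcases h : f.symm d with u | c'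
    · exfalso
      apply hcd
      rw [← hf]
      exact (f.symm_apply_eq.1 h).symm
    · exact ⟨c', (f.symm_apply_eq.1 h).symm⟩
  rw [← ug_equiv hG e f S]
  set T : Set ((Unit ⊕ Fin n) × (Unit ⊕ Fin n)) := {p | (e p.1, f p.2) ∈ S} with hT
  have hT2 : ∀ i, {j | (i, j) ∈ T}.ncard ≤ 2 := fun i =>
    (ncard_row_le f.injective {j | (e i, j) ∈ S}).trans (hS (e i))
  have hrT : ∀ j, (Sum.inl (), j) ∈ T ↔ j = Sum.inl () ∨ j = Sum.inr c' := by
    intro j
    show (e (Sum.inl ()), f j) ∈ S ↔ _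
    rw [he, hr', ← hf, ← hc', f.injective.eq_iff, f.injective.eq_iff]
  have hsub : ∀ (t : (Unit ⊕ Fin n) × (Unit ⊕ Fin n)) (i), {j | (i, j) ∈ T \ {t}}.ncard ≤ 2 :=
    fun t i => (Set.ncard_le_ncard (fun j h => h.1) (Set.toFinite _)).trans (hT2 i)
  have hcard : Fintype.card (Unit ⊕ Fin n) = n + 1 := by
    rw [Fintype.card_sum, Fintype.card_unit, Fintype.card_fin, add_comm]
  have h1 : UG G (T \ {(Sum.inl (), Sum.inl ())}) := by
    refine ug_one_row hG IH hcard _ (hsub _) (Sum.inl ()) (Sum.inr c') ?_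
    ext j
    simp only [Set.mem_ofPred_eq, Set.mem_sdiff, Set.mem_singleton_iff, hrT, Prod.mk.injEq,
      true_and]
    constructor
    · rintro ⟨h | h, h'⟩
      · exact absurd h h'
      · exact h
    · rintro rfl
      exact ⟨Or.inr rfl, Sum.inr_ne_inl⟩
  have h2 : UG G (T \ {(Sum.inl (), Sum.inr c')}) := by
    refine ug_one_row hG IH hcard _ (hsub _) (Sum.inl ()) (Sum.inl ()) ?_
    ext j
    simp only [Set.mem_ofPred_eq, Set.mem_sdiff, Set.mem_singleton_iff, hrT, Prod.mk.injEq,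
      true_and]
    constructor
    · rintro ⟨h | h, h'⟩
      · exact h
      · exact absurd h h'
    · rintro rfl
      exact ⟨Or.inl rfl, Sum.inl_ne_inr⟩
  have h3 : GO G (zS T) (dP (Unit ⊕ Fin n) * X (Sum.inl (), Sum.inl ()) *
      X (Sum.inl (), Sum.inr c')) := by
    rw [go_row2 hG T c' ((hrT _).2 (Or.inl rfl)) ((hrT _).2 (Or.inr rfl)) (by
      intro j hj h
      rcases (hrT _).1 h with h | h
      · exact Sum.inr_ne_inl h
      · exact hj (Sum.inr_injective h))]
    refine IH _ fun i => ?_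
    refine le_trans ?_ (hT2 (Sum.inr i))
    refine (Set.ncard_le_ncard ?_ (Set.toFinite _)).trans
      (Set.ncard_image_le (f := Sum.elim (fun _ => c') id) (Set.toFinite _))
    intro j hj
    have hj' : (if j = c' then (Sum.inr i, Sum.inl ()) ∈ T ∨ (Sum.inr i, Sum.inr c') ∈ T
      else (Sum.inr i, Sum.inr j) ∈ T) := hj
    by_cases hjc : j = c'
    · rw [if_pos hjc] at hj'
      rcases hj' with h | h
      · exact ⟨Sum.inl (), h, hjc.symm⟩
      · exact ⟨Sum.inr c', h, hjc.symm⟩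
    · rw [if_neg hjc] at hj'
      exact ⟨Sum.inr j, hj', rfl⟩
  refine hG.gl_glue (X (Sum.inl (), Sum.inl ())) ?_ ?_
  · refine (hG.gl_congr fun R _ x => ?_).2 h1
    unfold Lc
    rw [insert_zs]
  · refine hG.gl_glue (X (Sum.inl (), Sum.inr c')) ?_ h3
    refine (hG.gl_congr fun R _ x => ?_).2 h2
    unfold Lc
    rw [insert_zs, pt_zs]
    refine and_congr_right fun hx => ?_
    rw [map_mul, ev_X, IsUnit.mul_iff]
    refine and_iff_left_of_imp fun h => ?_
    rw [ev_dP, det_row (mx x) (fun j => hx _ fun h' => ?_)] at h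
    · exact isUnit_of_mul_isUnit_left h
    · rcases (hrT _).1 h'.1 with h4 | h4
      · exact Sum.inr_ne_inl h4
      · exact h'.2 (by rw [Set.mem_singleton_iff, h4])

end

/-- **At most two positions in each row**: the scheme of invertible matrices belongs to the
class as soon as the point does. -/
theorem ug_two (hG : RG G) (h0 : GS G (∅ : Set (MvPolynomial Empty ℤ))) (V : Type) [Fintype V]
    [DecidableEq V] (S : Set (V × V)) (h : ∀ i, {j | (i, j) ∈ S}.ncard ≤ 2) : UG G S := by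
  obtain ⟨n, hn⟩ : ∃ n, Fintype.card V = n := ⟨_, rfl⟩
  induction n generalizing V with
  | zero =>
    have := Fintype.card_eq_zero_iff.1 hn
    have h1 : dP V = 1 := Matrix.det_isEmpty
    unfold UG
    rw [h1, hG.gl_one]
    exact gs_zs hG h0 S
  | succ n ih =>
    have IH : ∀ S : Set (Fin n × Fin n), (∀ i, {j | (i, j) ∈ S}.ncard ≤ 2) → UG G S :=
      fun S hS => ih (Fin n) S hS (Fintype.card_fin n)
    obtain ⟨r⟩ : Nonempty V := Fintype.card_pos_iff.1 (by omega)
    have hcase : {j | (r, j) ∈ S}.ncard = 0 ∨ {j | (r, j) ∈ S}.ncard = 1 ∨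
      {j | (r, j) ∈ S}.ncard = 2 := by
      have := h r
      omega
    rcases hcase with hc | hc | hc
    · rw [Set.ncard_eq_zero (Set.toFinite _)] at hc
      refine go_none hG fun R _ x hx => ?_
      rw [lc_u] at hx
      have h2 : (mx x).det = 0 := Matrix.det_eq_zero_of_row_eq_zero r fun j => hx.1 _ fun hj => by
        have : j ∈ ({j | (r, j) ∈ S} : Set V) := hj
        rw [hc] at this
        exact this
      have h3 := hx.2
      rw [h2, isUnit_zero_iff] at h3
      exact h3.symm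
    · obtain ⟨c, hc⟩ := Set.ncard_eq_one.1 hc
      exact ug_one_row hG IH hn S h r c hc
    · obtain ⟨c, d, hcd, hc⟩ := Set.ncard_eq_two.1 hc
      exact ug_two_row hG IH hn S h r c d hcd hc

end Pool.Agent.PZ
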