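import Pool.Agent.PZ.Big
import Pool.Agent.PZ.Dual
import Pool.Agent.PZ.Split
import Pool.Agent.PZ.Sub
import Pool.Agent.PZ.Ker
import Pool.Agent.PZ.Thr
import Pool.Agent.PZ.Cls
import Pool.Agent.PZ.Com
import Pool.Agent.PZ.Sl
import Pool.Agent.PZ.Rk
import Pool.Agent.TM.Main

/-!
# Matrices with prescribed zeros: both questions
-/

set_option autoImplicit false

open AlgebraicGeometry CategoryTheory TopologicalSpace MvPolynomial
open Pool.Agent.Helper81.CP Pool.Agent.Helper81.HG Pool.Agent.Helper45.RM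
open Pool.Agent.TM (zeros_finiteType controls_of_subset)

namespace Pool.Agent.PZ

universe u

section
variable {G : ∀ (R : Type) [CommRing R], Prop}

/-- **Kernels.** -/
lemma gs_ms (hG : RG G) (hS : Sem G)
    (h : ∀ (V : Type) [Fintype V] [DecidableEq V] (S : Set (V × V)), UG G S)
    {A B : Type} [Fintype A] [Fintype B] (P : Set (A × B)) (k : ℕ) :
    ∀ j, GS G (mS P j k) := by
  classical
  induction k with
  | zero => exact fun j => gs_ms_zero hG hS h P j
  | succ k ih =>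
    exact fun j => hS _ _ _ _ _ _ (fun Q hQ g1 g2 => good_ms_step hQ P j k g1 g2) (ih j) (ih (j + 1))

lemma ohyp_of_ms (hS : Sem G) (h0 : GS G (∅ : Set (MvPolynomial Empty ℤ)))
    (h : ∀ (A B : Type) [Fintype A] [Fintype B] (P : Set (A × B)), GS G (mS P 0 3)) :
    OHyp G 3 := by
  intro A B _ _ E
  have := Fintype.ofFinite A
  have := Fintype.ofFinite B
  exact ors_of_ms hS h0 E 3 (h A B E)

lemma ohyp_of_ug (hG : RG G) (hS : Sem G) (h0 : GS G (∅ : Set (MvPolynomial Empty ℤ)))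
    (h : ∀ (V : Type) [Fintype V] [DecidableEq V] (S : Set (V × V)), UG G S) : OHyp G 3 :=
  ohyp_of_ms hS h0 fun _ _ _ _ P => gs_ms hG hS h P 3 0

lemma ug_of_girth (hG : RG G) (g : ℕ)
    (h : ∀ (V : Type) [Fintype V] [DecidableEq V] (S : Set (V × V)), Sp 3 S →
      (g : ℕ∞) ≤ (bg S).egirth → UG G S)
    (V : Type) [Fintype V] [DecidableEq V] (S : Set (V × V)) : UG G S :=
  ug_of_three hG (fun V _ _ S hS => ug_three_of_girth hG g h V S hS) V S

/-- the point from a system in which all variables vanish -/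
lemma gs_point_of {σ : Type} [Finite σ] {E : Set (MvPolynomial σ ℤ)} (hG : RG G)
    (hE : ∀ (R : Type) [CommRing R] (x : σ → R), Pt E x ↔ ∀ i, x i = 0) (h : GS G E) :
    GS G (∅ : Set (MvPolynomial Empty ℤ)) := by
  refine (hG.gs_iso (fun R _ x e => e.elim) (fun R _ y i => 0) ?_ ?_ ?_ ?_ ?_ ?_).1 h
  · intro R R' _ _ φ x _ j
    exact j.elim
  · intro R R' _ _ φ y _ i
    exact map_zero φ
  · intro R _ x _ f hf
    exact absurd hf (Set.notMem_empty f)
  · intro R _ y _
    rw [hE]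
    exact fun i => rfl
  · intro R _ x hx
    rw [hE] at hx
    funext i
    exact (hx i).symm
  · intro R _ y _
    funext j
    exact j.elim

end

/-! ### The schemes -/

section

variable {G : Scheme.{0} → Prop} (hG : SG G) {N : ℕ}

include hG

lemma cc_all_of_ug (hS : Sem (rg G)) (h0 : GS (md (rg G) N) (∅ : Set (MvPolynomial Empty ℤ)))
    (h : ∀ (V : Type) [Fintype V] [DecidableEq V] (S : Set (V × V)), UG (md (rg G) N) S) :
    CC G (FiniteType N) :=
  cc_all_of_ohyp hG hS le_rfl (ohyp_of_ug (hG.rg.mod N) (Sem.mod hG.rg hS N) h0 h)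

omit hG in
lemma bg_empty {V : Type} : bg (∅ : Set (V × V)) = ⊥ := by
  ext x y
  constructor
  · rintro (⟨e, he, _⟩ | ⟨e, he, _⟩)
    · exact absurd he (Set.notMem_empty e)
    · exact absurd he (Set.notMem_empty e)
  · intro h
    exact absurd h id

lemma cc_all_of_singular (hS : Sem (rg G)) (g : ℕ) (h : CC G (Singular N 3 g)) :
    CC G (FiniteType N) := by
  have h1 : ∀ (V : Type) [Fintype V] [DecidableEq V] (S : Set (V × V)), Sp 3 S →
      (g : ℕ∞) ≤ (bg S).egirth → GS (md (rg G) N) (sgS S) := by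
    intro V i1 i2 S h2 h3
    have h4 := (gz hG _).2 (h _ ⟨V, i1, S, h2, h3, rfl⟩)
    rwa [Subsingleton.elim i2 (Classical.decEq V)]
  have h0 : GS (md (rg G) N) (∅ : Set (MvPolynomial Empty ℤ)) := by
    refine gs_point_of (hG.rg.mod N) ?_ (h1 Unit ∅ ?_ ?_)
    · intro R _ x
      unfold sgS
      rw [Pt.insert_iff, pt_zs, ev_dP]
      constructor
      · rintro ⟨_, h⟩ i
        exact h i (Set.notMem_empty i)
      · intro h
        refine ⟨?_, fun i _ => h i⟩
        rw [Matrix.det_unique]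
        exact h _
    · exact ⟨fun i => by simp, fun i => by simp⟩
    · rw [bg_empty, SimpleGraph.egirth_bot]
      exact le_top
  exact cc_all_of_ug hG hS h0 (ug_of_girth (hG.rg.mod N) g fun V _ _ S h2 h3 =>
    (ug_iff (hG.rg.mod N) h0 S).2 (h1 V S h2 h3))

lemma cc_all_of_unit (hS : Sem (rg G)) (g : ℕ) (h : CC G (UnitDeterminant N 3 g)) :
    CC G (FiniteType N) := by
  have h1 : ∀ (V : Type) [Fintype V] [DecidableEq V] (S : Set (V × V)), Sp 3 S →
      (g : ℕ∞) ≤ (bg S).egirth → GS (md (rg G) N) (slS S) := by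
    intro V i1 i2 S h2 h3
    have h4 := (gz hG _).2 (h _ ⟨V, i1, S, h2, h3, rfl⟩)
    rwa [Subsingleton.elim i2 (Classical.decEq V)]
  have h0 : GS (md (rg G) N) (∅ : Set (MvPolynomial Empty ℤ)) := by
    refine gs_point_of (hG.rg.mod N) ?_ (h1 Empty ∅ ?_ ?_)
    · intro R _ x
      unfold slS
      rw [Pt.insert_iff, pt_zs, map_sub, ev_dP, map_one, Matrix.det_isEmpty, sub_self]
      exact ⟨fun _ i => i.1.elim, fun _ => ⟨rfl, fun i => i.1.elim⟩⟩
    · exact ⟨fun i => i.elim, fun i => i.elim⟩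
    · rw [bg_empty, SimpleGraph.egirth_bot]
      exact le_top
  exact cc_all_of_ug hG hS h0 (ug_of_girth (hG.rg.mod N) g fun V _ _ S h2 h3 =>
    ug_of_sl (hG.rg.mod N) S (h1 V S h2 h3))

lemma cc_all_of_symmetric (hS : Sem (rg G)) (g : ℕ) (h : CC G (SingularSymmetric N 3 g)) :
    CC G (FiniteType N) := by
  have h1 : ∀ (V : Type) [Fintype V] [DecidableEq V] (Γ : SimpleGraph V),
      (∀ v, (Γ.neighborSet v).ncard ≤ 3) → (g : ℕ∞) ≤ Γ.egirth →
        GS (md (rg G) N) (syS (ps Γ)) := by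
    intro V i1 i2 Γ h2 h3
    have h4 := (gz hG _).2 (h _ ⟨V, i1, Γ, h2, h3, rfl⟩)
    rwa [Subsingleton.elim i2 (Classical.decEq V)]
  have h0 : GS (md (rg G) N) (∅ : Set (MvPolynomial Empty ℤ)) := by
    refine gs_point_of (hG.rg.mod N) ?_ (h1 Unit ⊥ ?_ ?_)
    · intro R _ x
      unfold syS
      rw [Pt.insert_iff, Pool.Agent.TM.pt_union_range, pt_zs, ev_dP]
      constructor
      · rintro ⟨_, h, _⟩ i
        exact h i fun h => h
      · intro h
        refine ⟨?_, fun i _ => h i, fun i => ?_⟩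
        · rw [Matrix.det_unique]
          exact h _
        · rw [map_sub, ev_X, ev_X, h, h, sub_zero]
    · intro v
      simp
    · rw [SimpleGraph.egirth_bot]
      exact le_top
  exact cc_all_of_ug hG hS h0 (ug_of_girth (hG.rg.mod N) g fun V _ _ S h2 h3 =>
    ug_of_sy (hG.rg.mod N) h0 g h1 V S h2 h3)

lemma cc_all_of_alternating (hS : Sem (rg G)) (g : ℕ) (h : CC G (SingularAlternating N 3 g)) :
    CC G (FiniteType N) := by
  have h1 : ∀ (V : Type) [Fintype V] [DecidableEq V] (Γ : SimpleGraph V),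
      (∀ v, (Γ.neighborSet v).ncard ≤ 3) → (g : ℕ∞) ≤ Γ.egirth →
        GS (md (rg G) N) (alS (ps Γ)) := by
    intro V i1 i2 Γ h2 h3
    have h4 := (gz hG _).2 (h _ ⟨V, i1, Γ, h2, h3, rfl⟩)
    rwa [Subsingleton.elim i2 (Classical.decEq V)]
  have h0 : GS (md (rg G) N) (∅ : Set (MvPolynomial Empty ℤ)) := by
    refine gs_point_of (hG.rg.mod N) ?_ (h1 Unit ⊥ ?_ ?_)
    · intro R _ x
      unfold alS
      rw [Pt.insert_iff, ← Set.union_assoc, Pool.Agent.TM.pt_union_range,
        Pool.Agent.TM.pt_union_range, pt_zs, ev_dP]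
      constructor
      · rintro ⟨_, ⟨h, _⟩, _⟩ i
        exact h i fun h => h
      · intro h
        refine ⟨?_, ⟨fun i _ => h i, fun i => ?_⟩, fun i => ?_⟩
        · rw [Matrix.det_unique]
          exact h _
        · rw [map_add, ev_X, ev_X, h, h, add_zero]
        · rw [ev_X, h]
    · intro v
      simp
    · rw [SimpleGraph.egirth_bot]
      exact le_top
  exact cc_all_of_ug hG hS h0 (ug_of_girth (hG.rg.mod N) g fun V _ _ S h2 h3 =>
    ug_of_al (hG.rg.mod N) h0 g h1 V S h2 h3)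

lemma cc_all_of_rank (hS : Sem (rg G)) {r : ℕ} (hr : 3 ≤ r) (h : CC G (RankAtMost N r)) :
    CC G (FiniteType N) :=
  cc_all_of_ohyp hG hS le_rfl (ohyp_of_rk (hG.rg.mod N) r hr fun V i S =>
    (gz hG _).2 (h _ ⟨V, i, S, rfl⟩))

lemma cc_all_of_idempotent (hS : Sem (rg G)) (h : CC G (Idempotent N)) :
    CC G (FiniteType N) :=
  cc_all_of_ohyp hG hS le_rfl (ohyp_of_id (hG.rg.mod N) fun V i S =>
    (gz hG _).2 (h _ ⟨V, i, S, rfl⟩))

lemma cc_all_of_squareZero (hS : Sem (rg G)) (h : CC G (SquareZero N)) :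
    CC G (FiniteType N) := by
  have h1 : ∀ (V : Type) [Fintype V] [PartialOrder V], Short V →
      GS (md (rg G) N) (sqS (lts V)) :=
    fun V i1 i2 i3 => (gz hG _).2 (h _ ⟨V, i1, i2, i3, rfl⟩)
  have h0 : GS (md (rg G) N) (∅ : Set (MvPolynomial Empty ℤ)) := by
    refine gs_point_of (hG.rg.mod N) ?_ (h1 Unit fun a b _ _ h => absurd h (lt_irrefl a))
    intro R _ x
    unfold sqS
    rw [Pool.Agent.TM.pt_union_range, pt_zs]
    constructor
    · rintro ⟨h, _⟩ i
      exact h i fun h => lt_irrefl _ (show i.1 < i.2 from h)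
    · intro h
      refine ⟨fun i _ => h i, fun i => ?_⟩
      simp only [map_sum, map_mul, ev_X, h, mul_zero, Finset.sum_const_zero]
  exact cc_all_of_ohyp hG hS le_rfl (ohyp_of_ms (Sem.mod hG.rg hS N) h0
    fun A B _ _ P => ms_of_sq (hG.rg.mod N) h1 P)

lemma cc_all_of_commuting (hS : Sem (rg G)) (h : CC G (CommutingPairs N)) :
    CC G (FiniteType N) := by
  have h1 : ∀ (V : Type) [Fintype V] [PartialOrder V], Short V →
      GS (md (rg G) N) (coS (lts V)) :=
    fun V i1 i2 i3 => (gz hG _).2 (h _ ⟨V, i1, i2, i3, rfl⟩)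
  have h0 : GS (md (rg G) N) (∅ : Set (MvPolynomial Empty ℤ)) := by
    refine gs_point_of (hG.rg.mod N) ?_ (h1 Unit fun a b _ _ h => absurd h (lt_irrefl a))
    intro R _ x
    unfold coS
    rw [Pool.Agent.TM.pt_union_range]
    have h2 : Pt (rename Sum.inl '' zS (lts Unit) ∪ rename Sum.inr '' zS (lts Unit)) x ↔
        Pt (zS (lts Unit)) (fun i => x (Sum.inl i)) ∧
          Pt (zS (lts Unit)) (fun i => x (Sum.inr i)) := by
      unfold Pt
      simp only [Set.mem_union, or_imp, forall_and, Set.forall_mem_image, ev_rename]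
    rw [h2, pt_zs, pt_zs]
    constructor
    · rintro ⟨⟨h3, h4⟩, _⟩ (i | i)
      · exact h3 i fun h => lt_irrefl _ (show i.1 < i.2 from h)
      · exact h4 i fun h => lt_irrefl _ (show i.1 < i.2 from h)
    · intro h
      refine ⟨⟨fun i _ => h _, fun i _ => h _⟩, fun i => ?_⟩
      simp only [map_sum, map_sub, map_mul, ev_X, h, mul_zero, sub_zero, Finset.sum_const_zero]
  exact cc_all_of_ohyp hG hS le_rfl (ohyp_of_ms (Sem.mod hG.rg hS N) h0
    fun A B _ _ P => ms_of_co (hG.rg.mod N) (Sem.mod hG.rg hS N) h1 P)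

/-- at most two positions in each row -/
lemma cc_two (h : G (Zeros N (∅ : Set (MvPolynomial Empty ℤ)))) : CC G (SingularTwo N) := by
  classical
  rintro _ ⟨V, i, S, h1, rfl⟩
  have h0 := (gz hG _).2 h
  exact (gz hG _).1 ((ug_iff (hG.rg.mod N) h0 S).1 (ug_two (hG.rg.mod N) h0 V S h1))

/-- rank at most two -/
lemma cc_rank {r : ℕ} (hr : r ≤ 2) (h : G (Zeros N (∅ : Set (MvPolynomial Empty ℤ)))) :
    CC G (RankAtMost N r) := by
  rintro _ ⟨V, i, S, rfl⟩
  exact (gz hG _).1 (gs_rk (hG.rg.mod N) ((gz hG _).2 h) r hr S)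

end

/-- the classes of matrices with prescribed zeros -/
def Classes (N g r : ℕ) : Set (Set Scheme.{0}) :=
  {Singular N 3 g, UnitDeterminant N 3 g, SingularSymmetric N 3 g, SingularAlternating N 3 g,
    RankAtMost N r, Idempotent N, SquareZero N, CommutingPairs N, FiniteType N}

theorem main (N g r : ℕ) (hr : 3 ≤ r) :
    ∀ 𝒞 ∈ Classes N g r, ∀ 𝒞' ∈ Classes N g r, Controls.{u} 𝒞' 𝒞 := by
  have h1 : ∀ 𝒞 ∈ Classes N g r, 𝒞 ⊆ FiniteType N := by
    rintro 𝒞 (rfl | rfl | rfl | rfl | rfl | rfl | rfl | rfl | rfl)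
    · rintro _ ⟨V, _, S, _, _, rfl⟩
      exact zeros_finiteType N _
    · rintro _ ⟨V, _, S, _, _, rfl⟩
      exact zeros_finiteType N _
    · rintro _ ⟨V, _, Γ, _, _, rfl⟩
      exact zeros_finiteType N _
    · rintro _ ⟨V, _, Γ, _, _, rfl⟩
      exact zeros_finiteType N _
    · rintro _ ⟨V, _, S, rfl⟩
      exact zeros_finiteType N _
    · rintro _ ⟨V, _, S, rfl⟩
      exact zeros_finiteType N _
    · rintro _ ⟨V, _, _, _, rfl⟩
      exact zeros_finiteType N _
    · rintro _ ⟨V, _, _, _, rfl⟩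
      exact zeros_finiteType N _
    · exact subset_rfl
  have h2 : ∀ 𝒞' ∈ Classes N g r, Controls.{u} 𝒞' (FiniteType N) := by
    rintro 𝒞' (rfl | rfl | rfl | rfl | rfl | rfl | rfl | rfl | rfl)
    · exact controls_of_ctl (fun X hX => isFT_of_zmod hX)
        (cc_all_of_singular (sg_ctl _) (sem_ctl _) g (cc_self _))
    · exact controls_of_ctl (fun X hX => isFT_of_zmod hX)
        (cc_all_of_unit (sg_ctl _) (sem_ctl _) g (cc_self _))
    · exact controls_of_ctl (fun X hX => isFT_of_zmod hX)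
        (cc_all_of_symmetric (sg_ctl _) (sem_ctl _) g (cc_self _))
    · exact controls_of_ctl (fun X hX => isFT_of_zmod hX)
        (cc_all_of_alternating (sg_ctl _) (sem_ctl _) g (cc_self _))
    · exact controls_of_ctl (fun X hX => isFT_of_zmod hX)
        (cc_all_of_rank (sg_ctl _) (sem_ctl _) hr (cc_self _))
    · exact controls_of_ctl (fun X hX => isFT_of_zmod hX)
        (cc_all_of_idempotent (sg_ctl _) (sem_ctl _) (cc_self _))
    · exact controls_of_ctl (fun X hX => isFT_of_zmod hX)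
        (cc_all_of_squareZero (sg_ctl _) (sem_ctl _) (cc_self _))
    · exact controls_of_ctl (fun X hX => isFT_of_zmod hX)
        (cc_all_of_commuting (sg_ctl _) (sem_ctl _) (cc_self _))
    · exact controls_of_subset subset_rfl
  intro 𝒞 h 𝒞' h' X hX
  exact h2 𝒞' h' X (h1 𝒞 h hX)

/-- at most two positions in each row -/
theorem main_two (N : ℕ) :
    Controls.{u} {Zeros N (∅ : Set (MvPolynomial Empty ℤ))} (SingularTwo N) := by
  refine controls_of_ctl ?_ (cc_two (sg_ctl _) (cc_self _ _ (Set.mem_singleton _)))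
  rintro _ ⟨V, _, S, _, rfl⟩
  exact isFT_zero _ _

/-- rank at most two -/
theorem main_rank (N : ℕ) {r : ℕ} (hr : r ≤ 2) :
    Controls.{u} {Zeros N (∅ : Set (MvPolynomial Empty ℤ))} (RankAtMost N r) := by
  refine controls_of_ctl ?_ (cc_rank (sg_ctl _) hr (cc_self _ _ (Set.mem_singleton _)))
  rintro _ ⟨V, _, S, rfl⟩
  exact isFT_zero _ _

end Pool.Agent.PZ
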