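import Pool.Agent.PZ.Pat

/-!
# Products of a matrix with prescribed zeros
-/

set_option autoImplicit false

open MvPolynomial
open Pool.Agent.Helper81.CP Pool.Agent.Helper81.HG Pool.Agent.Helper45.RM

namespace Pool.Agent.PZ

/-- the variables: `C`, `z`, `w` and `u` -/
abbrev MV (A B : Type) (j k : ℕ) : Type :=
  (A × B) ⊕ (((Fin j × A) ⊕ (B × Fin j)) ⊕ (B × Fin k))

section
variable {A B : Type} [Fintype A] [Fintype B]

/-- `C` has zeros outside `P`, `z C w = 1`, `C u = 0` -/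
noncomputable def mS (P : Set (A × B)) (j k : ℕ) : Set (MvPolynomial (MV A B j k) ℤ) :=
  rename Sum.inl '' zS P ∪
    ((Set.range fun p : Fin j × Fin j => ∑ a, ∑ b, X (Sum.inr (Sum.inl (Sum.inl (p.1, a)))) *
      (X (Sum.inl (a, b)) * X (Sum.inr (Sum.inl (Sum.inr (b, p.2))))) -
        C (if p.1 = p.2 then 1 else 0)) ∪
    Set.range fun p : A × Fin k => ∑ b, X (Sum.inl (p.1, b)) * X (Sum.inr (Sum.inr (b, p.2))))

lemma pt_mS {P : Set (A × B)} {j k : ℕ} {R : Type} [CommRing R] {x : MV A B j k → R} :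
    Pt (mS P j k) x ↔ (∀ e, e ∉ P → x (Sum.inl e) = 0) ∧
      (∀ i i', ∑ a, ∑ b, x (Sum.inr (Sum.inl (Sum.inl (i, a)))) *
        (x (Sum.inl (a, b)) * x (Sum.inr (Sum.inl (Sum.inr (b, i'))))) =
          if i = i' then 1 else 0) ∧
      ∀ a l, ∑ b, x (Sum.inl (a, b)) * x (Sum.inr (Sum.inr (b, l))) = 0 := by
  have h1 : Pt (mS P j k) x ↔ Pt (zS P) (fun e => x (Sum.inl e)) ∧
      (∀ p : Fin j × Fin j, ∑ a, ∑ b, x (Sum.inr (Sum.inl (Sum.inl (p.1, a)))) *
        (x (Sum.inl (a, b)) * x (Sum.inr (Sum.inl (Sum.inr (b, p.2))))) =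
          if p.1 = p.2 then 1 else 0) ∧
      ∀ p : A × Fin k, ∑ b, x (Sum.inl (p.1, b)) * x (Sum.inr (Sum.inr (b, p.2))) = 0 := by
    unfold mS Pt
    simp only [Set.mem_union, or_imp, forall_and, Set.forall_mem_image, Set.forall_mem_range,
      ev_rename, map_sub, map_sum, map_mul, ev_X, sub_eq_zero]
    refine and_congr_right fun _ => and_congr_left fun _ => forall_congr' fun p => ?_
    rw [TM.ev_C']
    split_ifs <;> simp
  rw [h1, pt_zs]
  simp only [Prod.forall]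

end

end Pool.Agent.PZ
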