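import Pool.Agent.PZ.Pat
import Pool.Agent.PZ.Colz
import Pool.Agent.Helper45.RM.Mat

/-!
# Matrices of rank two with prescribed zeros

On the open set where a minor of order two is invertible a matrix of rank at most two is a product
`U W`; the prescribed zeros become pairs of parallel vectors in the plane.
-/

set_option autoImplicit false
set_option linter.unusedSectionVars false

open MvPolynomial
open Pool.Agent.Helper81.CP Pool.Agent.Helper81.HG Pool.Agent.Helper45.RM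

namespace Pool.Agent.PZ

variable {G : ∀ (R : Type) [CommRing R], Prop}

/-- the minor of order two with the rows `p.1` and the columns `p.2` -/
noncomputable def mi {V : Type} (p : (V × V) × (V × V)) : MvPolynomial (V × V) ℤ :=
  X (p.1.1, p.2.1) * X (p.1.2, p.2.2) - X (p.1.1, p.2.2) * X (p.1.2, p.2.1)

namespace Rk

/-- the products which may be inverted -/
def Gd (G : ∀ (R : Type) [CommRing R], Prop) {W : Type} (q : MvPolynomial (W × Fin 2) ℤ) :
    Prop := ∀ (D : Set (W × W)) (Z : Set (W × Fin 2)),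
  GO G (cols D ∪ (fun i => (X i : MvPolynomial (W × Fin 2) ℤ)) '' Z) q

section
variable {W : Type} [Finite W]

lemma gd_one (hG : RG G) (h0 : GS G (∅ : Set (MvPolynomial Empty ℤ))) :
    Gd G (1 : MvPolynomial (W × Fin 2) ℤ) := fun D Z => by
  rw [hG.gl_one]
  exact gs_colz hG h0 D Z

lemma gd_zero (hG : RG G) : Gd G (0 : MvPolynomial (W × Fin 2) ℤ) := fun D Z =>
  go_of_false hG fun R _ x hx => by
    have h1 := hx.2
    rw [map_zero, isUnit_zero_iff] at h1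
    exact h1.symm

lemma pt_union {σ : Type} {E E' : Set (MvPolynomial σ ℤ)} {R : Type} [CommRing R] {x : σ → R} :
    Pt (E ∪ E') x ↔ Pt E x ∧ Pt E' x := by
  unfold Pt
  simp only [Set.mem_union, or_imp, forall_and]

lemma pt_xs {σ : Type} {Z : Set σ} {R : Type} [CommRing R] {x : σ → R} :
    Pt ((fun i => (X i : MvPolynomial σ ℤ)) '' Z) x ↔ ∀ i ∈ Z, x i = 0 := by
  unfold Pt
  simp only [Set.forall_mem_image, ev_X]

lemma gd_dt (hG : RG G) {q : MvPolynomial (W × Fin 2) ℤ} (hq : Gd G q) (v w : W) :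
    Gd G (q * (X (v, 0) * X (w, 1) - X (w, 0) * X (v, 1))) := fun D Z => by
  refine hG.gl_opn _ (hq D Z) ((hG.gl_congr fun R _ x => ?_).2 (hq (insert (v, w) D) Z))
  unfold Lc
  rw [Pt.insert_iff, pt_union, pt_union, pt_cols, pt_cols, map_sub, map_mul, map_mul, ev_X, ev_X,
    ev_X, ev_X, sub_eq_zero]
  constructor
  · rintro ⟨⟨h1, h2, h3⟩, h4⟩
    refine ⟨⟨fun v' w' h => ?_, h3⟩, h4⟩
    rcases h with h | h
    · cases h
      exact h1
    · exact h2 v' w' h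
  · rintro ⟨⟨h1, h3⟩, h4⟩
    exact ⟨⟨h1 v w (Or.inl rfl), fun v' w' h => h1 v' w' (Or.inr h), h3⟩, h4⟩

lemma gd_x (hG : RG G) {q : MvPolynomial (W × Fin 2) ℤ} (hq : Gd G q) (z : W × Fin 2) :
    Gd G (q * X z) := fun D Z => by
  refine hG.gl_opn _ (hq D Z) ((hG.gl_congr fun R _ x => ?_).2 (hq D (insert z Z)))
  unfold Lc
  rw [Pt.insert_iff, pt_union, pt_union, pt_xs, pt_xs, ev_X]
  constructor
  · rintro ⟨⟨h1, h2, h3⟩, h4⟩
    refine ⟨⟨h2, fun i hi => ?_⟩, h4⟩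
    rcases hi with rfl | hi
    · exact h1
    · exact h3 i hi
  · rintro ⟨⟨h2, h3⟩, h4⟩
    exact ⟨⟨h3 z (Or.inl rfl), h2, fun i hi => h3 i (Or.inr hi)⟩, h4⟩

lemma gd_neg (hG : RG G) {q : MvPolynomial (W × Fin 2) ℤ} (hq : Gd G q) :
    Gd G (-q) := fun D Z => by
  refine (hG.gl_congr fun R _ x => ?_).2 (hq D Z)
  unfold Lc
  rw [map_neg, IsUnit.neg_iff]

end

section
variable {V : Type} [DecidableEq V]

/-- the columns: unit vectors at `j₁` and `j₂` -/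
def wt {A : Type} [CommRing A] (j₁ j₂ : V) (y : (V ⊕ V) × Fin 2 → A) (j : V) : A × A :=
  if j = j₁ then (1, 0) else if j = j₂ then (0, 1) else (y (.inr j, 0), y (.inr j, 1))

/-- the determinant of two columns -/
def wf {A : Type} [CommRing A] (j₁ j₂ : V) (y : (V ⊕ V) × Fin 2 → A) (j j' : V) : A :=
  (wt j₁ j₂ y j).1 * (wt j₁ j₂ y j').2 - (wt j₁ j₂ y j').1 * (wt j₁ j₂ y j).2

/-- the product of the rows and the columns -/
def bk {A : Type} [CommRing A] (j₁ j₂ : V) (y : (V ⊕ V) × Fin 2 → A) (e : V × V) : A :=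
  -y (.inl e.1, 1) * (wt j₁ j₂ y e.2).1 + y (.inl e.1, 0) * (wt j₁ j₂ y e.2).2

/-- the minor with the rows `i₁`, `i₂` and the columns `j₁`, `j₂` -/
def mm {A : Type} [CommRing A] (i₁ i₂ j₁ j₂ : V) (x : V × V → A) : A :=
  x (i₁, j₁) * x (i₂, j₂) - x (i₁, j₂) * x (i₂, j₁)

/-- rows and columns of a matrix of rank two -/
noncomputable def fw {A : Type} [CommRing A] (i₁ i₂ j₁ j₂ : V) (x : V × V → A) :
    (V ⊕ V) × Fin 2 → A := fun z => match z with
  | (.inl i, k) => if k = 0 then x (i, j₂) else -x (i, j₁)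
  | (.inr j, k) => if j = j₁ ∨ j = j₂ then 0 else
      if k = 0 then Ring.inverse (mm i₁ i₂ j₁ j₂ x) *
        (x (i₂, j₂) * x (i₁, j) - x (i₁, j₂) * x (i₂, j))
      else Ring.inverse (mm i₁ i₂ j₁ j₂ x) *
        (x (i₁, j₁) * x (i₂, j) - x (i₂, j₁) * x (i₁, j))

lemma gd_wf [Finite V] (hG : RG G) {q : MvPolynomial ((V ⊕ V) × Fin 2) ℤ} (hq : Gd G q)
    (j₁ j₂ j j' : V) : Gd G (q * wf j₁ j₂ X j j') := by
  unfold wf wt
  by_cases h1 : j = j₁
  · rw [if_pos h1]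
    by_cases h2 : j' = j₁
    · rw [if_pos h2]
      simpa using gd_zero hG
    · rw [if_neg h2]
      by_cases h3 : j' = j₂
      · rw [if_pos h3]
        simpa using hq
      · rw [if_neg h3]
        simpa using gd_x hG hq _
  · rw [if_neg h1]
    by_cases h2 : j' = j₁
    · rw [if_pos h2]
      by_cases h3 : j = j₂
      · rw [if_pos h3]
        simpa using gd_neg hG hq
      · rw [if_neg h3]
        have := gd_neg hG (gd_x hG hq (.inr j, 1))
        simpa using this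
    · rw [if_neg h2]
      by_cases h3 : j = j₂
      · rw [if_pos h3]
        by_cases h4 : j' = j₂
        · rw [if_pos h4]
          simpa using gd_zero hG
        · rw [if_neg h4]
          have := gd_neg hG (gd_x hG hq (.inr j', 0))
          simpa using this
      · rw [if_neg h3]
        by_cases h4 : j' = j₂
        · rw [if_pos h4]
          have := gd_x hG hq (.inr j, 0)
          simpa using this
        · rw [if_neg h4]
          exact gd_dt hG hq _ _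

/-- the product of the minors in the new coordinates -/
noncomputable def pF (j₁ j₂ : V) (F : Finset ((V × V) × (V × V))) :
    MvPolynomial ((V ⊕ V) × Fin 2) ℤ :=
  ∏ p ∈ F, ((X (.inl p.1.1, 0) * X (.inl p.1.2, 1) - X (.inl p.1.2, 0) * X (.inl p.1.1, 1)) *
    wf j₁ j₂ X p.2.1 p.2.2)

lemma gd_pF [Finite V] (hG : RG G) (h0 : GS G (∅ : Set (MvPolynomial Empty ℤ))) (j₁ j₂ : V)
    (F : Finset ((V × V) × (V × V))) : Gd G (pF j₁ j₂ F) := by
  classical
  unfold pF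
  induction F using Finset.induction_on with
  | empty =>
    rw [Finset.prod_empty]
    exact gd_one hG h0
  | insert p F hp ih =>
    rw [Finset.prod_insert hp, mul_comm, ← mul_assoc]
    exact gd_wf hG (gd_dt hG ih _ _) _ _ _ _

/-- the pairs of parallel vectors -/
def dS (S : Set (V × V)) (j₁ j₂ : V) : Set ((V ⊕ V) × (V ⊕ V)) :=
  {d | ∃ i j, (i, j) ∉ S ∧ j ≠ j₁ ∧ j ≠ j₂ ∧ d = (.inl i, .inr j)}

/-- the coordinates which are zero -/
def zz (S : Set (V × V)) (j₁ j₂ : V) : Set ((V ⊕ V) × Fin 2) :=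
  {z | match z with
    | (.inl i, k) => (k = 0 ∧ (i, j₂) ∉ S) ∨ (k = 1 ∧ (i, j₁) ∉ S)
    | (.inr j, _) => j = j₁ ∨ j = j₂}

lemma ev_wf {A : Type} [CommRing A] (y : (V ⊕ V) × Fin 2 → A) (j₁ j₂ j j' : V) :
    ev y (wf j₁ j₂ X j j') = wf j₁ j₂ y j j' := by
  unfold wf wt
  rw [map_sub, map_mul, map_mul]
  split_ifs <;> simp

lemma mi_bk {A : Type} [CommRing A] (j₁ j₂ : V) (y : (V ⊕ V) × Fin 2 → A)
    (p : (V × V) × (V × V)) : ev (bk j₁ j₂ y) (mi p) =
      (y (.inl p.1.1, 0) * y (.inl p.1.2, 1) - y (.inl p.1.2, 0) * y (.inl p.1.1, 1)) *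
        wf j₁ j₂ y p.2.1 p.2.2 := by
  unfold mi wf bk
  rw [map_sub, map_mul, map_mul, ev_X, ev_X, ev_X, ev_X]
  ring

lemma lc_r [Fintype V] {S : Set (V × V)} {F : Finset ((V × V) × (V × V))} {R : Type} [CommRing R]
    {x : V × V → R} : Lc (rkS 2 S) (∏ p ∈ F, mi p) x ↔ (∀ e, e ∉ S → x e = 0) ∧
      (∀ (r c : Fin 3 → V), (Matrix.of fun i j => x (r i, c j)).det = 0) ∧
        ∀ p ∈ F, IsUnit (ev x (mi p)) := by
  unfold Lc rkS
  rw [pt_union, pt_zs, map_prod, isUnit_prod_iff]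
  have h1 : Pt (Set.range fun p : (Fin (2 + 1) → V) × (Fin (2 + 1) → V) =>
      (Matrix.of fun i j => (X (p.1 i, p.2 j) : MvPolynomial (V × V) ℤ)).det) x ↔
      ∀ (r c : Fin 3 → V), (Matrix.of fun i j => x (r i, c j)).det = 0 := by
    unfold Pt
    simp only [Set.forall_mem_range, ev_det, Matrix.of_apply, ev_X, Prod.forall]
  rw [h1]
  tauto

lemma lc_n {S : Set (V × V)} {j₁ j₂ : V} {F : Finset ((V × V) × (V × V))} {R : Type} [CommRing R]
    {y : (V ⊕ V) × Fin 2 → R} :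
    Lc (cols (dS S j₁ j₂) ∪ (fun i => (X i : MvPolynomial ((V ⊕ V) × Fin 2) ℤ)) '' zz S j₁ j₂)
      (pF j₁ j₂ F) y ↔
      (∀ i j, (i, j) ∉ S → j ≠ j₁ → j ≠ j₂ →
        y (.inl i, 0) * y (.inr j, 1) = y (.inr j, 0) * y (.inl i, 1)) ∧
      (∀ z ∈ zz S j₁ j₂, y z = 0) ∧ ∀ p ∈ F, IsUnit (ev (bk j₁ j₂ y) (mi p)) := by
  unfold Lc pF
  rw [pt_union, pt_cols, pt_xs, map_prod, isUnit_prod_iff]
  have h1 : (∀ v w, (v, w) ∈ dS S j₁ j₂ → y (v, 0) * y (w, 1) = y (w, 0) * y (v, 1)) ↔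
      ∀ i j, (i, j) ∉ S → j ≠ j₁ → j ≠ j₂ →
        y (.inl i, 0) * y (.inr j, 1) = y (.inr j, 0) * y (.inl i, 1) := by
    constructor
    · intro h i j h1 h2 h3
      exact h _ _ ⟨i, j, h1, h2, h3, rfl⟩
    · rintro h v w ⟨i, j, h1, h2, h3, h4⟩
      cases h4
      exact h i j h1 h2 h3
  have h2 : ∀ p : (V × V) × (V × V), ev y ((X (.inl p.1.1, 0) * X (.inl p.1.2, 1) -
      X (.inl p.1.2, 0) * X (.inl p.1.1, 1)) * wf j₁ j₂ X p.2.1 p.2.2) =
      ev (bk j₁ j₂ y) (mi p) := by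
    intro p
    rw [mi_bk, map_mul, ev_wf, map_sub, map_mul, map_mul, ev_X, ev_X, ev_X, ev_X]
  simp only [h2]
  rw [h1]
  tauto

lemma fw_bk {S : Set (V × V)} {i₁ i₂ j₁ j₂ : V} (hj : j₁ ≠ j₂) {R : Type} [CommRing R]
    {y : (V ⊕ V) × Fin 2 → R} (hy : ∀ z ∈ zz S j₁ j₂, y z = 0)
    (hu : IsUnit (ev (bk j₁ j₂ y) (mi ((i₁, i₂), (j₁, j₂))))) :
    fw i₁ i₂ j₁ j₂ (bk j₁ j₂ y) = y := by
  have e1 : ∀ i, bk j₁ j₂ y (i, j₁) = -y (.inl i, 1) := fun i => by
    unfold bk wt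
    simp
  have e2 : ∀ i, bk j₁ j₂ y (i, j₂) = y (.inl i, 0) := fun i => by
    unfold bk wt
    simp [hj.symm]
  have e3 : ∀ i j, j ≠ j₁ → j ≠ j₂ → bk j₁ j₂ y (i, j) =
      -y (.inl i, 1) * y (.inr j, 0) + y (.inl i, 0) * y (.inr j, 1) := fun i j h1 h2 => by
    unfold bk wt
    simp [h1, h2]
  have hm : mm i₁ i₂ j₁ j₂ (bk j₁ j₂ y) = ev (bk j₁ j₂ y) (mi ((i₁, i₂), (j₁, j₂))) := by
    unfold mm mi
    rw [map_sub, map_mul, map_mul, ev_X, ev_X, ev_X, ev_X]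
  rw [← hm] at hu
  have hi := Ring.inverse_mul_cancel _ hu
  have hmv : mm i₁ i₂ j₁ j₂ (bk j₁ j₂ y) =
      -y (.inl i₁, 1) * y (.inl i₂, 0) + y (.inl i₁, 0) * y (.inl i₂, 1) := by
    unfold mm
    rw [e1, e1, e2, e2]
    ring
  funext z
  obtain ⟨i | j, k⟩ := z
  · show (if k = 0 then _ else _) = _
    by_cases hk : k = 0
    · subst hk
      rw [if_pos rfl, e2]
    · have hk1 : k = 1 := by omega
      subst hk1
      rw [if_neg hk, e1, neg_neg]
  · show (if j = j₁ ∨ j = j₂ then 0 else _) = _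
    by_cases hjj : j = j₁ ∨ j = j₂
    · rw [if_pos hjj]
      exact (hy (.inr j, k) hjj).symm
    · rw [if_neg hjj]
      push Not at hjj
      by_cases hk : k = 0
      · subst hk
        rw [if_pos rfl, e2, e2, e3 _ _ hjj.1 hjj.2, e3 _ _ hjj.1 hjj.2]
        have e4 : y (.inl i₂, 0) * (-y (.inl i₁, 1) * y (.inr j, 0) +
            y (.inl i₁, 0) * y (.inr j, 1)) - y (.inl i₁, 0) * (-y (.inl i₂, 1) * y (.inr j, 0) +
            y (.inl i₂, 0) * y (.inr j, 1)) = mm i₁ i₂ j₁ j₂ (bk j₁ j₂ y) * y (.inr j, 0) := by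
          rw [hmv]
          ring
        rw [e4, ← mul_assoc, hi, one_mul]
      · have hk1 : k = 1 := by omega
        subst hk1
        rw [if_neg hk, e1, e1, e3 _ _ hjj.1 hjj.2, e3 _ _ hjj.1 hjj.2]
        have e4 : -y (.inl i₁, 1) * (-y (.inl i₂, 1) * y (.inr j, 0) +
            y (.inl i₂, 0) * y (.inr j, 1)) - -y (.inl i₂, 1) * (-y (.inl i₁, 1) * y (.inr j, 0) +
            y (.inl i₁, 0) * y (.inr j, 1)) = mm i₁ i₂ j₁ j₂ (bk j₁ j₂ y) * y (.inr j, 1) := by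
          rw [hmv]
          ring
        rw [e4, ← mul_assoc, hi, one_mul]

lemma bk_fw {i₁ i₂ j₁ j₂ : V} (hj : j₁ ≠ j₂) {R : Type} [CommRing R] {x : V × V → R}
    (hx : ∀ (r c : Fin 3 → V), (Matrix.of fun i j => x (r i, c j)).det = 0)
    (hu : IsUnit (mm i₁ i₂ j₁ j₂ x)) : bk j₁ j₂ (fw i₁ i₂ j₁ j₂ x) = x := by
  have hi := Ring.inverse_mul_cancel _ hu
  have w1 : ∀ i, fw i₁ i₂ j₁ j₂ x (.inl i, 1) = -x (i, j₁) := fun i => by
    show (if (1 : Fin 2) = 0 then x (i, j₂) else -x (i, j₁)) = _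
    rw [if_neg (by decide)]
  have w0 : ∀ i, fw i₁ i₂ j₁ j₂ x (.inl i, 0) = x (i, j₂) := fun i => by
    show (if (0 : Fin 2) = 0 then x (i, j₂) else -x (i, j₁)) = _
    rw [if_pos rfl]
  funext e
  obtain ⟨i, j⟩ := e
  show -fw i₁ i₂ j₁ j₂ x (.inl i, 1) * (wt j₁ j₂ (fw i₁ i₂ j₁ j₂ x) j).1 +
    fw i₁ i₂ j₁ j₂ x (.inl i, 0) * (wt j₁ j₂ (fw i₁ i₂ j₁ j₂ x) j).2 = _
  rw [w1, w0]
  unfold wt
  by_cases h1 : j = j₁
  · subst h1
    simp
  by_cases h2 : j = j₂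
  · subst h2
    simp [h1]
  rw [if_neg h1, if_neg h2]
  have v0 : fw i₁ i₂ j₁ j₂ x (.inr j, 0) = Ring.inverse (mm i₁ i₂ j₁ j₂ x) *
        (x (i₂, j₂) * x (i₁, j) - x (i₁, j₂) * x (i₂, j)) := by
    show (if j = j₁ ∨ j = j₂ then 0 else if (0 : Fin 2) = 0 then _ else _) = _
    rw [if_neg (by push Not; exact ⟨h1, h2⟩), if_pos rfl]
  have v1 : fw i₁ i₂ j₁ j₂ x (.inr j, 1) = Ring.inverse (mm i₁ i₂ j₁ j₂ x) *
        (x (i₁, j₁) * x (i₂, j) - x (i₂, j₁) * x (i₁, j)) := by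
    show (if j = j₁ ∨ j = j₂ then 0 else if (1 : Fin 2) = 0 then _ else _) = _
    rw [if_neg (by push Not; exact ⟨h1, h2⟩), if_neg (by decide)]
  show - -x (i, j₁) * fw i₁ i₂ j₁ j₂ x (.inr j, 0) + x (i, j₂) * fw i₁ i₂ j₁ j₂ x (.inr j, 1) = _
  rw [v0, v1]
  have h3 := hx ![i₁, i₂, i] ![j₁, j₂, j]
  rw [Matrix.det_fin_three] at h3
  simp only [Matrix.of_apply, Matrix.cons_val] at h3
  have hm : mm i₁ i₂ j₁ j₂ x = x (i₁, j₁) * x (i₂, j₂) - x (i₁, j₂) * x (i₂, j₁) := rfl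
  have e5 : x (i, j₁) * (x (i₂, j₂) * x (i₁, j) - x (i₁, j₂) * x (i₂, j)) +
      x (i, j₂) * (x (i₁, j₁) * x (i₂, j) - x (i₂, j₁) * x (i₁, j)) =
      mm i₁ i₂ j₁ j₂ x * x (i, j) := by
    rw [hm]
    linear_combination (-1 : R) * h3
  calc - -x (i, j₁) * (Ring.inverse (mm i₁ i₂ j₁ j₂ x) *
        (x (i₂, j₂) * x (i₁, j) - x (i₁, j₂) * x (i₂, j))) +
      x (i, j₂) * (Ring.inverse (mm i₁ i₂ j₁ j₂ x) *
        (x (i₁, j₁) * x (i₂, j) - x (i₂, j₁) * x (i₁, j)))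
      = Ring.inverse (mm i₁ i₂ j₁ j₂ x) * (x (i, j₁) * (x (i₂, j₂) * x (i₁, j) -
          x (i₁, j₂) * x (i₂, j)) + x (i, j₂) * (x (i₁, j₁) * x (i₂, j) -
            x (i₂, j₁) * x (i₁, j))) := by ring
    _ = x (i, j) := by rw [e5, ← mul_assoc, hi, one_mul]

lemma bk_minor {j₁ j₂ : V} {R : Type} [CommRing R] (y : (V ⊕ V) × Fin 2 → R)
    (r c : Fin 3 → V) : (Matrix.of fun i j => bk j₁ j₂ y (r i, c j)).det = 0 := by
  rw [Matrix.det_fin_three]
  simp only [Matrix.of_apply, bk]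
  ring

end

end Rk

open Rk in
/-- Matrices of rank two with prescribed zeros, some minors of order two being inverted. -/
theorem go_rk2 (hG : RG G) (h0 : GS G (∅ : Set (MvPolynomial Empty ℤ))) {V : Type} [Fintype V]
    (S : Set (V × V)) (F : Finset ((V × V) × (V × V))) (hF : F.Nonempty) :
    GO G (rkS 2 S) (∏ p ∈ F, mi p) := by
  classical
  obtain ⟨⟨⟨i₁, i₂⟩, j₁, j₂⟩, hp⟩ := hF
  by_cases hj : j₁ = j₂
  · refine go_of_false hG fun R _ x hx => ?_
    rw [lc_r] at hx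
    have h1 := hx.2.2 _ hp
    have h2 : ev x (mi ((i₁, i₂), (j₁, j₂))) = 0 := by
      unfold mi
      rw [hj]
      simp
    rw [h2, isUnit_zero_iff] at h1
    exact h1.symm
  have hmm : ∀ {R : Type} [CommRing R] (x : V × V → R),
      mm i₁ i₂ j₁ j₂ x = ev x (mi ((i₁, i₂), (j₁, j₂))) := by
    intro R _ x
    unfold mm mi
    rw [map_sub, map_mul, map_mul, ev_X, ev_X, ev_X, ev_X]
  refine (hG.gl_iso (fun R _ x => fw i₁ i₂ j₁ j₂ x) (fun R _ y => bk j₁ j₂ y)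
    ?_ ?_ ?_ ?_ ?_ ?_).2 (gd_pF hG h0 j₁ j₂ F (dS S j₁ j₂) (zz S j₁ j₂))
  · intro R R' _ _ φ x hx z
    rw [lc_r] at hx
    have hu : IsUnit (mm i₁ i₂ j₁ j₂ x) := by
      rw [hmm]
      exact hx.2.2 _ hp
    have hm : φ (mm i₁ i₂ j₁ j₂ x) = mm i₁ i₂ j₁ j₂ fun e => φ (x e) := by
      unfold mm
      rw [map_sub, map_mul, map_mul]
    obtain ⟨i | j, k⟩ := z
    · show φ (if k = 0 then _ else _) = if k = 0 then _ else _
      split_ifs
      · rfl
      · exact map_neg φ _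
    · show φ (if j = j₁ ∨ j = j₂ then 0 else if k = 0 then _ else _) =
        if j = j₁ ∨ j = j₂ then 0 else if k = 0 then _ else _
      split_ifs
      · exact map_zero φ
      · rw [map_mul, map_inv_of_unit φ hu, hm, map_sub, map_mul, map_mul]
      · rw [map_mul, map_inv_of_unit φ hu, hm, map_sub, map_mul, map_mul]
  · intro R R' _ _ φ y _ e
    show φ (-y _ * (wt j₁ j₂ y e.2).1 + y _ * (wt j₁ j₂ y e.2).2) =
      -φ (y _) * (wt j₁ j₂ (fun z => φ (y z)) e.2).1 +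
        φ (y _) * (wt j₁ j₂ (fun z => φ (y z)) e.2).2
    have h1 : (wt j₁ j₂ (fun z => φ (y z)) e.2) =
        (φ (wt j₁ j₂ y e.2).1, φ (wt j₁ j₂ y e.2).2) := by
      unfold wt
      split_ifs
      · rw [map_one, map_zero]
      · rw [map_one, map_zero]
      · rfl
    rw [h1, map_add, map_mul, map_mul, map_neg]
  · intro R _ x hx
    rw [lc_r] at hx
    have hu : IsUnit (mm i₁ i₂ j₁ j₂ x) := by
      rw [hmm]
      exact hx.2.2 _ hp
    have hb := bk_fw hj hx.2.1 hu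
    rw [lc_n, hb]
    refine ⟨fun i j hij h1 h2 => ?_, fun z hz => ?_, hx.2.2⟩
    · have h3 : bk j₁ j₂ (fw i₁ i₂ j₁ j₂ x) (i, j) = 0 := by
        rw [hb]
        exact hx.1 _ hij
      unfold bk wt at h3
      simp only [if_neg h1, if_neg h2] at h3
      linear_combination h3
    · obtain ⟨i | j, k⟩ := z
      · rcases hz with ⟨hk, h3⟩ | ⟨hk, h3⟩
        · subst hk
          show (if (0 : Fin 2) = 0 then x (i, j₂) else -x (i, j₁)) = 0
          rw [if_pos rfl]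
          exact hx.1 _ h3
        · subst hk
          show (if (1 : Fin 2) = 0 then x (i, j₂) else -x (i, j₁)) = 0
          rw [if_neg (by decide), hx.1 _ h3, neg_zero]
      · have hz' : j = j₁ ∨ j = j₂ := hz
        show (if j = j₁ ∨ j = j₂ then 0 else _) = (0 : R)
        rw [if_pos hz']
  · intro R _ y hy
    rw [lc_n] at hy
    rw [lc_r]
    refine ⟨fun e he => ?_, fun r c => bk_minor y r c, hy.2.2⟩
    obtain ⟨i, j⟩ := e
    unfold bk wt
    by_cases h1 : j = j₁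
    · subst h1
      simp only [if_true]
      rw [hy.2.1 (.inl i, 1) (Or.inr ⟨rfl, he⟩)]
      simp
    · by_cases h2 : j = j₂
      · subst h2
        simp only [if_neg h1, if_true]
        rw [hy.2.1 (.inl i, 0) (Or.inl ⟨rfl, he⟩)]
        simp
      · simp only [if_neg h1, if_neg h2]
        have h3 := hy.1 i j he h1 h2
        linear_combination h3
  · intro R _ x hx
    rw [lc_r] at hx
    exact bk_fw hj hx.2.1 (by rw [hmm]; exact hx.2.2 _ hp)
  · intro R _ y hy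
    rw [lc_n] at hy
    exact fw_bk hj hy.2.1 (hy.2.2 _ hp)

end Pool.Agent.PZ
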